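import Pool.Agent.H42.HO.Smo
import Pool.Agent.H43.SI.Pw

/-!
# H42 HO, Lo1: one long smooth factor and another factor which is not short (helper5)
-/

set_option autoImplicit false

namespace Pool.Agent.H42.HO

open Finset Pool.Agent.H43.SI

/-- Proof (pointwise). `smo` for `i`: `2^(e i) >= X^(1/12)`, `|t| <= X^(1/100)`, so the factor is `<= 2 C (1 + e i)/|t|`. `pw` (with
`A' = A + 6`) for `j`: `2^(e j) <= 2^13 X^(11/12) <= X`, so that factor is `<= (log X)^(-A')`, if `(log X)^(A'+3) <= |t|`. The other four: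
`pw_triv`, `1 + e <= 3 log X`. -/
theorem lo1 (A : ℝ) (hA : 0 < A) : ∃ A1 X0 : ℝ, 0 < A1 ∧ 10 ≤ X0 ∧ ∀ X : ℝ, X0 ≤ X →
    ∀ e : Fin 6 → ℕ, (2 : ℝ) ^ (∑ i, e i) ≤ 2 ^ 13 * X → ∀ i j : Fin 6, 3 ≤ (i : ℕ) → j ≠ i →
    X ^ ((1 : ℝ) / 12) ≤ 2 ^ (e i) → Yl X ≤ 2 ^ (e j) →
    ∀ t : ℝ, (Real.log X) ^ A1 ≤ |t| → |t| ≤ X ^ ((1 : ℝ) / 100) →
    ‖bp c1 e t‖ ≤ (Real.log X) ^ (-A) / |t| := by
  obtain ⟨C, hC, hsmo⟩ := smo
  obtain ⟨X1, hX1, hpw⟩ := pw 1 (A + 6) (by linarith)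
  refine ⟨A + 9, max X1 (max ((2 : ℝ) ^ (156 : ℕ)) (max (Real.exp 14) (Real.exp (486 * C)))),
    by linarith, hX1.trans (le_max_left _ _), ?_⟩
  intro X hX e he i j hi hji h1 h2 t ht1 ht2
  have hXa : X1 ≤ X := (le_max_left _ _).trans hX
  have hXb : (2 : ℝ) ^ (156 : ℕ) ≤ X := ((le_max_left _ _).trans (le_max_right _ _)).trans hX
  have hXc : Real.exp 14 ≤ X :=
    (((le_max_left _ _).trans (le_max_right _ _)).trans (le_max_right _ _)).trans hX
  have hXd : Real.exp (486 * C) ≤ X :=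
    (((le_max_right _ _).trans (le_max_right _ _)).trans (le_max_right _ _)).trans hX
  have hX0 : 0 < X := by linarith
  have hX1' : 1 ≤ X := by linarith
  set L := Real.log X with hL
  have hL14 : (14 : ℝ) ≤ L := (Real.le_log_iff_exp_le hX0).2 hXc
  have hLC : 486 * C ≤ L := (Real.le_log_iff_exp_le hX0).2 hXd
  have hL0 : 0 < L := by linarith
  have hL1 : 1 ≤ L := by linarith
  have ht0 : 1 ≤ |t| := le_trans (Real.one_le_rpow hL1 (by linarith)) ht1
  have htp : 0 < |t| := by linarith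
  -- exponents
  have hsum : ((∑ k, e k : ℕ) : ℝ) ≤ 13 + 2 * L := by
    have h3 : Real.log ((2 : ℝ) ^ (∑ k, e k)) ≤ Real.log (2 ^ 13 * X) :=
      Real.log_le_log (by positivity) he
    rw [Real.log_pow, Real.log_mul (by positivity) (by positivity), Real.log_pow] at h3
    have h4 : (0.69 : ℝ) ≤ Real.log 2 := by
      have := Real.log_two_gt_d9
      linarith
    have h5 : ((∑ k, e k : ℕ) : ℝ) * Real.log 2 ≤ (13 + 2 * L) * Real.log 2 := by
      refine h3.trans ?_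
      push_cast
      nlinarith
    exact le_of_mul_le_mul_right h5 (by linarith)
  have hle : ∀ k, (1 : ℝ) + e k ≤ 3 * L := by
    intro k
    have h3 : e k ≤ ∑ k, e k := Finset.single_le_sum (fun _ _ => Nat.zero_le _) (mem_univ k)
    have h4 : (e k : ℝ) ≤ ((∑ k, e k : ℕ) : ℝ) := by exact_mod_cast h3
    linarith
  have h12 : (2 : ℝ) ^ 13 ≤ X ^ ((1 : ℝ) / 12) := by
    have h3 : ((2 : ℝ) ^ (156 : ℕ)) ^ ((1 : ℝ) / 12) ≤ X ^ ((1 : ℝ) / 12) :=
      Real.rpow_le_rpow (by positivity) hXb (by norm_num)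
    refine le_trans (le_of_eq ?_) h3
    rw [← Real.rpow_natCast, ← Real.rpow_natCast, ← Real.rpow_mul (by norm_num)]
    norm_num
  -- the factor j is at most X
  have hej : (2 : ℝ) ^ (e j) ≤ X := by
    have h3 : e i + e j ≤ ∑ k, e k := by
      have h4 : ∑ k ∈ ({i, j} : Finset (Fin 6)), e k ≤ ∑ k, e k :=
        Finset.sum_le_sum_of_subset (Finset.subset_univ _)
      rwa [Finset.sum_pair hji.symm] at h4
    have h5 : (2 : ℝ) ^ (e i + e j) ≤ 2 ^ 13 * X :=
      le_trans (pow_le_pow_right₀ (by norm_num) h3) he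
    rw [pow_add] at h5
    have h6 : (2 : ℝ) ^ 13 * 2 ^ (e j) ≤ 2 ^ 13 * X := by
      refine le_trans ?_ h5
      exact mul_le_mul_of_nonneg_right (h12.trans h1) (by positivity)
    exact le_of_mul_le_mul_left h6 (by positivity)
  have htX : |t| ≤ X := by
    refine ht2.trans ?_
    calc X ^ ((1 : ℝ) / 100) ≤ X ^ (1 : ℝ) := Real.rpow_le_rpow_of_exponent_le hX1' (by norm_num)
      _ = X := Real.rpow_one X
  -- the factor i
  have hi1 : ‖pol (cf c1 i) (e i) t‖ ≤ 2 * C * (3 * L) / |t| := by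
    refine (hsmo i (e i) t hi ht0).trans ?_
    have h3 : |t| / 2 ^ (e i) ≤ 1 / |t| := by
      rw [div_le_div_iff₀ (by positivity) htp, one_mul]
      calc |t| * |t| ≤ X ^ ((1 : ℝ) / 100) * X ^ ((1 : ℝ) / 100) :=
            mul_le_mul ht2 ht2 htp.le (by positivity)
        _ = X ^ ((1 : ℝ) / 50) := by
            rw [← Real.rpow_add hX0]
            norm_num
        _ ≤ X ^ ((1 : ℝ) / 12) := Real.rpow_le_rpow_of_exponent_le hX1' (by norm_num)
        _ ≤ 2 ^ (e i) := h1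
    calc C * (1 + (e i : ℝ)) * (1 / |t| + |t| / 2 ^ (e i))
        ≤ C * (3 * L) * (1 / |t| + 1 / |t|) := by
          have h4 : (0 : ℝ) ≤ |t| / 2 ^ (e i) := by positivity
          have h5 : (0 : ℝ) ≤ 1 / |t| := by positivity
          exact mul_le_mul (mul_le_mul_of_nonneg_left (hle i) hC.le) (by linarith)
            (by linarith) (by positivity)
      _ = 2 * C * (3 * L) / |t| := by ring
  -- the factor j
  have hj1 : ‖pol (cf c1 j) (e j) t‖ ≤ L ^ (-(A + 6)) :=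
    hpw c1 X hXa j (e j) t h2 hej (by rw [show A + 6 + 3 = A + 9 by ring]; exact ht1) htX
  -- the rest
  have hr : ∏ k ∈ (univ.erase i).erase j, ‖pol (cf c1 k) (e k) t‖ ≤ (3 * L) ^ 4 := by
    have h3 : ∏ k ∈ (univ.erase i).erase j, ‖pol (cf c1 k) (e k) t‖ ≤
        ∏ _k ∈ (univ.erase i).erase j, (3 * L) :=
      Finset.prod_le_prod (fun _ _ => norm_nonneg _) (fun k _ => (pw_triv c1 k (e k) t).trans (hle k))
    have h4 : ((univ.erase i).erase j : Finset (Fin 6)).card = 4 := by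
      rw [Finset.card_erase_of_mem (Finset.mem_erase.2 ⟨hji, mem_univ _⟩),
        Finset.card_erase_of_mem (mem_univ _)]
      simp
    rw [Finset.prod_const, h4] at h3
    exact h3
  have hb : ‖bp c1 e t‖ = ‖pol (cf c1 i) (e i) t‖ * (‖pol (cf c1 j) (e j) t‖ *
      ∏ k ∈ (univ.erase i).erase j, ‖pol (cf c1 k) (e k) t‖) := by
    unfold bp
    rw [norm_prod, ← Finset.mul_prod_erase univ _ (mem_univ i),
      ← Finset.mul_prod_erase (univ.erase i) _ (Finset.mem_erase.2 ⟨hji, mem_univ j⟩)]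
  rw [hb]
  have hr0 : 0 ≤ ∏ k ∈ (univ.erase i).erase j, ‖pol (cf c1 k) (e k) t‖ :=
    Finset.prod_nonneg fun _ _ => norm_nonneg _
  have hp1 : L ^ (-(A + 6)) * L ^ (5 : ℕ) = L ^ (-A) * L⁻¹ := by
    rw [← Real.rpow_natCast L 5, ← Real.rpow_add hL0, ← Real.rpow_neg_one L, ← Real.rpow_add hL0]
    congr 1
    push_cast
    ring
  calc ‖pol (cf c1 i) (e i) t‖ * (‖pol (cf c1 j) (e j) t‖ *
        ∏ k ∈ (univ.erase i).erase j, ‖pol (cf c1 k) (e k) t‖)
      ≤ (2 * C * (3 * L) / |t|) * (L ^ (-(A + 6)) * (3 * L) ^ 4) := by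
        refine mul_le_mul hi1 (mul_le_mul hj1 hr hr0 (by positivity)) (by positivity) (by positivity)
    _ = 486 * C * (L ^ (-(A + 6)) * L ^ (5 : ℕ)) / |t| := by ring
    _ = (486 * C * L⁻¹) * L ^ (-A) / |t| := by rw [hp1]; ring
    _ ≤ 1 * L ^ (-A) / |t| := by
        have h3 : 486 * C * L⁻¹ ≤ 1 := by
          rw [← div_eq_mul_inv, div_le_one hL0]
          exact hLC
        have h4 : (0 : ℝ) ≤ L ^ (-A) := by positivity
        exact div_le_div_of_nonneg_right (mul_le_mul_of_nonneg_right h3 h4) htp.le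
    _ = L ^ (-A) / |t| := by rw [one_mul]

end Pool.Agent.H42.HO
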