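import Pool.Agent.H42.HO.Defs
import Pool.Agent.H43.SI.Pw
import Pool.Agent.H43.WH.T2

/-!
# H42 HO, Lo2: all smooth factors at most `X^(1/12)` (helper4)
-/

set_option autoImplicit false

namespace Pool.Agent.H42.HO

open Finset Pool.Agent.H43.SI MeasureTheory

/-- Proof. Short: `t2` of Pool/Agent/H43/WH/T2.lean (helper43) with `kap = 1/100`, once the three factors `i < 3` are seen to be
`>= X^(1/100)`. Direct: the three factors `i < 3` have product `>= X/4 * X^(-3/12)`, each is `<= 8 X^(1/3)`, so each is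
`>= X^(1/12)/256 >= X^(1/100)`. Factor 2: `pw` with a large `A'`. Factor 0, and the product of the factors 1, 3, 4, 5: `mvp` with
`T = X^(1/100)`, both quotients `T / 2^(..)` are `<= 1`. Cauchy-Schwarz. The number `A'` absorbs the power `B` of `mvp`. -/
theorem lo2 (A : ℝ) (hA : 0 < A) : ∃ A1 X0 : ℝ, 0 < A1 ∧ 10 ≤ X0 ∧ ∀ X : ℝ, X0 ≤ X →
    ∀ e : Fin 6 → ℕ, X ≤ 4 * 2 ^ (∑ i, e i) → (2 : ℝ) ^ (∑ i, e i) ≤ 2 ^ 13 * X →
    (∀ i : Fin 6, (i : ℕ) < 3 → (2 : ℝ) ^ (e i) ≤ 8 * X ^ ((1 : ℝ) / 3)) →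
    (∀ i : Fin 6, 3 ≤ (i : ℕ) → (2 : ℝ) ^ (e i) < X ^ ((1 : ℝ) / 12)) →
    ∫ t in {t : ℝ | (Real.log X) ^ A1 ≤ |t| ∧ |t| ≤ X ^ ((1 : ℝ) / 100)}, ‖bp c1 e t‖ ≤
      (Real.log X) ^ (-A) := by
  obtain ⟨A0, X1, hA0, hX1, h⟩ := Pool.Agent.H43.WH.t2 1 (1 / 100) A (by norm_num) (by norm_num) hA
  refine ⟨A0, max X1 ((2 : ℝ) ^ (240 : ℕ)), hA0, hX1.trans (le_max_left _ _), ?_⟩
  intro X hX e hS1 _ he1 he2
  have hXX1 : X1 ≤ X := (le_max_left _ _).trans hX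
  have hXX2 : (2 : ℝ) ^ (240 : ℕ) ≤ X := (le_max_right _ _).trans hX
  have hX0 : 0 < X := by linarith
  have hXone : 1 ≤ X := by linarith
  set u : ℝ := X ^ ((1 : ℝ) / 12) with hu
  have hu0 : 0 < u := by positivity
  have hu1 : 1 ≤ u := Real.one_le_rpow hXone (by norm_num)
  have hu4 : X ^ ((1 : ℝ) / 3) = u ^ 4 := by
    rw [hu, ← Real.rpow_natCast, ← Real.rpow_mul hX0.le]
    norm_num
  have hu12 : X = u ^ 12 := by
    rw [hu, ← Real.rpow_natCast, ← Real.rpow_mul hX0.le]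
    norm_num
  have hubig : (2 : ℝ) ^ 20 ≤ u := by
    have h5 : ((2 : ℝ) ^ (240 : ℕ)) ^ ((1 : ℝ) / 12) ≤ X ^ ((1 : ℝ) / 12) :=
      Real.rpow_le_rpow (by positivity) hXX2 (by norm_num)
    refine le_trans (le_of_eq ?_) h5
    rw [← Real.rpow_natCast, ← Real.rpow_natCast, ← Real.rpow_mul (by positivity)]
    norm_num
  have hsm : X ^ ((1 : ℝ) / 100) ≤ u / 256 := by
    -- X^(1/100) = u^(12/100) and u^(88/100) >= 256
    have h1 : X ^ ((1 : ℝ) / 100) = u ^ ((12 : ℝ) / 100) := by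
      rw [hu, ← Real.rpow_mul hX0.le]
      norm_num
    have h2 : u ^ ((12 : ℝ) / 100) ≤ u ^ ((1 : ℝ) / 2) :=
      Real.rpow_le_rpow_of_exponent_le hu1 (by norm_num)
    have h3 : u ^ ((1 : ℝ) / 2) * u ^ ((1 : ℝ) / 2) = u := by
      rw [← Real.rpow_add hu0]
      norm_num
    have h4 : (256 : ℝ) ≤ u ^ ((1 : ℝ) / 2) := by
      have h5 : ((2 : ℝ) ^ 20) ^ ((1 : ℝ) / 2) ≤ u ^ ((1 : ℝ) / 2) :=
        Real.rpow_le_rpow (by positivity) hubig (by norm_num)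
      refine le_trans ?_ h5
      rw [← Real.rpow_natCast, ← Real.rpow_mul (by positivity)]
      norm_num
    have h6 : 0 < u ^ ((1 : ℝ) / 2) := by positivity
    rw [h1, le_div_iff₀ (by norm_num)]
    nlinarith
  rw [Fin.sum_univ_six] at hS1
  simp only [pow_add] at hS1
  have e0 := he1 0 (by decide)
  have e1 := he1 1 (by decide)
  have e2 := he1 2 (by decide)
  have e3 := (he2 3 (by decide)).le
  have e4 := (he2 4 (by decide)).le
  have e5 := (he2 5 (by decide)).le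
  rw [hu4] at e0 e1 e2
  have p0 : (0 : ℝ) < 2 ^ e 0 := by positivity
  have p1 : (0 : ℝ) < 2 ^ e 1 := by positivity
  have p2 : (0 : ℝ) < 2 ^ e 2 := by positivity
  have p3 : (0 : ℝ) < 2 ^ e 3 := by positivity
  have p4 : (0 : ℝ) < 2 ^ e 4 := by positivity
  have p5 : (0 : ℝ) < 2 ^ e 5 := by positivity
  have hcore : ∀ a b c d f g : ℝ, 0 < a → 0 < b → 0 < c → 0 < d → 0 < f → 0 < g →
      b ≤ 8 * u ^ 4 → c ≤ 8 * u ^ 4 → d ≤ u → f ≤ u → g ≤ u → u ^ 12 ≤ 4 * (a * b * c * d * f * g) →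
      u / 256 ≤ a := by
    intro a b c d f g ha hb hc hd hf hg h1 h2 h3 h4 h5 h6
    have k1 : b * c ≤ (8 * u ^ 4) * (8 * u ^ 4) := mul_le_mul h1 h2 hc.le (by positivity)
    have k2 : d * f ≤ u * u := mul_le_mul h3 h4 hf.le hu0.le
    have k3 : (d * f) * g ≤ (u * u) * u := mul_le_mul k2 h5 hg.le (by positivity)
    have k4 : (b * c) * ((d * f) * g) ≤ ((8 * u ^ 4) * (8 * u ^ 4)) * ((u * u) * u) :=
      mul_le_mul k1 k3 (by positivity) (by positivity)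
    have k5 : u ^ 12 ≤ (256 * a) * u ^ 11 := by
      calc u ^ 12 ≤ 4 * (a * b * c * d * f * g) := h6
        _ = 4 * a * ((b * c) * ((d * f) * g)) := by ring
        _ ≤ 4 * a * (((8 * u ^ 4) * (8 * u ^ 4)) * ((u * u) * u)) :=
            mul_le_mul_of_nonneg_left k4 (by positivity)
        _ = (256 * a) * u ^ 11 := by ring
    have k6 : u * u ^ 11 ≤ (256 * a) * u ^ 11 := by
      calc u * u ^ 11 = u ^ 12 := by ring
        _ ≤ _ := k5
    have k7 : u ≤ 256 * a := le_of_mul_le_mul_right k6 (by positivity)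
    linarith
  rw [hu12] at hS1
  have f0 : u / 256 ≤ 2 ^ e 0 := hcore _ (2 ^ e 1) (2 ^ e 2) (2 ^ e 3) (2 ^ e 4) (2 ^ e 5) p0 p1 p2 p3 p4 p5
    e1 e2 e3 e4 e5 hS1
  have f1 : u / 256 ≤ 2 ^ e 1 := hcore _ (2 ^ e 0) (2 ^ e 2) (2 ^ e 3) (2 ^ e 4) (2 ^ e 5) p1 p0 p2 p3 p4 p5
    e0 e2 e3 e4 e5 (by linarith [hS1])
  have f2 : u / 256 ≤ 2 ^ e 2 := hcore _ (2 ^ e 0) (2 ^ e 1) (2 ^ e 3) (2 ^ e 4) (2 ^ e 5) p2 p0 p1 p3 p4 p5
    e0 e1 e3 e4 e5 (by linarith [hS1])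
  have hup : ∀ i : Fin 6, (2 : ℝ) ^ (e i) ≤ X := by
    have g1 : 8 * u ^ 4 ≤ X := by
      rw [hu12]
      have : (8 : ℝ) ≤ u ^ 8 := by
        calc (8 : ℝ) ≤ u := le_trans (by norm_num) hubig
          _ = u ^ 1 := (pow_one u).symm
          _ ≤ u ^ 8 := pow_le_pow_right₀ hu1 (by norm_num)
      calc 8 * u ^ 4 ≤ u ^ 8 * u ^ 4 := mul_le_mul_of_nonneg_right this (by positivity)
        _ = u ^ 12 := by ring
    have g2 : u ≤ X := by
      rw [hu12]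
      calc u = u ^ 1 := (pow_one u).symm
        _ ≤ u ^ 12 := pow_le_pow_right₀ hu1 (by norm_num)
    intro i
    by_cases hi : (i : ℕ) < 3
    · have := he1 i hi
      rw [hu4] at this
      exact this.trans g1
    · exact (he2 i (by omega)).le.trans g2
  refine h c1 X hXX1 e ?_ hup
  intro i hi
  have : ((1 / 100 : ℝ)) = (1 : ℝ) / 100 := rfl
  refine hsm.trans ?_
  fin_cases i
  · exact f0
  · exact f1
  · exact f2
  · exact absurd hi (by decide)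
  · exact absurd hi (by decide)
  · exact absurd hi (by decide)

end Pool.Agent.H42.HO
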