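import Pool.Agent.H42.HO.Gau
import Pool.Agent.H42.HO.Lo1
import Pool.Agent.H42.HO.Lo2
import Pool.Agent.H43.SI.Poly

/-!
# H42 HO, Box: one box function
-/

set_option autoImplicit false

namespace Pool.Agent.H42.HO

open Finset Pool.Agent.H43.SI MeasureTheory

theorem bx_e (X : ℝ) (hX : 0 < X) (hL : 28 ≤ Real.log X) (e : Fin 6 → ℕ)
    (hS : (2 : ℝ) ^ (∑ i, e i) ≤ 2 ^ 13 * X) (k : Fin 6) : 1 + (e k : ℝ) ≤ 2 * Real.log X := by
  have h1 : e k ≤ ∑ i, e i := Finset.single_le_sum (fun _ _ => Nat.zero_le _) (Finset.mem_univ k)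
  have h2 : (2 : ℝ) ^ (e k) ≤ 2 ^ 13 * X := (pow_le_pow_right₀ (by norm_num) h1).trans hS
  have h3 := Real.log_le_log (by positivity) h2
  rw [Real.log_pow, Real.log_mul (by positivity) hX.ne', Real.log_pow] at h3
  have h4 := Real.log_two_gt_d9
  have h5 := Real.log_two_lt_d9
  push_cast at h3
  have h6 : (e k : ℝ) * 0.69 ≤ (e k : ℝ) * Real.log 2 :=
    mul_le_mul_of_nonneg_left (by linarith) (Nat.cast_nonneg _)
  linarith

theorem bx_bp (X : ℝ) (hX : 0 < X) (hL : 28 ≤ Real.log X) (e : Fin 6 → ℕ)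
    (hS : (2 : ℝ) ^ (∑ i, e i) ≤ 2 ^ 13 * X) (t : ℝ) : ‖bp c1 e t‖ ≤ (2 * Real.log X) ^ 6 := by
  unfold bp
  rw [norm_prod]
  calc ∏ i, ‖pol (cf c1 i) (e i) t‖ ≤ ∏ _i : Fin 6, (2 * Real.log X) :=
        Finset.prod_le_prod (fun _ _ => norm_nonneg _) fun k _ =>
          (pw_triv c1 k (e k) t).trans (bx_e X hX hL e hS k)
    _ = (2 * Real.log X) ^ 6 := by
        rw [Finset.prod_const, Finset.card_univ, Fintype.card_fin]

theorem bx_sum (e : Fin 6 → ℕ) (N : ℕ) (hN : 2 ^ (∑ i, e i) ≤ N) (t : ℝ) :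
    ∑ n ∈ Icc 1 N, bf c1 e n * (n : ℂ) ^ (-(1 + (t : ℂ) * Complex.I)) = bp c1 e t := by
  rw [← bf_poly c1 e t]
  symm
  apply Finset.sum_subset
  · intro n hn
    rw [Finset.mem_Icc] at hn ⊢
    omega
  · intro n _ hn
    have h1 : bf c1 e n = 0 := by
      by_contra h0
      have := bf_supp c1 e n h0
      apply hn
      rw [Finset.mem_Icc]
      exact ⟨this.1, this.2.1⟩
    rw [h1, zero_mul]

theorem bx_cont (e : Fin 6 → ℕ) : Continuous (bp c1 e) := by
  have h := H11.WX.Fp_cont (bf c1 e) (2 ^ (∑ i, e i))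
  have h2 : H11.WX.Fp (bf c1 e) (2 ^ (∑ i, e i)) = bp c1 e := by
    funext t
    exact bx_sum e _ le_rfl t
  rwa [h2] at h

theorem bx_log (a b : ℝ) (ha : 0 < a) (hab : a ≤ b) :
    ∫ t in {t : ℝ | a ≤ |t| ∧ |t| ≤ b}, 1 / |t| = 2 * Real.log (b / a) := by
  have hD : MeasurableSet {t : ℝ | a ≤ |t| ∧ |t| ≤ b} :=
    (isClosed_le continuous_const continuous_abs).measurableSet.inter
      (isClosed_le continuous_abs continuous_const).measurableSet
  rw [← integral_indicator hD]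
  have h1 : (Set.indicator {t : ℝ | a ≤ |t| ∧ |t| ≤ b} fun t => 1 / |t|) =
      fun t => (Set.Icc a b).indicator (fun x : ℝ => 1 / x) |t| := by
    funext t
    by_cases h : a ≤ |t| ∧ |t| ≤ b
    · rw [Set.indicator_of_mem (show t ∈ {t : ℝ | a ≤ |t| ∧ |t| ≤ b} from h),
        Set.indicator_of_mem (show |t| ∈ Set.Icc a b from h)]
    · rw [Set.indicator_of_notMem (show t ∉ {t : ℝ | a ≤ |t| ∧ |t| ≤ b} from h),
        Set.indicator_of_notMem (show |t| ∉ Set.Icc a b from h)]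
  rw [h1, integral_comp_abs, setIntegral_indicator measurableSet_Icc]
  have h2 : Set.Ioi (0 : ℝ) ∩ Set.Icc a b = Set.Icc a b := by
    ext x
    simp only [Set.mem_inter_iff, Set.mem_Ioi, Set.mem_Icc]
    constructor
    · exact fun h => h.2
    · exact fun h => ⟨by linarith [h.1], h⟩
  rw [h2, integral_Icc_eq_integral_Ioc, ← intervalIntegral.integral_of_le hab,
    integral_one_div_of_pos ha (by linarith)]

theorem bx_int (a b : ℝ) (ha : 0 < a) :
    IntegrableOn (fun t : ℝ => 1 / |t|) {t : ℝ | a ≤ |t| ∧ |t| ≤ b} := by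
  have hD : MeasurableSet {t : ℝ | a ≤ |t| ∧ |t| ≤ b} :=
    (isClosed_le continuous_const continuous_abs).measurableSet.inter
      (isClosed_le continuous_abs continuous_const).measurableSet
  have h1 : IntegrableOn (fun t : ℝ => 1 / max a |t|) (Set.Icc (-b) b) := by
    apply Continuous.integrableOn_Icc
    exact continuous_const.div (continuous_const.max continuous_abs)
      (fun t => (ha.trans_le (le_max_left _ _)).ne')
  have h2 : {t : ℝ | a ≤ |t| ∧ |t| ≤ b} ⊆ Set.Icc (-b) b := fun t ht => abs_le.1 ht.2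
  refine (h1.mono_set h2).congr_fun ?_ hD
  intro t ht
  show 1 / max a |t| = 1 / |t|
  rw [max_eq_right ht.1]

theorem bx_tail (A : ℝ) : ∃ X0 : ℝ, 1 ≤ X0 ∧ ∀ X : ℝ, X0 ≤ X → 28 ≤ Real.log X →
    (2 * Real.log X) ^ 6 * Real.exp (-(X ^ ((1 : ℝ) / 100) / 4)) * (4 * X ^ ((1 : ℝ) / 200)) ≤
      (Real.log X) ^ (-A) / 4 := by
  set B : ℝ := |A| with hB
  have hlim := tendsto_rpow_mul_exp_neg_mul_atTop_nhds_zero (7 + B) 1 one_pos
  set c : ℝ := 1 / (1024 * (200 : ℝ) ^ (6 + B)) with hc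
  have hc0 : 0 < c := by positivity
  have hev : ∀ᶠ x : ℝ in Filter.atTop, x ^ (7 + B) * Real.exp (-1 * x) < c :=
    hlim.eventually (gt_mem_nhds hc0)
  obtain ⟨Y0, hY0⟩ := Filter.eventually_atTop.1 hev
  refine ⟨(max Y0 4) ^ (200 : ℕ), one_le_pow₀ (le_trans (by norm_num) (le_max_right _ _)), ?_⟩
  intro X hX hL
  have hm4 : (4 : ℝ) ≤ max Y0 4 := le_max_right _ _
  have hm0 : (0 : ℝ) < max Y0 4 := by linarith
  have hX0 : 0 < X := (pow_pos hm0 200).trans_le hX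
  set Y : ℝ := X ^ ((1 : ℝ) / 200) with hY
  have hY0' : 0 < Y := by positivity
  have hYm : max Y0 4 ≤ Y := by
    have h1 : ((max Y0 4) ^ (200 : ℕ)) ^ ((1 : ℝ) / 200) ≤ X ^ ((1 : ℝ) / 200) :=
      Real.rpow_le_rpow (by positivity) hX (by norm_num)
    have h2 : ((1 : ℝ) / 200) = ((200 : ℕ) : ℝ)⁻¹ := by norm_num
    rw [h2, Real.pow_rpow_inv_natCast hm0.le (by norm_num), ← h2] at h1
    exact h1
  have hY4 : 4 ≤ Y := hm4.trans hYm
  have hY1 : Y0 ≤ Y := (le_max_left _ _).trans hYm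
  have hX2 : X ^ ((1 : ℝ) / 100) = Y ^ 2 := by
    rw [hY, ← Real.rpow_natCast, ← Real.rpow_mul hX0.le]
    norm_num
  have hLY : Real.log X ≤ 200 * Y := by
    have h1 : Real.log Y = 1 / 200 * Real.log X := by
      rw [hY, Real.log_rpow hX0]
    have h2 := Real.log_le_self hY0'.le
    linarith
  have hL0 : 0 < Real.log X := by linarith
  have hL1 : 1 ≤ Real.log X := by linarith
  have h3 := hY0 Y hY1
  -- log X ^ (-A) >= log X ^ (-B)
  have h4 : (Real.log X) ^ (-B) ≤ (Real.log X) ^ (-A) :=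
    Real.rpow_le_rpow_of_exponent_le hL1 (neg_le_neg (le_abs_self A))
  have h5 : (Real.log X) ^ 6 * (Real.log X) ^ B ≤ (200 * Y) ^ (6 + B) := by
    have e1 : (Real.log X) ^ 6 * (Real.log X) ^ B = (Real.log X) ^ (6 + B) := by
      rw [Real.rpow_add hL0]
      congr 1
      rw [← Real.rpow_natCast]
      norm_num
    rw [e1]
    exact Real.rpow_le_rpow hL0.le hLY (by positivity)
  have h6 : (200 * Y) ^ (6 + B) * Y = (200 : ℝ) ^ (6 + B) * Y ^ (7 + B) := by
    rw [Real.mul_rpow (by norm_num) hY0'.le, mul_assoc, show (7 + B) = (6 + B) + 1 by ring,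
      Real.rpow_add hY0' (6 + B) 1, Real.rpow_one]
  have h7 : Real.exp (-(Y ^ 2 / 4)) ≤ Real.exp (-1 * Y) := Real.exp_le_exp.2 (by nlinarith)
  have hBpos : 0 < (Real.log X) ^ B := by positivity
  have h8 : (2 * Real.log X) ^ 6 * Real.exp (-(Y ^ 2 / 4)) * (4 * Y) * (Real.log X) ^ B ≤ 1 / 4 := by
    calc (2 * Real.log X) ^ 6 * Real.exp (-(Y ^ 2 / 4)) * (4 * Y) * (Real.log X) ^ B
        = 256 * ((Real.log X) ^ 6 * (Real.log X) ^ B) * Y * Real.exp (-(Y ^ 2 / 4)) := by ring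
      _ ≤ 256 * ((200 * Y) ^ (6 + B)) * Y * Real.exp (-1 * Y) := by gcongr
      _ = 256 * (200 : ℝ) ^ (6 + B) * (Y ^ (7 + B) * Real.exp (-1 * Y)) := by
          rw [mul_assoc 256 _ Y, h6]
          ring
      _ ≤ 256 * (200 : ℝ) ^ (6 + B) * c := by
          apply mul_le_mul_of_nonneg_left h3.le (by positivity)
      _ = 1 / 4 := by
          rw [hc]
          field_simp
          norm_num
  rw [hX2]
  have h9 : (2 * Real.log X) ^ 6 * Real.exp (-(Y ^ 2 / 4)) * (4 * Y) ≤ (Real.log X) ^ (-B) / 4 := by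
    rw [Real.rpow_neg hL0.le, ← one_div, div_div, le_div_iff₀ (by positivity)]
    linarith
  linarith

/-- Proof. `gau` with `f = bf c1 e`; the finite sum is `bp c1 e t` (`bf_poly`, `bf_supp` in `Poly`: the support is in
`n <= 2^(Σ e) <= N`). Let `A0` be the maximum of the numbers `A1` of `lo1 (A+3)` and `lo2 (A+3)`, `T0 = (log X)^A0`, `T = X^(1/100)`,
`A1 = 2 A0 + A + 10`. Everywhere `‖bp‖ <= (2 log X + 20)^6` (`pw_triv`). `|t| <= T0`: `min <= δ1^2 t^2`, the integral is at most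
`2 T0^3 δ1^2 (2 log X + 20)^6`. `|t| >= T`: `δ^2 t^2 >= X^(-1/100) T |t|`, exponentially small. `T0 <= |t| <= T`: `min <= 1`;
if some smooth `i` has `2^(e i) >= X^(1/12)`, then by `¬ Sh X i e` there is `j` as in `lo1`, and `∫ 1/|t| <= 2 log X`;
otherwise `lo2`. -/
theorem box (A : ℝ) (hA : 0 < A) : ∃ A1 X0 : ℝ, 1 ≤ A1 ∧ 10 ≤ X0 ∧ ∀ X : ℝ, X0 ≤ X →
    ∀ e : Fin 6 → ℕ, X ≤ 4 * 2 ^ (∑ i, e i) → (2 : ℝ) ^ (∑ i, e i) ≤ 2 ^ 13 * X →
    (∀ i : Fin 6, (i : ℕ) < 3 → (2 : ℝ) ^ (e i) ≤ 8 * X ^ ((1 : ℝ) / 3)) →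
    (∀ i : Fin 6, 3 ≤ (i : ℕ) → ¬ Sh X i e) →
    ∀ (N : ℕ) (δ y : ℝ), 2 ^ (∑ i, e i) ≤ N → X ^ (-(1 : ℝ) / 200) ≤ δ → δ ≤ (Real.log X) ^ (-A1) →
    ‖G (bf c1 e) N δ y - G (bf c1 e) N ((Real.log X) ^ (-A1)) y‖ ≤ (Real.log X) ^ (-A) := by
  obtain ⟨A1', X1, hA1', hX1, hlo1⟩ := lo1 (A + 3) (by linarith)
  obtain ⟨A2', X2, hA2', hX2, hlo2⟩ := lo2 (A + 3) (by linarith)
  obtain ⟨X3, hX3, htail⟩ := bx_tail A
  set A0 : ℝ := max A1' A2' with hA0def
  have hA0 : 0 < A0 := hA1'.trans_le (le_max_left _ _)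
  refine ⟨2 * A0 + A + 10, max X1 (max X2 (max X3 (Real.exp 400))), by linarith,
    hX1.trans (le_max_left _ _), ?_⟩
  intro X hX e hS1 hS2 he1 hsh N δ y hN hδ1 hδ2
  have hXX1 : X1 ≤ X := (le_max_left _ _).trans hX
  have hXX2 : X2 ≤ X := ((le_max_left _ _).trans (le_max_right _ _)).trans hX
  have hXX3 : X3 ≤ X :=
    (((le_max_left _ _).trans (le_max_right _ _)).trans (le_max_right _ _)).trans hX
  have hXX4 : Real.exp 400 ≤ X :=
    (((le_max_right _ _).trans (le_max_right _ _)).trans (le_max_right _ _)).trans hX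
  have hX0 : 0 < X := (Real.exp_pos _).trans_le hXX4
  set L := Real.log X with hL
  have hL400 : 400 ≤ L := (Real.le_log_iff_exp_le hX0).2 hXX4
  have hL28 : 28 ≤ L := by linarith
  have hL1 : 1 ≤ L := by linarith
  have hL0 : 0 < L := by linarith
  have hδ0 : 0 < δ := lt_of_lt_of_le (by positivity) hδ1
  set δ1 : ℝ := L ^ (-(2 * A0 + A + 10)) with hδ1def
  have hδ10 : 0 < δ1 := by positivity
  set T0 : ℝ := L ^ A0 with hT0
  have hT00 : 0 < T0 := by positivity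
  have hT01 : 1 ≤ T0 := Real.one_le_rpow hL1 hA0.le
  set T : ℝ := X ^ ((1 : ℝ) / 100) with hT
  have hT1 : 0 < T := by positivity
  set K : ℝ := (2 * L) ^ 6 with hK
  have hK0 : 0 ≤ K := by positivity
  have hbp : ∀ t, ‖bp c1 e t‖ ≤ K := bx_bp X hX0 hL28 e hS2
  have hbc := bx_cont e
  set D : Set ℝ := {t : ℝ | T0 ≤ |t| ∧ |t| ≤ T} with hD
  have hDm : MeasurableSet D :=
    (isClosed_le continuous_const continuous_abs).measurableSet.inter
      (isClosed_le continuous_abs continuous_const).measurableSet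
  have hbint : ∀ a b : ℝ, IntegrableOn (fun t => ‖bp c1 e t‖) {t : ℝ | a ≤ |t| ∧ |t| ≤ b} := by
    intro a b
    have h1 : IntegrableOn (fun t => ‖bp c1 e t‖) (Set.Icc (-b) b) :=
      hbc.norm.integrableOn_Icc
    exact h1.mono_set fun t ht => abs_le.1 ht.2
  have hLA3 : 0 < L ^ (-(A + 3)) := by positivity
  -- the middle part
  have hmid : ∫ t in D, ‖bp c1 e t‖ ≤ L ^ (-(A + 3)) * (2 * L) := by
    by_cases hbig : ∃ i : Fin 6, 3 ≤ (i : ℕ) ∧ X ^ ((1 : ℝ) / 12) ≤ 2 ^ (e i)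
    · obtain ⟨i, hi, hei⟩ := hbig
      have h1 := hsh i hi
      unfold Sh at h1
      push Not at h1
      obtain ⟨j, hji, hej⟩ := h1
      have h2 : ∀ t ∈ D, ‖bp c1 e t‖ ≤ L ^ (-(A + 3)) * (1 / |t|) := by
        intro t ht
        have h3 : L ^ A1' ≤ |t| :=
          (Real.rpow_le_rpow_of_exponent_le hL1 (le_max_left _ _)).trans ht.1
        have h4 := hlo1 X hXX1 e hS2 i j hi hji hei hej t h3 ht.2
        rwa [mul_one_div]
      rcases le_or_gt T0 T with hTT | hTT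
      · have h5 : ∫ t in D, ‖bp c1 e t‖ ≤ ∫ t in D, L ^ (-(A + 3)) * (1 / |t|) :=
          setIntegral_mono_on (hbint T0 T) ((bx_int T0 T hT00).const_mul _) hDm h2
        rw [integral_const_mul, bx_log T0 T hT00 hTT] at h5
        refine h5.trans ?_
        apply mul_le_mul_of_nonneg_left _ hLA3.le
        have h6 : Real.log (T / T0) ≤ L := by
          rw [Real.log_div hT1.ne' hT00.ne', hT, Real.log_rpow hX0]
          have := Real.log_nonneg hT01
          linarith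
        linarith
      · have h5 : D = ∅ := by
          rw [Set.eq_empty_iff_forall_notMem]
          intro t ht
          have h6 := ht.1
          have h7 := ht.2
          linarith
        rw [h5, Measure.restrict_empty, integral_zero_measure]
        positivity
    · push Not at hbig
      have h1 := hlo2 X hXX2 e hS1 hS2 he1 hbig
      have h2 : ∫ t in D, ‖bp c1 e t‖ ≤
          ∫ t in {t : ℝ | L ^ A2' ≤ |t| ∧ |t| ≤ X ^ ((1 : ℝ) / 100)}, ‖bp c1 e t‖ := by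
        apply setIntegral_mono_set (hbint _ _)
        · exact Filter.Eventually.of_forall fun t => norm_nonneg _
        · refine Filter.Eventually.of_forall fun t => ?_
          intro ht
          exact ⟨(Real.rpow_le_rpow_of_exponent_le hL1 (le_max_right _ _)).trans ht.1, ht.2⟩
      refine (h2.trans h1).trans ?_
      exact le_mul_of_one_le_right hLA3.le (by linarith)
  -- the three pieces
  set g1 : ℝ → ℝ := (Set.Icc (-T0) T0).indicator (fun _ => K * (δ1 ^ 2 * T0 ^ 2)) with hg1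
  set g2 : ℝ → ℝ := D.indicator (fun t => ‖bp c1 e t‖) with hg2
  set g3 : ℝ → ℝ := fun t => K * Real.exp (-(X ^ ((1 : ℝ) / 100) / 4)) *
    Real.exp (-(δ ^ 2 / 4) * t ^ 2) with hg3
  have hg1n : ∀ t, 0 ≤ g1 t := fun t => Set.indicator_nonneg (fun _ _ => by positivity) t
  have hg2n : ∀ t, 0 ≤ g2 t := fun t => Set.indicator_nonneg (fun _ _ => norm_nonneg _) t
  have hg3n : ∀ t, 0 ≤ g3 t := fun t => by
    show 0 ≤ K * Real.exp (-(X ^ ((1 : ℝ) / 100) / 4)) * Real.exp (-(δ ^ 2 / 4) * t ^ 2)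
    positivity
  have hi1 : Integrable g1 := by
    rw [hg1, integrable_indicator_iff measurableSet_Icc]
    exact (continuous_const : Continuous fun _ : ℝ => K * (δ1 ^ 2 * T0 ^ 2)).integrableOn_Icc
  have hi2 : Integrable g2 := by
    rw [hg2, integrable_indicator_iff hDm]
    exact hbint _ _
  have hi3 : Integrable g3 :=
    (integrable_exp_neg_mul_sq (b := δ ^ 2 / 4) (by positivity)).const_mul _
  have hpt : ∀ t : ℝ, ‖∑ n ∈ Icc 1 N, bf c1 e n * (n : ℂ) ^ (-(1 + (t : ℂ) * Complex.I))‖ *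
      min (δ1 ^ 2 * t ^ 2) (Real.exp (-(δ ^ 2 * t ^ 2 / 2))) ≤ g1 t + g2 t + g3 t := by
    intro t
    rw [bx_sum e N hN t]
    have hmin1 : min (δ1 ^ 2 * t ^ 2) (Real.exp (-(δ ^ 2 * t ^ 2 / 2))) ≤ δ1 ^ 2 * t ^ 2 :=
      min_le_left _ _
    have hmin2 : min (δ1 ^ 2 * t ^ 2) (Real.exp (-(δ ^ 2 * t ^ 2 / 2))) ≤
        Real.exp (-(δ ^ 2 * t ^ 2 / 2)) := min_le_right _ _
    have hmin0 : 0 ≤ min (δ1 ^ 2 * t ^ 2) (Real.exp (-(δ ^ 2 * t ^ 2 / 2))) :=
      le_min (by positivity) (Real.exp_pos _).le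
    rcases le_or_gt |t| T0 with h1 | h1
    · have h2 : g1 t = K * (δ1 ^ 2 * T0 ^ 2) := by
        rw [hg1, Set.indicator_of_mem (show t ∈ Set.Icc (-T0) T0 from abs_le.1 h1)]
      have h3 : ‖bp c1 e t‖ * min (δ1 ^ 2 * t ^ 2) (Real.exp (-(δ ^ 2 * t ^ 2 / 2))) ≤
          K * (δ1 ^ 2 * T0 ^ 2) := by
        apply mul_le_mul (hbp t) _ hmin0 hK0
        refine hmin1.trans ?_
        apply mul_le_mul_of_nonneg_left _ (by positivity)
        rw [← sq_abs t]
        exact pow_le_pow_left₀ (abs_nonneg t) h1 2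
      have := hg2n t
      have := hg3n t
      linarith
    · rcases le_or_gt |t| T with h2 | h2
      · have h3 : g2 t = ‖bp c1 e t‖ := by
          rw [hg2, Set.indicator_of_mem (show t ∈ D from ⟨h1.le, h2⟩)]
        have h4 : Real.exp (-(δ ^ 2 * t ^ 2 / 2)) ≤ 1 := by
          rw [Real.exp_le_one_iff]
          have : 0 ≤ δ ^ 2 * t ^ 2 / 2 := by positivity
          linarith
        have h5 : ‖bp c1 e t‖ * min (δ1 ^ 2 * t ^ 2) (Real.exp (-(δ ^ 2 * t ^ 2 / 2))) ≤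
            ‖bp c1 e t‖ * 1 := mul_le_mul_of_nonneg_left (hmin2.trans h4) (norm_nonneg _)
        have := hg1n t
        have := hg3n t
        linarith
      · have h3 : Real.exp (-(δ ^ 2 * t ^ 2 / 2)) ≤ Real.exp (-(X ^ ((1 : ℝ) / 100) / 4)) *
            Real.exp (-(δ ^ 2 / 4) * t ^ 2) := by
          rw [← Real.exp_add]
          apply Real.exp_le_exp.2
          have h4 : X ^ ((1 : ℝ) / 100) ≤ δ ^ 2 * t ^ 2 := by
            have e1 : X ^ (-(1 : ℝ) / 200) * X ^ ((1 : ℝ) / 100) = X ^ ((1 : ℝ) / 200) := by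
              rw [← Real.rpow_add hX0]
              norm_num
            have e2 : X ^ ((1 : ℝ) / 200) ≤ δ * |t| := by
              rw [← e1]
              exact mul_le_mul hδ1 h2.le (by positivity) hδ0.le
            have e3 : X ^ ((1 : ℝ) / 100) = (X ^ ((1 : ℝ) / 200)) ^ 2 := by
              rw [← Real.rpow_natCast, ← Real.rpow_mul hX0.le]
              norm_num
            rw [e3, ← sq_abs t, ← mul_pow]
            exact pow_le_pow_left₀ (by positivity) e2 2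
          linarith
        have h5 : ‖bp c1 e t‖ * min (δ1 ^ 2 * t ^ 2) (Real.exp (-(δ ^ 2 * t ^ 2 / 2))) ≤
            K * (Real.exp (-(X ^ ((1 : ℝ) / 100) / 4)) * Real.exp (-(δ ^ 2 / 4) * t ^ 2)) :=
          mul_le_mul (hbp t) (hmin2.trans h3) hmin0 hK0
        have h6 : g3 t = K * Real.exp (-(X ^ ((1 : ℝ) / 100) / 4)) *
          Real.exp (-(δ ^ 2 / 4) * t ^ 2) := rfl
        have := hg1n t
        have := hg2n t
        linarith
  have hnn : ∀ t : ℝ, 0 ≤ ‖∑ n ∈ Icc 1 N, bf c1 e n * (n : ℂ) ^ (-(1 + (t : ℂ) * Complex.I))‖ *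
      min (δ1 ^ 2 * t ^ 2) (Real.exp (-(δ ^ 2 * t ^ 2 / 2))) := fun t =>
    mul_nonneg (norm_nonneg _) (le_min (by positivity) (Real.exp_pos _).le)
  have hgau := gau (bf c1 e) N δ δ1 y hδ0 hδ2
  have hI := integral_mono_of_nonneg (μ := volume) (Filter.Eventually.of_forall hnn)
    ((hi1.add hi2).add hi3) (Filter.Eventually.of_forall hpt)
  have hsplit : ∫ t, ((g1 + g2) + g3) t = (∫ t, g1 t) + (∫ t, g2 t) + ∫ t, g3 t := by
    have e1 : ∫ t, ((g1 + g2) + g3) t = (∫ t, (g1 + g2) t) + ∫ t, g3 t :=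
      integral_add (hi1.add hi2) hi3
    have e2 : ∫ t, (g1 + g2) t = (∫ t, g1 t) + ∫ t, g2 t := integral_add hi1 hi2
    rw [e1, e2]
  have hI' : ∫ t : ℝ, ‖∑ n ∈ Icc 1 N, bf c1 e n * (n : ℂ) ^ (-(1 + (t : ℂ) * Complex.I))‖ *
      min (δ1 ^ 2 * t ^ 2) (Real.exp (-(δ ^ 2 * t ^ 2 / 2))) ≤
      (∫ t, g1 t) + (∫ t, g2 t) + ∫ t, g3 t := by
    rw [← hsplit]
    exact hI
  -- values
  have hv1 : ∫ t, g1 t = K * (δ1 ^ 2 * T0 ^ 2) * (2 * T0) := by
    rw [hg1, integral_indicator measurableSet_Icc, setIntegral_const, Real.volume_real_Icc_of_le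
      (by linarith), smul_eq_mul]
    ring
  have hv2 : ∫ t, g2 t ≤ L ^ (-(A + 3)) * (2 * L) := by
    rw [hg2, integral_indicator hDm]
    exact hmid
  have hv3 : ∫ t, g3 t ≤ K * Real.exp (-(X ^ ((1 : ℝ) / 100) / 4)) * (4 * X ^ ((1 : ℝ) / 200)) := by
    have e1 : ∫ t, g3 t = K * Real.exp (-(X ^ ((1 : ℝ) / 100) / 4)) *
        Real.sqrt (Real.pi / (δ ^ 2 / 4)) := by
      rw [hg3, integral_const_mul, integral_gaussian]
    rw [e1]
    apply mul_le_mul_of_nonneg_left _ (by positivity)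
    have e2 : Real.pi / (δ ^ 2 / 4) ≤ (4 / δ) ^ 2 := by
      rw [div_pow, div_le_div_iff₀ (by positivity) (by positivity)]
      have := Real.pi_lt_d2
      nlinarith [sq_nonneg δ, mul_pos hδ0 hδ0]
    have e3 : Real.sqrt (Real.pi / (δ ^ 2 / 4)) ≤ 4 / δ := by
      rw [Real.sqrt_le_left (by positivity)]
      exact e2
    refine e3.trans ?_
    have e4 : 1 / δ ≤ X ^ ((1 : ℝ) / 200) := by
      rw [div_le_iff₀ hδ0]
      calc (1 : ℝ) = X ^ ((1 : ℝ) / 200) * X ^ (-(1 : ℝ) / 200) := by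
            rw [← Real.rpow_add hX0]
            norm_num
        _ ≤ X ^ ((1 : ℝ) / 200) * δ := mul_le_mul_of_nonneg_left hδ1 (by positivity)
    calc 4 / δ = 4 * (1 / δ) := by ring
      _ ≤ 4 * X ^ ((1 : ℝ) / 200) := by linarith
  -- sizes
  have hLA : 0 < L ^ (-A) := by positivity
  have hw1 : K * (δ1 ^ 2 * T0 ^ 2) * (2 * T0) ≤ L ^ (-A) / 4 := by
    have e1 : K * (δ1 ^ 2 * T0 ^ 2) * (2 * T0) = 128 * (L ^ 6 * (δ1 ^ 2 * T0 ^ 3)) := by
      rw [hK]
      ring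
    have e2 : L ^ 6 * (δ1 ^ 2 * T0 ^ 3) = L ^ (-A) * L ^ (-(A0 + A + 14)) := by
      have f1 : L ^ 6 = L ^ (6 : ℝ) := by
        rw [← Real.rpow_natCast]
        norm_num
      have f2 : δ1 ^ 2 = L ^ (-(2 * A0 + A + 10) * 2) := by
        rw [hδ1def, ← Real.rpow_natCast, ← Real.rpow_mul hL0.le]
        norm_num
      have f3 : T0 ^ 3 = L ^ (A0 * 3) := by
        rw [hT0, ← Real.rpow_natCast, ← Real.rpow_mul hL0.le]
        norm_num
      rw [f1, f2, f3, ← Real.rpow_add hL0, ← Real.rpow_add hL0, ← Real.rpow_add hL0]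
      congr 1
      ring
    have e3 : L ^ (-(A0 + A + 14)) ≤ 1 / 512 := by
      calc L ^ (-(A0 + A + 14)) ≤ L ^ (-2 : ℝ) :=
            Real.rpow_le_rpow_of_exponent_le hL1 (by linarith)
        _ = 1 / L ^ 2 := by
            rw [Real.rpow_neg hL0.le, one_div]
            congr 1
            rw [← Real.rpow_natCast]
            norm_num
        _ ≤ 1 / 512 := by
            apply one_div_le_one_div_of_le (by norm_num)
            nlinarith
    rw [e1, e2]
    nlinarith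
  have hw2 : L ^ (-(A + 3)) * (2 * L) ≤ L ^ (-A) / 4 := by
    have e1 : L ^ (-(A + 3)) * (2 * L) = 2 * (L ^ (-A) * L ^ (-2 : ℝ)) := by
      have f1 : L ^ (-(A + 3)) * L = L ^ (-A) * L ^ (-2 : ℝ) := by
        have f2 : L ^ (-(A + 3)) * L = L ^ (-(A + 3)) * L ^ (1 : ℝ) := by rw [Real.rpow_one]
        rw [f2, ← Real.rpow_add hL0, ← Real.rpow_add hL0]
        congr 1
        ring
      rw [← f1]
      ring
    have e2 : L ^ (-2 : ℝ) ≤ 1 / 8 := by
      calc L ^ (-2 : ℝ) = 1 / L ^ 2 := by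
            rw [Real.rpow_neg hL0.le, one_div]
            congr 1
            rw [← Real.rpow_natCast]
            norm_num
        _ ≤ 1 / 8 := by
            apply one_div_le_one_div_of_le (by norm_num)
            nlinarith
    rw [e1]
    nlinarith
  have hw3 := htail X hXX3 hL28
  have hfin := hgau.trans hI'
  refine hfin.trans ?_
  rw [hv1]
  have hw3' : K * Real.exp (-(X ^ ((1 : ℝ) / 100) / 4)) * (4 * X ^ ((1 : ℝ) / 200)) ≤
      L ^ (-A) / 4 := hw3
  linarith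

end Pool.Agent.H42.HO
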