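import Pool.Agent.H42.HO.Defs
import Pool.Agent.H43.SI.Mvp

/-!
# H42 HO, Dec: the decomposition of `Λ`
-/

set_option autoImplicit false

namespace Pool.Agent.H42.HO

open Finset Pool.Agent.H43.SI

theorem yl_small : ∃ X0 : ℝ, 10 ≤ X0 ∧ ∀ X : ℝ, X0 ≤ X → 1 < Yl X ∧ 4 * Yl X ^ 6 < X := by
  have h1 : ∀ᶠ L : ℝ in Filter.atTop, L ^ (-(0.02 : ℝ)) < 1 / 12 :=
    (tendsto_rpow_neg_atTop (by norm_num)).eventually_lt_const (by norm_num)
  have h2 : ∀ᶠ L : ℝ in Filter.atTop, 2 + 6 * L ^ (0.98 : ℝ) < L := by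
    filter_upwards [h1, Filter.eventually_gt_atTop 4] with L hL hL4
    have h3 : L ^ (0.98 : ℝ) = L * L ^ (-(0.02 : ℝ)) := by
      have h4 : L * L ^ (-(0.02 : ℝ)) = L ^ (1 : ℝ) * L ^ (-(0.02 : ℝ)) := by rw [Real.rpow_one]
      rw [h4, ← Real.rpow_add (by linarith)]
      norm_num
    rw [h3]
    nlinarith
  have h3 := Real.tendsto_log_atTop.eventually h2
  obtain ⟨X1, hX1⟩ := Filter.eventually_atTop.mp h3
  refine ⟨max X1 10, le_max_right _ _, ?_⟩
  intro X hX
  have hX1' := hX1 X ((le_max_left _ _).trans hX)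
  have hX10 : (10 : ℝ) ≤ X := (le_max_right _ _).trans hX
  have hlog : 0 < Real.log X := Real.log_pos (by linarith)
  constructor
  · unfold Yl
    rw [← Real.exp_zero]
    exact Real.exp_lt_exp.mpr (Real.rpow_pos_of_pos hlog _)
  · unfold Yl
    rw [← Real.exp_nat_mul]
    have h4 : (4 : ℝ) < Real.exp 2 := by
      have h5 := Real.exp_one_gt_d9
      have h6 : Real.exp 2 = Real.exp 1 * Real.exp 1 := by
        rw [← Real.exp_add]
        norm_num
      rw [h6]
      nlinarith
    calc 4 * Real.exp (((6 : ℕ) : ℝ) * Real.log X ^ (0.98 : ℝ))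
        < Real.exp 2 * Real.exp (((6 : ℕ) : ℝ) * Real.log X ^ (0.98 : ℝ)) := by
          exact mul_lt_mul_of_pos_right h4 (Real.exp_pos _)
      _ = Real.exp (2 + 6 * Real.log X ^ (0.98 : ℝ)) := by
          rw [← Real.exp_add]
          push_cast
          rfl
      _ < Real.exp (Real.log X) := Real.exp_lt_exp.mpr hX1'
      _ = X := Real.exp_log (by linarith)

/-- not all factors are short -/
theorem not_all_short (X : ℝ) (hX : 4 * Yl X ^ 6 < X) (e : Fin 6 → ℕ) (hQ : Qm X e)
    (h : ∀ k, (2 : ℝ) ^ (e k) < Yl X) : False := by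
  have h1 : (2 : ℝ) ^ (∑ i, e i) ≤ Yl X ^ 6 := by
    rw [← Finset.prod_pow_eq_pow_sum]
    calc ∏ i, (2 : ℝ) ^ (e i) ≤ ∏ _i : Fin 6, Yl X :=
          Finset.prod_le_prod (fun i _ => by positivity) (fun i _ => (h i).le)
      _ = Yl X ^ 6 := by simp
  have h2 := hQ.1
  linarith

theorem wt_update (e : Fin 6 → ℕ) (i : Fin 6) (hi : 3 ≤ (i : ℕ)) (he : e i ≠ 0) :
    wt (Function.update e i 1) = wt e := by
  have h1 : ∀ k : Fin 6, (Function.update e i 1 k = 0) ↔ (e k = 0) := by
    intro k
    by_cases hk : k = i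
    · subst hk
      rw [Function.update_self]
      simp [he]
    · rw [Function.update_of_ne hk]
  unfold wt
  simp only [h1]

/-- Proof. `hb` with `B = 3 b + 10` (`n <= 16 X <= 2^(3b)`). If `bf c1 e n ≠ 0` then `n <= 2^S` and `2^S <= 64 n` (`mvp_supp`, `S = Σ e`), so
`Qm X e`. Two different `i, j` with `Sh X i e`, `Sh X j e` give `2^S < Yl X ^ 6 < X/4`: excluded by `Qm`. Hence the sum over the boxes
is the sum over `Qm` without `Sh`, plus for each `i` in `{3,4,5}` the sum over `Qm` with `Sh X i e`; these `e` are `update e' i a` with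
`e' i = 0` (`e' = update e i 0`), `a <= 3b+10`, `a >= 1` by `Qm`, and then `wt (update e' i a) = wt (update e' i 1)` (`wt` depends only on which
of `e 1, e 2, e 4, e 5` vanish; `i = 3` does not occur in it). The terms of `F1` with other `a` vanish at `n`. -/
theorem dec : ∃ X0 : ℝ, 10 ≤ X0 ∧ ∀ X : ℝ, X0 ≤ X → ∀ b n : ℕ, 16 * X ≤ 2 ^ (3 * b) →
    (2 : ℝ) ^ (3 * b) ≤ 128 * X → X ≤ 4 * n → (n : ℝ) ≤ 16 * X →
    ((ArithmeticFunction.vonMangoldt n : ℝ) : ℂ) = F1 X b n := by
  classical
  obtain ⟨X0, hX0, hY⟩ := yl_small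
  refine ⟨X0, hX0, ?_⟩
  intro X hX b n hb1 hb2 hn1 hn2
  obtain ⟨hY1, hY6⟩ := hY X hX
  have hX10 : (10 : ℝ) ≤ X := hX0.trans hX
  have hn0 : 1 ≤ n := by
    have : (0 : ℝ) < n := by linarith
    exact_mod_cast this
  have hn3b : n ≤ 2 ^ (3 * b) := by exact_mod_cast hn2.trans hb1
  have hnB : n ≤ 2 ^ (3 * b + 10) := hn3b.trans (Nat.pow_le_pow_right (by norm_num) (by omega))
  have hHB := hb c1 b (3 * b + 10) n hn0 hn3b hnB
  have hc1 : c1 (n : ZMod 1) = 1 := by
    rw [Subsingleton.elim (n : ZMod 1) 1]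
    simp
  rw [hc1, mul_one] at hHB
  rw [hHB]
  have hall : ∀ i : Fin 6, 3 ≤ (i : ℕ) → i ∈ ({3, 4, 5} : Finset (Fin 6)) := by decide
  -- the pointwise identity
  have hQm : ∀ e : Fin 6 → ℕ, bf c1 e n ≠ 0 → Qm X e := by
    intro e he
    have h1 : (∏ i ∈ (Finset.univ : Finset (Fin 6)), af (cf c1 i) (e i)) n ≠ 0 := by
      rw [Fin.prod_univ_six]
      exact he
    obtain ⟨-, h2, h3⟩ := mvp_supp c1 e Finset.univ n h1
    rw [Finset.card_univ, Fintype.card_fin] at h3
    have h2' : (n : ℝ) ≤ 2 ^ (∑ i, e i) := by exact_mod_cast h2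
    have h3' : (2 : ℝ) ^ (∑ i, e i) ≤ 2 ^ 6 * n := by exact_mod_cast h3
    refine ⟨by linarith, ?_⟩
    refine h3'.trans ?_
    norm_num
    linarith
  have hpt : ∀ e : Fin 6 → ℕ, wt e * bf c1 e n =
      (if (Qm X e ∧ ∀ i : Fin 6, 3 ≤ (i : ℕ) → ¬ Sh X i e) then wt e * bf c1 e n else 0) +
      ∑ i ∈ ({3, 4, 5} : Finset (Fin 6)),
        (if Sh X i e then wt (Function.update e i 1) * bf c1 e n else 0) := by
    intro e
    by_cases h0 : bf c1 e n = 0
    · rw [h0]
      simp
    have hQ := hQm e h0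
    by_cases h1 : ∀ i : Fin 6, 3 ≤ (i : ℕ) → ¬ Sh X i e
    · rw [if_pos ⟨hQ, h1⟩]
      have h2 : ∀ i ∈ ({3, 4, 5} : Finset (Fin 6)),
          (if Sh X i e then wt (Function.update e i 1) * bf c1 e n else 0) = 0 := by
        intro i hi
        rw [if_neg]
        refine h1 i ?_
        fin_cases hi <;> decide
      rw [Finset.sum_eq_zero h2, add_zero]
    · rw [if_neg (fun h => h1 h.2), zero_add]
      push Not at h1
      obtain ⟨i, hi3, hi⟩ := h1
      have himem : i ∈ ({3, 4, 5} : Finset (Fin 6)) := hall i hi3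
      have huniq : ∀ j : Fin 6, j ≠ i → ¬ Sh X j e := by
        intro j hj hSj
        refine not_all_short X hY6 e hQ fun k => ?_
        by_cases hk : k = i
        · subst hk
          exact hSj k (Ne.symm hj)
        · exact hi k hk
      rw [Finset.sum_eq_single_of_mem i himem (fun j _ hj => if_neg (huniq j hj)), if_pos hi]
      have hei : e i ≠ 0 := by
        intro h0'
        refine not_all_short X hY6 e hQ fun k => ?_
        by_cases hk : k = i
        · subst hk
          rw [h0', pow_zero]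
          exact hY1
        · exact hi k hk
      rw [wt_update e i hi3 hei]
  rw [Finset.sum_congr rfl (fun e _ => hpt e), Finset.sum_add_distrib]
  unfold F1
  congr 1
  · rw [Finset.sum_filter]
  · rw [Finset.sum_comm]
    refine Finset.sum_congr rfl fun i hi => ?_
    have hi3 : 3 ≤ (i : ℕ) := by fin_cases hi <;> decide
    rw [← Finset.sum_filter]
    -- the bijection
    have hR : ∀ e ∈ (boxes b (3 * b + 10)).filter (fun e => e i = 0 ∧ Sh X i e),
        wt (Function.update e i 1) * ∑ a ∈ range (3 * b + 11), bf c1 (Function.update e i a) n =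
        ∑ a ∈ range (3 * b + 11), wt (Function.update (Function.update e i a) i 1) *
          bf c1 (Function.update e i a) n := by
      intro e _
      rw [Finset.mul_sum]
      refine Finset.sum_congr rfl fun a _ => ?_
      rw [Function.update_idem]
    rw [Finset.sum_congr rfl hR, ← Finset.sum_product']
    symm
    refine Finset.sum_nbij' (fun p => Function.update p.1 i p.2) (fun e => (Function.update e i 0, e i))
      ?_ ?_ ?_ ?_ ?_
    · rintro ⟨e, a⟩ hp
      simp only [Finset.mem_product, Finset.mem_filter, Finset.mem_range] at hp ⊢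
      obtain ⟨⟨hbox, he0, hSh⟩, ha⟩ := hp
      refine ⟨?_, ?_⟩
      · unfold boxes at hbox ⊢
        rw [Fintype.mem_piFinset] at hbox ⊢
        intro k
        by_cases hk : k = i
        · subst hk
          rw [Function.update_self, if_neg (by omega), Finset.mem_range]
          omega
        · rw [Function.update_of_ne hk]
          exact hbox k
      · intro k hk
        rw [Function.update_of_ne hk]
        exact hSh k hk
    · intro e he
      simp only [Finset.mem_product, Finset.mem_filter, Finset.mem_range] at he ⊢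
      obtain ⟨hbox, hSh⟩ := he
      unfold boxes at hbox ⊢
      rw [Fintype.mem_piFinset] at hbox
      refine ⟨⟨?_, Function.update_self i 0 e, ?_⟩, ?_⟩
      · rw [Fintype.mem_piFinset]
        intro k
        by_cases hk : k = i
        · subst hk
          rw [Function.update_self, if_neg (by omega), Finset.mem_range]
          omega
        · rw [Function.update_of_ne hk]
          exact hbox k
      · intro k hk
        rw [Function.update_of_ne hk]
        exact hSh k hk
      · have := hbox i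
        rw [if_neg (by omega), Finset.mem_range] at this
        omega
    · rintro ⟨e, a⟩ hp
      simp only [Finset.mem_product, Finset.mem_filter, Finset.mem_range] at hp
      obtain ⟨⟨hbox, he0, hSh⟩, ha⟩ := hp
      simp only [Function.update_idem, Function.update_self, Prod.mk.injEq, and_true]
      rw [← he0, Function.update_eq_self]
    · intro e he
      simp only [Function.update_idem, Function.update_eq_self]
    · rintro ⟨e, a⟩ hp
      rfl

end Pool.Agent.H42.HO
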