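import Pool.Agent.H43.SI.Hb

/-!
# H42 HO: primes in all intervals of length `x^(1-d)` (chapter H of WILD)

Route: think 2104. The boxes of H43/SI (`K = 3`, modulus 1), a Gaussian kernel, no zeros. `X` is large,
`X^(-1/200) <= δ <= (log X)^(-A1)`, `y` in `[log X, log X + 1]`.

* `Gau`: the difference of two Gaussian averages as an integral over the frequencies.
* `Smo`: one smooth factor is `O(log / |t|)`. `Lo1`, `Lo2`: the main estimate in the two cases.
* `Box`: the difference of the averages of one box function is small unless one smooth factor is long and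
  all others are short.
* `Tl`: the tail `|log n - y| >= 1` of the Gaussian. `Ti`: Gaussian averages of `1` and `log`.
* `Tp`: the boxes with one long smooth factor, summed over that factor.
* `Dec`: the decomposition of `Λ`. `Sum`: the difference of the averages of `Λ`. `Pnt`: the long average. `Fin`: primes between `B`-th powers.
-/

set_option autoImplicit false

namespace Pool.Agent.H42.HO

open Finset Pool.Agent.H43.SI

/-- the character modulo 1 -/
noncomputable abbrev c1 : DirichletCharacter ℂ 1 := 1

/-- the Gaussian density of width `δ` -/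
noncomputable def gs (δ v : ℝ) : ℝ :=
  Real.exp (-(v ^ 2 / (2 * δ ^ 2))) / (δ * Real.sqrt (2 * Real.pi))

/-- the smoothed logarithmic density of `f` (on `1 <= n <= N`) at `e^y` -/
noncomputable def G (f : ℕ → ℂ) (N : ℕ) (δ y : ℝ) : ℂ :=
  ∑ n ∈ Icc 1 N, f n / n * ((gs δ (Real.log n - y) : ℝ) : ℂ)

/-- the length above which `Pw` works -/
noncomputable def Yl (X : ℝ) : ℝ := Real.exp ((Real.log X) ^ (0.98 : ℝ))

/-- all factors except possibly the `i`-th are short -/
def Sh (X : ℝ) (i : Fin 6) (e : Fin 6 → ℕ) : Prop := ∀ j, j ≠ i → (2 : ℝ) ^ (e j) < Yl X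

/-- boxes of the right size -/
def Qm (X : ℝ) (e : Fin 6 → ℕ) : Prop :=
  X ≤ 4 * 2 ^ (∑ i, e i) ∧ (2 : ℝ) ^ (∑ i, e i) ≤ 2 ^ 13 * X

open Classical in
/-- the main part of Heath-Brown's identity: the boxes of the right size with at least two factors which are not short, and,
for a smooth `i`, the boxes whose factors are short except the `i`-th, summed over all values of the `i`-th exponent -/
noncomputable def F1 (X : ℝ) (b : ℕ) (n : ℕ) : ℂ :=
  ∑ e ∈ (boxes b (3 * b + 10)).filter (fun e => Qm X e ∧ ∀ i : Fin 6, 3 ≤ (i : ℕ) → ¬ Sh X i e),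
      wt e * bf c1 e n +
    ∑ i ∈ ({3, 4, 5} : Finset (Fin 6)),
      ∑ e ∈ (boxes b (3 * b + 10)).filter (fun e => e i = 0 ∧ Sh X i e),
        wt (Function.update e i 1) * ∑ a ∈ range (3 * b + 11), bf c1 (Function.update e i a) n

end Pool.Agent.H42.HO
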