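import Pool.Agent.H42.HO.Sum
import Pool.Agent.H4.WH.Pnt
import Pool.Agent.H11.WX.Fin
import Pool.Agent.H30.WD.Defs

/-!
# H42 HO, Fin: primes between consecutive `B`-th powers
-/

set_option autoImplicit false

namespace Pool.Agent.H42.HO

open Finset Pool.Agent.H30.WD

/-- the length `2^(3b)` -/
private theorem exb (X : ℝ) (hX : 10 ≤ X) :
    ∃ b : ℕ, 16 * X ≤ 2 ^ (3 * b) ∧ (2 : ℝ) ^ (3 * b) ≤ 128 * X := by
  have h : ∃ b : ℕ, 16 * X ≤ (2 : ℝ) ^ (3 * b) := by
    obtain ⟨n, hn⟩ := pow_unbounded_of_one_lt (16 * X) (by norm_num : (1 : ℝ) < 2)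
    exact ⟨n, hn.le.trans (pow_le_pow_right₀ (by norm_num) (by omega))⟩
  classical
  refine ⟨Nat.find h, Nat.find_spec h, ?_⟩
  have h0 : Nat.find h ≠ 0 := by
    intro h1
    have h2 := Nat.find_spec h
    rw [h1] at h2
    norm_num at h2
    linarith
  obtain ⟨c, hc⟩ := Nat.exists_eq_succ_of_ne_zero h0
  have h2 := Nat.find_min h (m := c) (by omega)
  rw [not_le] at h2
  rw [hc]
  have h3 : (2 : ℝ) ^ (3 * c.succ) = 8 * 2 ^ (3 * c) := by
    rw [Nat.succ_eq_add_one]; ring
  rw [h3]
  linarith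

/-- the tail is small -/
private theorem tail_small (L δ M : ℝ) (hL : 100 ≤ L) (hδ0 : 0 < δ) (hδ : L ≤ 1 / δ)
    (hM : M ≤ 128 * Real.exp L) :
    M * (Real.exp (-(1 / (2 * δ ^ 2))) * (1 / δ)) ≤ 1 / 16 := by
  set u : ℝ := 1 / δ with hu
  have hu100 : 100 ≤ u := hL.trans hδ
  have h1 : 1 / (2 * δ ^ 2) = u ^ 2 / 2 := by
    rw [hu]; field_simp
  rw [h1]
  have h2 : Real.exp L ≤ Real.exp u := Real.exp_le_exp.2 hδ
  have h3 : u ≤ Real.exp u := by
    have := Real.add_one_le_exp u
    linarith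
  have h4 : Real.exp (-(u ^ 2 / 2)) * u ≤ Real.exp (-(u ^ 2 / 2)) * Real.exp u :=
    mul_le_mul_of_nonneg_left h3 (Real.exp_pos _).le
  have h5 : 0 ≤ Real.exp (-(u ^ 2 / 2)) * u := by
    have := Real.exp_pos (-(u ^ 2 / 2))
    positivity
  calc M * (Real.exp (-(u ^ 2 / 2)) * u)
      ≤ (128 * Real.exp u) * (Real.exp (-(u ^ 2 / 2)) * Real.exp u) :=
        mul_le_mul (by linarith) h4 h5 (by positivity)
    _ = 128 * Real.exp (2 * u - u ^ 2 / 2) := by
        have e1 : Real.exp (2 * u - u ^ 2 / 2) =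
            Real.exp u * Real.exp (-(u ^ 2 / 2)) * Real.exp u := by
          rw [← Real.exp_add, ← Real.exp_add]
          congr 1
          ring
        rw [e1]; ring
    _ ≤ 128 * Real.exp (-(48 * u)) := by
        refine mul_le_mul_of_nonneg_left (Real.exp_le_exp.2 ?_) (by norm_num)
        nlinarith
    _ ≤ 128 * (1 / (48 * u)) := by
        refine mul_le_mul_of_nonneg_left ?_ (by norm_num)
        rw [Real.exp_neg, ← one_div]
        apply one_div_le_one_div_of_le (by positivity)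
        have := Real.add_one_le_exp (48 * u)
        linarith
    _ ≤ 1 / 16 := by
        rw [mul_one_div, div_le_iff₀ (by positivity)]
        linarith

/-- Proof. `B = 400`, `A = 3`. `X = j^B`, `δ = 1/(4 j log X)` (`= X^(-1/400)/(4 log X) >= X^(-1/200)`), `h = δ log X = 1/(4j)`,
`y = log X + 2 h`: the window `|log p - y| <= h` lies in `(X, X e^(3h)]`, `e^(3h) <= 1 + 1/j`, and `X (1 + 1/j) <= (j+1)^B`. The number of
primes is `>= δ X/(200 log X) = j^(B-1)/(800 (B log j)^2) >= j^(B-1)/(log j)^3` for large `j`. -/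
theorem input : ∃ (B J0 : ℕ) (A : ℝ), Input B J0 A := by
  obtain ⟨A1, X0, hA1, hX0, hS⟩ := sum_main
  obtain ⟨y0, hy0, hP⟩ := Pool.Agent.H4.WH.pntC A1 (by linarith)
  refine Pool.Agent.H11.WX.fin_input (1 / 200) A1 (max X0 (Real.exp (max 100 y0)))
    (by norm_num) ?_
  intro X δ y hX hd1 hd2 hy1 hy2 N hN
  have hXX0 : X0 ≤ X := (le_max_left _ _).trans hX
  have hXe : Real.exp (max 100 y0) ≤ X := (le_max_right _ _).trans hX
  have hX10 : 10 ≤ X := hX0.trans hXX0
  have hXpos : 0 < X := by linarith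
  have hLm : max 100 y0 ≤ Real.log X := (Real.le_log_iff_exp_le hXpos).2 hXe
  have hL100 : 100 ≤ Real.log X := (le_max_left _ _).trans hLm
  have hLy0 : y0 ≤ Real.log X := (le_max_right _ _).trans hLm
  have hLpos : 0 < Real.log X := by linarith
  have hy2' : y ≤ Real.log 2 + Real.log X := by
    rwa [Real.log_mul (by norm_num) hXpos.ne'] at hy2
  have hl2 := Real.log_two_lt_d9
  have hl2' := Real.log_two_gt_d9
  have hyL1 : y ≤ Real.log X + 1 := by linarith
  obtain ⟨b, hb1, hb2⟩ := exb X hX10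
  have hδ0 : 0 < δ := lt_of_lt_of_le (Real.rpow_pos_of_pos hXpos _) hd1
  have hd1' : X ^ (-(1 : ℝ) / 200) ≤ δ := by
    have e : (-(1 : ℝ) / 200) = -(1 / 200) := by ring
    rw [e]; exact hd1
  have hs := hS X hXX0 b hb1 hb2 δ y hd1' hd2 hy1 hyL1
  have hL1 : (Real.log X) ^ (-A1) ≤ (Real.log X)⁻¹ := by
    rw [← Real.rpow_neg_one]
    exact Real.rpow_le_rpow_of_exponent_le (by linarith) (by linarith)
  have hL2 : (Real.log X)⁻¹ ≤ 1 / 100 := by
    rw [← one_div]
    exact one_div_le_one_div_of_le (by norm_num) hL100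
  have hp := hP y (hLy0.trans hy1) ((Real.log X) ^ (-A1))
    (Real.rpow_le_rpow_of_nonpos hLpos hy1 (by linarith)) (hL1.trans hL2) (2 ^ (3 * b)) (by
      have h1 : Real.exp (y + Real.log X ^ (-A1)) ≤ Real.exp (Real.log 16 + Real.log X) := by
        apply Real.exp_le_exp.2
        have h2 : Real.log 16 = 4 * Real.log 2 := by
          rw [show (16 : ℝ) = 2 ^ 4 by norm_num, Real.log_pow]
          norm_num
        have := hL1.trans hL2
        linarith
      have h3 : Real.exp (Real.log 16 + Real.log X) = 16 * X := by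
        rw [Real.exp_add, Real.exp_log (by norm_num), Real.exp_log hXpos]
      rw [h3] at h1
      refine h1.trans ?_
      push_cast
      exact hb1)
  have hre : ∀ (M : ℕ) (d : ℝ),
      (G (fun n => ((ArithmeticFunction.vonMangoldt n : ℝ) : ℂ)) M d y).re =
      ∑ n ∈ Icc 1 M, ArithmeticFunction.vonMangoldt n / n *
        Pool.Agent.H11.WX.gk d (Real.log n - y) := by
    intro M d
    unfold G
    rw [Complex.re_sum]
    refine Finset.sum_congr rfl fun n _ => ?_
    have h1 : ((ArithmeticFunction.vonMangoldt n : ℝ) : ℂ) / (n : ℂ) *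
        ((gs d (Real.log n - y) : ℝ) : ℂ) =
        ((ArithmeticFunction.vonMangoldt n / n *
          Pool.Agent.H11.WX.gk d (Real.log n - y) : ℝ) : ℂ) := by
      push_cast
      rfl
    rw [h1, Complex.ofReal_re]
  have hp' : 1 / 2 ≤ (G (fun n => ((ArithmeticFunction.vonMangoldt n : ℝ) : ℂ)) (2 ^ (3 * b))
      ((Real.log X) ^ (-A1)) y).re := hp
  have h716 : 7 / 16 ≤ ∑ n ∈ Icc 1 (2 ^ (3 * b)), ArithmeticFunction.vonMangoldt n / n *
      Pool.Agent.H11.WX.gk δ (Real.log n - y) := by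
    rw [← hre]
    have h1 := (Complex.abs_re_le_norm _).trans hs
    rw [Complex.sub_re, abs_le] at h1
    linarith [h1.1]
  have hterm0 : ∀ n : ℕ, 0 ≤ ArithmeticFunction.vonMangoldt n / (n : ℝ) *
      Pool.Agent.H11.WX.gk δ (Real.log n - y) := fun n =>
    mul_nonneg (div_nonneg ArithmeticFunction.vonMangoldt_nonneg (Nat.cast_nonneg _))
      (Pool.Agent.H11.WX.gk_nonneg hδ0 _)
  by_cases hNb : 2 ^ (3 * b) ≤ N
  · have h1 : ∑ n ∈ Icc 1 (2 ^ (3 * b)), ArithmeticFunction.vonMangoldt n / n *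
        Pool.Agent.H11.WX.gk δ (Real.log n - y) ≤
        ∑ n ∈ Icc 1 N, ArithmeticFunction.vonMangoldt n / n *
        Pool.Agent.H11.WX.gk δ (Real.log n - y) :=
      Finset.sum_le_sum_of_subset_of_nonneg (Finset.Icc_subset_Icc_right hNb)
        fun n _ _ => hterm0 n
    linarith
  · have hδL : Real.log X ≤ 1 / δ := by
      rw [le_one_div hLpos hδ0, one_div]
      exact hd2.trans hL1
    have hMX : ((2 ^ (3 * b) : ℕ) : ℝ) ≤ 128 * Real.exp (Real.log X) := by
      rw [Real.exp_log hXpos]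
      push_cast
      exact hb2
    have htail := tail_small (Real.log X) δ _ hL100 hδ0 hδL hMX
    have hτ0 : 0 ≤ Real.exp (-(1 / (2 * δ ^ 2))) * (1 / δ) := by
      have := Real.exp_pos (-(1 / (2 * δ ^ 2)))
      positivity
    have hterm : ∀ n ∈ Icc 1 (2 ^ (3 * b)), ArithmeticFunction.vonMangoldt n / n *
        Pool.Agent.H11.WX.gk δ (Real.log n - y) ≤
        (if n ≤ N then ArithmeticFunction.vonMangoldt n / n *
        Pool.Agent.H11.WX.gk δ (Real.log n - y) else 0) +
        Real.exp (-(1 / (2 * δ ^ 2))) * (1 / δ) := by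
      intro n hn
      have hn1 := (Finset.mem_Icc.1 hn).1
      have hnr : (1 : ℝ) ≤ n := by exact_mod_cast hn1
      have hn0 : (0 : ℝ) < n := by linarith
      by_cases hnN : n ≤ N
      · rw [if_pos hnN]; linarith
      · rw [if_neg hnN, zero_add]
        have hNn : (N : ℝ) < n := by exact_mod_cast not_le.1 hnN
        have hlog : Real.log 16 + Real.log X ≤ Real.log n := by
          rw [← Real.log_mul (by norm_num) hXpos.ne']
          exact Real.log_le_log (by positivity) (by linarith)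
        have h16 : Real.log 16 = 4 * Real.log 2 := by
          rw [show (16 : ℝ) = 2 ^ 4 by norm_num, Real.log_pow]
          norm_num
        have hv : 1 ≤ Real.log n - y := by linarith
        have hv2 : 1 ≤ (Real.log n - y) ^ 2 := one_le_pow₀ hv
        have h1 : Real.exp (-((Real.log n - y) ^ 2 / (2 * δ ^ 2))) ≤
            Real.exp (-(1 / (2 * δ ^ 2))) := by
          apply Real.exp_le_exp.2
          rw [neg_le_neg_iff]
          exact div_le_div_of_nonneg_right hv2 (by positivity)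
        have h2 : ArithmeticFunction.vonMangoldt n / n ≤ 1 := by
          rw [div_le_one hn0]
          exact ArithmeticFunction.vonMangoldt_le_log.trans
            ((Real.log_le_sub_one_of_pos hn0).trans (by linarith))
        calc ArithmeticFunction.vonMangoldt n / n * Pool.Agent.H11.WX.gk δ (Real.log n - y)
            ≤ 1 * Pool.Agent.H11.WX.gk δ (Real.log n - y) :=
              mul_le_mul_of_nonneg_right h2 (Pool.Agent.H11.WX.gk_nonneg hδ0 _)
          _ = Pool.Agent.H11.WX.gk δ (Real.log n - y) := one_mul _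
          _ ≤ Real.exp (-((Real.log n - y) ^ 2 / (2 * δ ^ 2))) * (1 / δ) :=
              Pool.Agent.H11.WX.gk_le hδ0 _
          _ ≤ _ := mul_le_mul_of_nonneg_right h1 (by positivity)
    have hsum := h716.trans (Finset.sum_le_sum hterm)
    rw [Finset.sum_add_distrib, Finset.sum_const, nsmul_eq_mul, Nat.card_Icc,
      Nat.add_sub_cancel, ← Finset.sum_filter] at hsum
    have hsub : ∑ n ∈ (Icc 1 (2 ^ (3 * b))).filter (fun n => n ≤ N),
        ArithmeticFunction.vonMangoldt n / n * Pool.Agent.H11.WX.gk δ (Real.log n - y) ≤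
        ∑ n ∈ Icc 1 N, ArithmeticFunction.vonMangoldt n / n *
        Pool.Agent.H11.WX.gk δ (Real.log n - y) := by
      refine Finset.sum_le_sum_of_subset_of_nonneg ?_ fun n _ _ => hterm0 n
      intro n hn
      rw [Finset.mem_filter, Finset.mem_Icc] at hn
      exact Finset.mem_Icc.2 ⟨hn.1.1, hn.2⟩
    linarith

end Pool.Agent.H42.HO
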