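import Pool.Agent.H42.HO.Defs
import Pool.Agent.H11.WX.Gau2

/-!
# H42 HO, Gau: the kernel identity (helper11)
-/

set_option autoImplicit false

namespace Pool.Agent.H42.HO

open Finset Pool.Agent.H43.SI MeasureTheory

/-- Proof. `∫ exp(-δ^2 t^2/2) e^(-itv) dt = (2π)^(1/2)/δ exp(-v^2/(2δ^2))` (Mathlib: Fourier transform of the Gaussian), so
`G f N δ y = (1/2π) ∫ exp(-δ^2 t^2/2) e^(ity) Σ_n f n n^(-1-it) dt` (finite sum, `v = log n - y`). Subtract for `δ`, `δ1`: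
`0 <= exp(-δ^2t^2/2) - exp(-δ1^2t^2/2) <= min (δ1^2 t^2/2) (exp(-δ^2t^2/2))`. -/
theorem gau (f : ℕ → ℂ) (N : ℕ) (δ δ1 y : ℝ) (hδ : 0 < δ) (hδ1 : δ ≤ δ1) :
    ‖G f N δ y - G f N δ1 y‖ ≤ ∫ t : ℝ,
      ‖∑ n ∈ Icc 1 N, f n * (n : ℂ) ^ (-(1 + (t : ℂ) * Complex.I))‖ *
        min (δ1 ^ 2 * t ^ 2) (Real.exp (-(δ ^ 2 * t ^ 2 / 2))) :=
  H11.WX.Gs_diff' f N hδ hδ1 y

end Pool.Agent.H42.HO
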