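import Pool.Agent.H42.HO.Defs
import Pool.Agent.H43.SI.Psi
import Pool.Agent.H4.WH.Pnt

/-!
# H42 HO, Pnt: the long average
-/

set_option autoImplicit false

namespace Pool.Agent.H42.HO

open Finset Pool.Agent.H43.SI

/-- Proof. `δ1 = (log X)^(-A1)`. All terms are nonnegative; keep `|log n - y| <= δ1`, where `gs δ1 >= exp(-1/2)/(δ1 (2π)^(1/2)) >= 0.24/δ1`
and `1/n >= exp(-y-δ1)`. `psi_log` (modulus 1, exponent `A1 + 1`): `ψ(e^(y+δ1)) - ψ(e^(y-δ1)) >= e^y (2 δ1 - o(δ1))`. So the real part is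
`>= 0.48 (1 - o(1)) >= 1/4`. (`e^(y+δ1) <= 16 X <= N`.) -/
theorem pnt (A1 : ℝ) (hA1 : 1 ≤ A1) : ∃ X0 : ℝ, 10 ≤ X0 ∧ ∀ X : ℝ, X0 ≤ X → ∀ (N : ℕ) (y : ℝ), 16 * X ≤ N →
    Real.log X ≤ y → y ≤ Real.log X + 1 →
    1 / 4 ≤ (G (fun n => ((ArithmeticFunction.vonMangoldt n : ℝ) : ℂ)) N ((Real.log X) ^ (-A1)) y).re := by
  obtain ⟨y0, hy0, h⟩ := Pool.Agent.H4.WH.pntC A1 (by linarith)
  refine ⟨Real.exp (max y0 100), ?_, fun X hX N y hN hy1 hy2 => ?_⟩
  · have h1 := Real.add_one_le_exp (max y0 100)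
    have h2 : (100 : ℝ) ≤ max y0 100 := le_max_right _ _
    linarith
  · have hX0 : 0 < X := (Real.exp_pos _).trans_le hX
    have hL : max y0 100 ≤ Real.log X := (Real.le_log_iff_exp_le hX0).2 hX
    have hL1 : y0 ≤ Real.log X := (le_max_left _ _).trans hL
    have hL2 : 100 ≤ Real.log X := (le_max_right _ _).trans hL
    have hL0 : 0 < Real.log X := by linarith
    have h3 : y ^ (-A1) ≤ (Real.log X) ^ (-A1) :=
      Real.rpow_le_rpow_of_nonpos hL0 hy1 (by linarith)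
    have h4 : (Real.log X) ^ (-A1) ≤ 1 / 100 := by
      calc (Real.log X) ^ (-A1) ≤ (Real.log X) ^ (-1 : ℝ) :=
            Real.rpow_le_rpow_of_exponent_le (by linarith) (by linarith)
        _ = (Real.log X)⁻¹ := Real.rpow_neg_one _
        _ ≤ (100 : ℝ)⁻¹ := inv_anti₀ (by norm_num) hL2
        _ = 1 / 100 := by norm_num
    have h5 : Real.exp (y + (Real.log X) ^ (-A1)) ≤ N := by
      refine le_trans ?_ hN
      calc Real.exp (y + (Real.log X) ^ (-A1)) ≤ Real.exp (Real.log X + (1 + 1)) :=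
            Real.exp_le_exp.2 (by linarith)
        _ = X * (Real.exp 1 * Real.exp 1) := by rw [Real.exp_add, Real.exp_log hX0, Real.exp_add]
        _ ≤ X * 16 := by
            apply mul_le_mul_of_nonneg_left _ hX0.le
            have e1 := Real.exp_one_lt_d9
            have e2 := Real.exp_pos 1
            nlinarith
        _ = 16 * X := mul_comm _ _
    have h6 := h y (hL1.trans hy1) _ h3 h4 N h5
    have h7 : G (fun n => ((ArithmeticFunction.vonMangoldt n : ℝ) : ℂ)) N ((Real.log X) ^ (-A1)) y =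
        Pool.Agent.H11.WX.Gs (fun n => ((ArithmeticFunction.vonMangoldt n : ℝ) : ℂ)) N
          ((Real.log X) ^ (-A1)) y := rfl
    rw [h7]
    linarith

end Pool.Agent.H42.HO
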