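import Pool.Agent.H42.HO.Defs
import Pool.Agent.H4.WH.Smo

/-!
# H42 HO, Smo: one smooth factor (helper4)
-/

set_option autoImplicit false

namespace Pool.Agent.H42.HO

open Finset Pool.Agent.H43.SI

/-- Proof. `N = 2^a/2`. `a = 0`: the value is `0` or `1` (or `log 1`), the right side is `>= C (1/|t| + |t|) >= C`. `a >= 1`:
`Σ_{N<n<=2N} n^(-1-it)` against `∫_N^{2N} u^(-1-it) du` (absolute value at most `2/|t|`); the error is at most
`∫_N^{2N} |1+it| u^(-2) du + ... <= C |t|/N`. For `i = 3` partial summation as in `pw_log` (H43/SI/Pw). `c1 n = 1`. -/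
theorem smo : ∃ C : ℝ, 0 < C ∧ ∀ (i : Fin 6) (a : ℕ) (t : ℝ), 3 ≤ (i : ℕ) → 1 ≤ |t| →
    ‖pol (cf c1 i) a t‖ ≤ C * (1 + a) * (1 / |t| + |t| / 2 ^ a) := by
  refine ⟨80, by norm_num, fun i a t hi ht => ?_⟩
  have ht0 : t ≠ 0 := by
    intro h
    rw [h, abs_zero] at ht
    norm_num at ht
  refine (Pool.Agent.H4.WH.smo c1 i hi a t ht0).trans ?_
  have h0 : (0 : ℝ) < 2 ^ a := by positivity
  have h1 : (1 + |t|) / 2 ^ a ≤ 2 * (|t| / 2 ^ a) := by
    rw [← mul_div_assoc]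
    apply div_le_div_of_nonneg_right _ h0.le
    linarith
  have h2 : 0 ≤ 1 / |t| := by positivity
  have h3 : 1 / |t| + (1 + |t|) / 2 ^ a ≤ 2 * (1 / |t| + |t| / 2 ^ a) := by linarith
  have h4 : (0 : ℝ) ≤ 40 * ((1 : ℕ) : ℝ) * (1 + a) := by positivity
  refine (mul_le_mul_of_nonneg_left h3 h4).trans (le_of_eq ?_)
  push_cast
  ring

end Pool.Agent.H42.HO
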