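import Pool.Agent.H42.HO.Defs
import Pool.Agent.H43.SI.Mvp

/-!
# H42 HO, Tl: the tail of the Gaussian
-/

set_option autoImplicit false

namespace Pool.Agent.H42.HO

open Finset Pool.Agent.H43.SI

/-- Proof. `|v| >= 1`, `δ <= 1/log X`: `gs δ v <= X exp(-(log X)^2/2)`. At most `2^20 X` terms of size `X^8` times this. -/
theorem tl : ∃ X0 : ℝ, 10 ≤ X0 ∧ ∀ X : ℝ, X0 ≤ X → ∀ (f : ℕ → ℂ) (N : ℕ) (δ y : ℝ), (N : ℝ) ≤ 2 ^ 20 * X →
    (∀ n ∈ Icc 1 N, ‖f n‖ ≤ X ^ 8) → X ^ (-(1 : ℝ) / 200) ≤ δ → δ ≤ 1 / Real.log X →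
    (∀ n ∈ Icc 1 N, f n ≠ 0 → 1 ≤ |Real.log n - y|) → ‖G f N δ y‖ ≤ 1 / X := by
  refine ⟨Real.exp 24, ?_, ?_⟩
  · have := Real.add_one_le_exp (24 : ℝ)
    linarith
  intro X hX f N δ y hN hf hδ1 hδ2 hv
  have hXpos : 0 < X := lt_of_lt_of_le (Real.exp_pos _) hX
  have hX1 : 1 ≤ X := by
    have := Real.add_one_le_exp (24 : ℝ)
    linarith
  set L := Real.log X with hL
  have hL24 : 24 ≤ L := by
    rw [hL, Real.le_log_iff_exp_le hXpos]
    exact hX
  have hexpL : Real.exp L = X := Real.exp_log hXpos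
  have hδpos : 0 < δ := lt_of_lt_of_le (Real.rpow_pos_of_pos hXpos _) hδ1
  have hinv : δ⁻¹ ≤ X := by
    have h1 : X⁻¹ ≤ X ^ (-(1 : ℝ) / 200) := by
      rw [← Real.rpow_neg_one]
      exact Real.rpow_le_rpow_of_exponent_le hX1 (by norm_num)
    have h2 : X⁻¹ ≤ δ := h1.trans hδ1
    have h3 := inv_anti₀ (by positivity) h2
    rwa [inv_inv] at h3
  have hgs : ∀ v : ℝ, 1 ≤ |v| → gs δ v ≤ X * Real.exp (-(L ^ 2 / 2)) := by
    intro v hv1
    unfold gs
    have hsq : 1 ≤ Real.sqrt (2 * Real.pi) := by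
      rw [Real.one_le_sqrt]
      have := Real.pi_gt_three
      linarith
    have hv2 : 1 ≤ v ^ 2 := by
      rw [← sq_abs]
      nlinarith [abs_nonneg v]
    have hLδ : L * δ ≤ 1 := by
      rw [le_div_iff₀ (by linarith)] at hδ2
      linarith [mul_comm δ L]
    have h1 : L ^ 2 / 2 ≤ v ^ 2 / (2 * δ ^ 2) := by
      rw [div_le_div_iff₀ (by norm_num) (by positivity)]
      have h5 : (L * δ) ^ 2 ≤ 1 := by
        have h6 : 0 ≤ L * δ := by positivity
        nlinarith
      nlinarith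
    calc Real.exp (-(v ^ 2 / (2 * δ ^ 2))) / (δ * Real.sqrt (2 * Real.pi))
        ≤ Real.exp (-(v ^ 2 / (2 * δ ^ 2))) / (δ * 1) := by gcongr
      _ = Real.exp (-(v ^ 2 / (2 * δ ^ 2))) * δ⁻¹ := by rw [mul_one, div_eq_mul_inv]
      _ ≤ Real.exp (-(L ^ 2 / 2)) * X := by gcongr
      _ = _ := by ring
  have hgs0 : ∀ v : ℝ, 0 ≤ gs δ v := by
    intro v
    unfold gs
    positivity
  have hterm : ∀ n ∈ Icc 1 N, ‖f n / n * ((gs δ (Real.log n - y) : ℝ) : ℂ)‖ ≤
      X ^ 8 * (X * Real.exp (-(L ^ 2 / 2))) := by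
    intro n hn
    by_cases h0 : f n = 0
    · rw [h0, zero_div, zero_mul, norm_zero]
      positivity
    · rw [norm_mul, norm_div, Complex.norm_real, Real.norm_eq_abs, abs_of_nonneg (hgs0 _),
        Complex.norm_natCast]
      have hn1 : (1 : ℝ) ≤ n := by
        exact_mod_cast (Finset.mem_Icc.1 hn).1
      have h1 : ‖f n‖ / n ≤ X ^ 8 := by
        calc ‖f n‖ / n ≤ ‖f n‖ / 1 := by gcongr
          _ = ‖f n‖ := div_one _
          _ ≤ X ^ 8 := hf n hn
      exact mul_le_mul h1 (hgs _ (hv n hn h0)) (hgs0 _) (by positivity)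
  unfold G
  refine (norm_sum_le _ _).trans ?_
  refine (Finset.sum_le_sum hterm).trans ?_
  rw [Finset.sum_const, Nat.card_Icc, nsmul_eq_mul, Nat.add_sub_cancel]
  calc (N : ℝ) * (X ^ 8 * (X * Real.exp (-(L ^ 2 / 2))))
      ≤ (2 ^ 20 * X) * (X ^ 8 * (X * Real.exp (-(L ^ 2 / 2)))) := by gcongr
    _ = 2 ^ 20 * (X ^ 11 * Real.exp (-(L ^ 2 / 2))) * (1 / X) := by
        field_simp
    _ ≤ 1 * (1 / X) := by
        gcongr
        have h2 : (2 : ℝ) ^ 20 ≤ Real.exp 20 := by
          have h3 : (2 : ℝ) ≤ Real.exp 1 := by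
            have := Real.add_one_le_exp (1 : ℝ)
            linarith
          calc (2 : ℝ) ^ 20 ≤ (Real.exp 1) ^ 20 := by gcongr
            _ = Real.exp 20 := by
              rw [← Real.exp_nat_mul]
              norm_num
        have h4 : X ^ 11 = Real.exp (11 * L) := by
          rw [← hexpL, ← Real.exp_nat_mul]
          norm_num
        calc (2 : ℝ) ^ 20 * (X ^ 11 * Real.exp (-(L ^ 2 / 2)))
            ≤ Real.exp 20 * (Real.exp (11 * L) * Real.exp (-(L ^ 2 / 2))) := by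
              rw [h4]
              gcongr
          _ = Real.exp (20 + (11 * L + -(L ^ 2 / 2))) := by rw [Real.exp_add, Real.exp_add]
          _ ≤ 1 := by
              rw [Real.exp_le_one_iff]
              nlinarith
    _ = 1 / X := one_mul _

theorem zeta_pow_le (k : ℕ) : ∀ n : ℕ,
    ((ArithmeticFunction.zeta : ArithmeticFunction ℕ) ^ (k + 1)) n ≤ n ^ k := by
  induction k with
  | zero =>
    intro n
    rw [zero_add, pow_one, pow_zero, ArithmeticFunction.zeta_apply]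
    split_ifs <;> simp
  | succ k ih =>
    intro n
    rw [pow_succ, ArithmeticFunction.mul_apply]
    have hterm : ∀ x ∈ n.divisorsAntidiagonal,
        ((ArithmeticFunction.zeta : ArithmeticFunction ℕ) ^ (k + 1)) x.1 *
          (ArithmeticFunction.zeta : ArithmeticFunction ℕ) x.2 ≤ n ^ k := by
      intro x hx
      obtain ⟨h1, h2⟩ := Nat.mem_divisorsAntidiagonal.1 hx
      have hx1 : x.1 ≤ n := Nat.le_of_dvd (Nat.pos_of_ne_zero h2) ⟨x.2, h1.symm⟩
      have hz : (ArithmeticFunction.zeta : ArithmeticFunction ℕ) x.2 ≤ 1 := by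
        rw [ArithmeticFunction.zeta_apply]
        split_ifs <;> simp
      calc _ ≤ x.1 ^ k * 1 := Nat.mul_le_mul (ih _) hz
        _ = x.1 ^ k := mul_one _
        _ ≤ n ^ k := Nat.pow_le_pow_left hx1 k
    refine (Finset.sum_le_sum hterm).trans ?_
    rw [Finset.sum_const, smul_eq_mul, pow_succ, mul_comm]
    refine Nat.mul_le_mul_left _ ?_
    have h3 : n.divisorsAntidiagonal.card ≤ n.divisors.card := by
      refine Finset.card_le_card_of_injOn (fun x => x.1) ?_ ?_
      · intro x hx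
        exact Finset.mem_coe.2 (Nat.fst_mem_divisors_of_mem_antidiagonal (Finset.mem_coe.1 hx))
      · intro x hx y hy hxy
        obtain ⟨h1, h2⟩ := Nat.mem_divisorsAntidiagonal.1 (Finset.mem_coe.1 hx)
        obtain ⟨h4, _⟩ := Nat.mem_divisorsAntidiagonal.1 (Finset.mem_coe.1 hy)
        have hxy' : x.1 = y.1 := hxy
        have hx0 : 0 < x.1 := by
          rcases Nat.eq_zero_or_pos x.1 with h | h
          · rw [h, zero_mul] at h1
            exact absurd h1.symm h2
          · exact h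
        refine Prod.ext hxy' ?_
        have : x.1 * x.2 = x.1 * y.2 := by rw [h1, hxy', h4]
        exact Nat.eq_of_mul_eq_mul_left hx0 this
    exact h3.trans (Nat.card_divisors_le_self n)

/-- crude bound for the box functions: at most `(1+S)^6 τ_6(n)`, `S = Σ e` (`mvp_bound` with `s = univ`), and
`τ_6(n) <= n^5`... any proof -/
theorem bf_crude : ∃ X0 : ℝ, 10 ≤ X0 ∧ ∀ X : ℝ, X0 ≤ X → ∀ (e : Fin 6 → ℕ) (n : ℕ),
    (∀ i, (e i : ℝ) ≤ 10 * Real.log X) → (n : ℝ) ≤ 2 ^ 20 * X → ‖bf c1 e n‖ ≤ X ^ 6 := by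
  refine ⟨Real.exp 400, ?_, ?_⟩
  · have := Real.add_one_le_exp (400 : ℝ)
    linarith
  intro X hX e n he hn
  have hXpos : 0 < X := lt_of_lt_of_le (Real.exp_pos _) hX
  set L := Real.log X with hL
  have hL4 : 400 ≤ L := by
    rw [hL, Real.le_log_iff_exp_le hXpos]
    exact hX
  have hexpL : Real.exp L = X := Real.exp_log hXpos
  have hb : bf c1 e = ∏ i ∈ (Finset.univ : Finset (Fin 6)), af (cf c1 i) (e i) := by
    rw [Fin.prod_univ_six]
    rfl
  rw [hb]
  refine (mvp_bound c1 e Finset.univ n).trans ?_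
  have hcard : (Finset.univ : Finset (Fin 6)).card = 6 := by simp
  rw [hcard]
  have hS : ((∑ i ∈ (Finset.univ : Finset (Fin 6)), e i : ℕ) : ℝ) ≤ 60 * L := by
    push_cast
    calc ∑ i ∈ (Finset.univ : Finset (Fin 6)), (e i : ℝ) ≤
        ∑ i ∈ (Finset.univ : Finset (Fin 6)), 10 * L := Finset.sum_le_sum fun i _ => he i
      _ = 60 * L := by
        rw [Finset.sum_const, hcard, nsmul_eq_mul]
        push_cast
        ring
  have hτ : ((((ArithmeticFunction.zeta : ArithmeticFunction ℕ) ^ 6) n : ℕ) : ℝ) ≤ (2 ^ 20 * X) ^ 5 := by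
    calc ((((ArithmeticFunction.zeta : ArithmeticFunction ℕ) ^ 6) n : ℕ) : ℝ) ≤ ((n ^ 5 : ℕ) : ℝ) := by
          exact_mod_cast zeta_pow_le 5 n
      _ = (n : ℝ) ^ 5 := by push_cast; rfl
      _ ≤ (2 ^ 20 * X) ^ 5 := by gcongr
  have hS0 : (0 : ℝ) ≤ ((∑ i ∈ (Finset.univ : Finset (Fin 6)), e i : ℕ) : ℝ) := Nat.cast_nonneg _
  calc (1 + ((∑ i ∈ (Finset.univ : Finset (Fin 6)), e i : ℕ) : ℝ)) ^ 6 *
      ((((ArithmeticFunction.zeta : ArithmeticFunction ℕ) ^ 6) n : ℕ) : ℝ)
      ≤ (1 + 60 * L) ^ 6 * (2 ^ 20 * X) ^ 5 := by gcongr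
    _ = ((1 + 60 * L) ^ 6 * 2 ^ 100) * X ^ 5 := by ring
    _ ≤ X * X ^ 5 := by
        gcongr
        have h1 : 1 + 60 * L ≤ Real.exp (L / 8) := by
          have h2 := Real.pow_div_factorial_le_exp (L / 8) (by linarith) 4
          have h3 : 1 + 60 * L ≤ (L / 8) ^ 4 / ((Nat.factorial 4 : ℕ) : ℝ) := by
            have h4 : ((Nat.factorial 4 : ℕ) : ℝ) = 24 := by norm_num [Nat.factorial]
            rw [h4, le_div_iff₀ (by norm_num)]
            have h5 : (400 : ℝ) ^ 3 * L ≤ L ^ 4 := by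
              have : (400 : ℝ) ^ 3 ≤ L ^ 3 := by gcongr
              nlinarith
            nlinarith
          exact h3.trans h2
        have h6 : (2 : ℝ) ^ 100 ≤ Real.exp 100 := by
          have h3 : (2 : ℝ) ≤ Real.exp 1 := by
            have := Real.add_one_le_exp (1 : ℝ)
            linarith
          calc (2 : ℝ) ^ 100 ≤ (Real.exp 1) ^ 100 := by gcongr
            _ = Real.exp 100 := by
              rw [← Real.exp_nat_mul]
              norm_num
        calc (1 + 60 * L) ^ 6 * 2 ^ 100 ≤ (Real.exp (L / 8)) ^ 6 * Real.exp 100 := by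
              have : 0 ≤ 1 + 60 * L := by linarith
              gcongr
          _ = Real.exp (6 * (L / 8) + 100) := by
              rw [← Real.exp_nat_mul, Real.exp_add]
              norm_num
          _ ≤ Real.exp L := by
              apply Real.exp_le_exp.2
              linarith
          _ = X := hexpL
    _ = X ^ 6 := by ring

end Pool.Agent.H42.HO
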