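import Pool.Agent.H42.HO.Ti
import Pool.Agent.H43.SI.Hb
import Pool.Agent.H43.SI.Mvp

/-!
# H42 HO, Tp: one long smooth factor, all others short, summed over the long one
-/

set_option autoImplicit false

namespace Pool.Agent.H42.HO

open Finset Pool.Agent.H43.SI

private theorem tp_conv (f g : ArithmeticFunction ℂ) (w : ℕ → ℂ) (N : ℕ) :
    ∑ n ∈ Icc 1 N, (f * g) n * w n =
      ∑ m ∈ Icc 1 N, f m * ∑ k ∈ Icc 1 (N / m), g k * w (m * k) := by
  have hI : ∀ K : ℕ, Icc 1 K = Ioc 0 K := fun K => by ext k; simp only [mem_Icc, mem_Ioc]; omega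
  simp only [hI]
  have h1 : ∀ n ∈ Ioc 0 N, (f * g) n * w n =
      ∑ x ∈ Ioc 0 N ×ˢ Ioc 0 N, if x.1 * x.2 = n then f x.1 * (g x.2 * w (x.1 * x.2)) else 0 := by
    intro n hn
    rw [mem_Ioc] at hn
    rw [ArithmeticFunction.mul_apply, Nat.divisorsAntidiagonal_eq_prod_filter_of_le hn.1.ne' hn.2,
      Finset.sum_mul, Finset.sum_filter]
    refine Finset.sum_congr rfl fun x _ => ?_
    split_ifs with h
    · rw [h]; ring
    · rfl
  rw [Finset.sum_congr rfl h1, Finset.sum_comm, Finset.sum_product]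
  refine Finset.sum_congr rfl fun m hm => ?_
  rw [mem_Ioc] at hm
  rw [Finset.mul_sum]
  have h2 : ∀ k ∈ Ioc 0 N, (∑ n ∈ Ioc 0 N, if m * k = n then f m * (g k * w (m * k)) else 0) =
      if m * k ≤ N then f m * (g k * w (m * k)) else 0 := by
    intro k hk
    rw [mem_Ioc] at hk
    rw [Finset.sum_ite_eq]
    have : m * k ∈ Ioc 0 N ↔ m * k ≤ N := by
      rw [mem_Ioc]
      exact ⟨fun h => h.2, fun h => ⟨Nat.mul_pos hm.1 hk.1, h⟩⟩
    simp only [this]
  rw [Finset.sum_congr rfl h2, ← Finset.sum_filter]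
  refine Finset.sum_congr ?_ fun _ _ => rfl
  ext k
  rw [mem_filter, mem_Ioc, mem_Ioc, Nat.le_div_iff_mul_le hm.1, mul_comm k m]
  constructor
  · rintro ⟨⟨a, b⟩, c⟩
    exact ⟨a, c⟩
  · rintro ⟨a, c⟩
    exact ⟨⟨a, le_trans (Nat.le_mul_of_pos_left k hm.1) c⟩, c⟩

private theorem tp_zeta (r : ℕ) : ∀ n : ℕ, 1 ≤ n →
    ((ArithmeticFunction.zeta : ArithmeticFunction ℕ) ^ r) n ≤ n ^ r := by
  induction r with
  | zero =>
    intro n hn
    rw [pow_zero, pow_zero, ArithmeticFunction.one_apply]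
    split_ifs <;> omega
  | succ r ih =>
    intro n hn
    rw [pow_succ', ArithmeticFunction.mul_apply]
    calc ∑ x ∈ n.divisorsAntidiagonal, ArithmeticFunction.zeta x.1 *
          ((ArithmeticFunction.zeta : ArithmeticFunction ℕ) ^ r) x.2
        ≤ ∑ x ∈ n.divisorsAntidiagonal, n ^ r := by
          refine Finset.sum_le_sum fun x hx => ?_
          obtain ⟨h1, h2⟩ := Nat.mem_divisorsAntidiagonal.1 hx
          have hx1 : x.1 ≠ 0 := by rintro h0; rw [h0, zero_mul] at h1; exact h2 h1.symm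
          have hx2 : x.2 ≠ 0 := by rintro h0; rw [h0, mul_zero] at h1; exact h2 h1.symm
          rw [ArithmeticFunction.zeta_apply_ne hx1, one_mul]
          refine (ih x.2 (Nat.one_le_iff_ne_zero.2 hx2)).trans (Nat.pow_le_pow_left ?_ r)
          rw [← h1]
          exact Nat.le_mul_of_pos_left _ (Nat.pos_of_ne_zero hx1)
      _ = n.divisors.card * n ^ r := by
          rw [Finset.sum_const, smul_eq_mul, ← Nat.map_div_right_divisors, Finset.card_map]
      _ ≤ n * n ^ r := Nat.mul_le_mul_right _ (Nat.card_divisors_le_self n)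
      _ = n ^ (r + 1) := (pow_succ' n r).symm

private theorem tp_c1 (k : ℕ) : c1 (k : ZMod 1) = 1 := by
  unfold c1
  exact MulChar.one_apply (isUnit_of_subsingleton _)

private theorem tp_large : ∀ᶠ X : ℝ in Filter.atTop,
    5 * (Real.log X) ^ (0.98 : ℝ) ≤ Real.log X / 100 ∧ 2 * (1 + Real.log X) ^ 5 ≤ X ^ ((13 : ℝ) / 200) ∧
      (1024 : ℝ) ≤ X := by
  have h1 : ∀ᶠ L : ℝ in Filter.atTop, 5 * L ^ (0.98 : ℝ) ≤ L / 100 := by
    have h2 : Filter.Tendsto (fun L : ℝ => L ^ (-(0.02 : ℝ))) Filter.atTop (nhds 0) :=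
      tendsto_rpow_neg_atTop (by norm_num)
    have h3 := h2.eventually (ge_mem_nhds (show (0 : ℝ) < 1 / 500 by norm_num))
    filter_upwards [h3, Filter.eventually_gt_atTop 0] with L hL hL0
    have h4 : L ^ (0.98 : ℝ) = L * L ^ (-(0.02 : ℝ)) := by
      nth_rewrite 2 [← Real.rpow_one L]
      rw [← Real.rpow_add hL0]
      norm_num
    rw [h4]
    nlinarith
  have h5 : ∀ᶠ X : ℝ in Filter.atTop, Real.log X ≤ 1 / 4 * X ^ ((13 : ℝ) / 1000) := by
    have h6 := (isLittleO_log_rpow_atTop (show (0 : ℝ) < 13 / 1000 by norm_num)).def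
      (show (0 : ℝ) < 1 / 4 by norm_num)
    filter_upwards [h6, Filter.eventually_ge_atTop 1] with X hX hX1
    rw [Real.norm_of_nonneg (Real.log_nonneg hX1), Real.norm_of_nonneg (by positivity)] at hX
    exact hX
  have h7 : ∀ᶠ X : ℝ in Filter.atTop, 4 ≤ X ^ ((13 : ℝ) / 1000) :=
    (tendsto_rpow_atTop (show (0 : ℝ) < 13 / 1000 by norm_num)).eventually_ge_atTop 4
  filter_upwards [Real.tendsto_log_atTop.eventually h1, h5, h7, Filter.eventually_ge_atTop 1024] with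
    X hX1 hX2 hX3 hX4
  refine ⟨hX1, ?_, hX4⟩
  have hX0 : (0 : ℝ) ≤ X := by linarith
  have hlog : 0 ≤ Real.log X := Real.log_nonneg (by linarith)
  have h8 : 1 + Real.log X ≤ 1 / 2 * X ^ ((13 : ℝ) / 1000) := by linarith
  have h9 : X ^ ((13 : ℝ) / 200) = (X ^ ((13 : ℝ) / 1000)) ^ 5 := by
    rw [← Real.rpow_natCast, ← Real.rpow_mul hX0]
    norm_num
  rw [h9]
  have h10 := pow_le_pow_left₀ (by linarith) h8 5
  have h11 : 0 ≤ (X ^ ((13 : ℝ) / 1000)) ^ 5 := by positivity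
  rw [mul_pow] at h10
  linarith

private theorem tp_sum_apply (t : Finset ℕ) (f : ℕ → ArithmeticFunction ℂ) (n : ℕ) :
    ∑ a ∈ t, f a n = (∑ a ∈ t, f a) n := by
  induction t using Finset.induction_on with
  | empty => simp
  | insert a s ha ih =>
    rw [Finset.sum_insert ha, Finset.sum_insert ha, ArithmeticFunction.add_apply, ih]

/-- the product of all factors except the `i`-th -/
private noncomputable def tp_g (i : Fin 6) (e : Fin 6 → ℕ) : ArithmeticFunction ℂ :=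
  ∏ j ∈ univ.erase i, af (cf c1 j) (e j)

private theorem tp_bf (i : Fin 6) (e : Fin 6 → ℕ) (a : ℕ) :
    bf c1 (Function.update e i a) = tp_g i e * af (cf c1 i) a := by
  have h1 : bf c1 (Function.update e i a) =
      ∏ j : Fin 6, af (cf c1 j) (Function.update e i a j) := by
    rw [Fin.prod_univ_six]
    rfl
  rw [h1, ← Finset.prod_erase_mul univ _ (Finset.mem_univ i), Function.update_self]
  congr 1
  refine Finset.prod_congr rfl fun j hj => ?_
  rw [Function.update_of_ne (Finset.ne_of_mem_erase hj)]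

/-- the smooth coefficient as a real function -/
private noncomputable def tp_c (i : Fin 6) (k : ℕ) : ℝ := if (i : ℕ) = 3 then Real.log k else 1

private theorem tp_cf (i : Fin 6) (hi : 3 ≤ (i : ℕ)) (k : ℕ) : cf c1 i k = ((tp_c i k : ℝ) : ℂ) := by
  unfold cf tp_c
  rw [if_neg (by omega)]
  split_ifs with h
  · rw [tp_c1, one_mul]
  · rw [tp_c1]; simp

/-- the inner sum -/
private noncomputable def tp_A (i : Fin 6) (K : ℕ) (d z : ℝ) : ℝ :=
  ∑ k ∈ Icc 1 K, tp_c i k / (k : ℝ) * gs d (Real.log k - z)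

private theorem tp_split (i : Fin 6) (hi : 3 ≤ (i : ℕ)) (e : Fin 6 → ℕ) (B : ℕ) (d y : ℝ) :
    G (fun n => ∑ a ∈ range (B + 1), bf c1 (Function.update e i a) n) (2 ^ B) d y =
      ∑ m ∈ Icc 1 (2 ^ B), tp_g i e m * (1 / (m : ℂ) *
        ((tp_A i (2 ^ B / m) d (y - Real.log m) : ℝ) : ℂ)) := by
  set S : ArithmeticFunction ℂ := ⟨fun n => if n = 0 then 0 else cf c1 i n, by simp⟩ with hS
  have hT := sum_af (cf c1 i) S (fun n hn => by
    show cf c1 i n = if n = 0 then 0 else cf c1 i n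
    rw [if_neg (by omega)]) B
  have hF : ∀ n, ∑ a ∈ range (B + 1), bf c1 (Function.update e i a) n =
      (tp_g i e * tr S (2 ^ B)) n := by
    intro n
    rw [tp_sum_apply, ← hT, Finset.mul_sum]
    congr 1
    exact Finset.sum_congr rfl fun a _ => tp_bf i e a
  unfold G
  simp only [hF]
  have h1 : ∀ n ∈ Icc 1 (2 ^ B), (tp_g i e * tr S (2 ^ B)) n / (n : ℂ) *
      ((gs d (Real.log n - y) : ℝ) : ℂ) =
      (tp_g i e * tr S (2 ^ B)) n * (1 / (n : ℂ) * ((gs d (Real.log n - y) : ℝ) : ℂ)) :=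
    fun n _ => by ring
  rw [Finset.sum_congr rfl h1,
    tp_conv (tp_g i e) (tr S (2 ^ B)) (fun n => 1 / (n : ℂ) * ((gs d (Real.log n - y) : ℝ) : ℂ))]
  refine Finset.sum_congr rfl fun m hm => ?_
  rw [mem_Icc] at hm
  congr 1
  unfold tp_A
  push_cast
  rw [Finset.mul_sum]
  refine Finset.sum_congr rfl fun k hk => ?_
  rw [mem_Icc] at hk
  have hk2 : k ≤ 2 ^ B := hk.2.trans (Nat.div_le_self _ _)
  have h2 : tr S (2 ^ B) k = ((tp_c i k : ℝ) : ℂ) := by
    rw [tr_apply, if_pos hk2]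
    show (if k = 0 then 0 else cf c1 i k) = _
    rw [if_neg (by omega), tp_cf i hi]
  have h3 : Real.log ((m : ℝ) * (k : ℝ)) - y = Real.log k - (y - Real.log m) := by
    have hm0 : (m : ℝ) ≠ 0 := by have := hm.1; positivity
    have hk0 : (k : ℝ) ≠ 0 := by have := hk.1; positivity
    rw [Real.log_mul hm0 hk0]
    ring
  have hmc : (m : ℂ) ≠ 0 := by
    have : m ≠ 0 := by omega
    exact_mod_cast this
  have hkc : (k : ℂ) ≠ 0 := by
    have : k ≠ 0 := by omega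
    exact_mod_cast this
  rw [h2, h3]
  field_simp

/-- Proof. `F n = Σ_a bf c1 (update e i a) n`. For `n <= 2^B`: `F n = Σ_{m k = n} g m * s k`, `g = Π_{j ≠ i} af (cf c1 j) (e j)`,
`s = cf c1 i` on `[1, 2^B]` (`sum_af`, distributivity), supported on `m <= Yl X ^ 5 <= X^(1/100)`, `Σ |g m| <= X^(1/50)` (crude). So
`G F (2^B) δ y = Σ_m g m/m Σ_{k <= 2^B/m} s k/k gs δ (log k - (y - log m))`; the inner sum is `1` or `y - log m` up to `X^(-1/4)` by `ti`
(`z = y - log m >= log X/2`, `exp(z+1) <= 8 X/m <= ⌊2^B/m⌋`), the same for `δ` and `δ1`. -/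
theorem tp : ∃ X0 : ℝ, 10 ≤ X0 ∧ ∀ X : ℝ, X0 ≤ X → ∀ (B : ℕ) (i : Fin 6) (e : Fin 6 → ℕ) (δ δ1 y : ℝ),
    16 * X ≤ 2 ^ B → (2 : ℝ) ^ B ≤ 2 ^ 20 * X → 3 ≤ (i : ℕ) → Sh X i e →
    X ^ (-(1 : ℝ) / 200) ≤ δ → δ ≤ 1 / Real.log X → X ^ (-(1 : ℝ) / 200) ≤ δ1 → δ1 ≤ 1 / Real.log X →
    Real.log X ≤ y → y ≤ Real.log X + 1 →
    ‖G (fun n => ∑ a ∈ range (B + 1), bf c1 (Function.update e i a) n) (2 ^ B) δ y -
      G (fun n => ∑ a ∈ range (B + 1), bf c1 (Function.update e i a) n) (2 ^ B) δ1 y‖ ≤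
      X ^ (-(1 : ℝ) / 8) := by
  obtain ⟨X0, hX0, hti⟩ := ti
  obtain ⟨X1, hX1⟩ := Filter.eventually_atTop.1 tp_large
  refine ⟨max X0 X1, le_max_of_le_left hX0, fun X hX B i e δ δ1 y hB1 hB2 hi hsh hδ hδ' hδ1 hδ1'
    hy hy' => ?_⟩
  obtain ⟨hl1, hl2, hl3⟩ := hX1 X ((le_max_right _ _).trans hX)
  have hti := hti X ((le_max_left _ _).trans hX)
  have hXp : (0 : ℝ) < X := by linarith
  have hX1' : (1 : ℝ) ≤ X := by linarith
  have hlog0 : 0 ≤ Real.log X := Real.log_nonneg hX1'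
  have hlog1 : 1 ≤ Real.log X := by
    rw [Real.le_log_iff_exp_le hXp]
    have := Real.exp_one_lt_d9
    linarith
  -- the size of the short part
  set σ : ℕ := ∑ j ∈ univ.erase i, e j with hσ
  have hM : ((2 : ℝ) ^ σ) ≤ X ^ ((1 : ℝ) / 100) := by
    have h1 : ((2 : ℝ) ^ σ) ≤ (Yl X) ^ 5 := by
      rw [hσ, ← Finset.prod_pow_eq_pow_sum]
      have h2 : ∏ j ∈ univ.erase i, (2 : ℝ) ^ e j ≤ ∏ _j ∈ univ.erase i, Yl X :=
        Finset.prod_le_prod (fun j _ => by positivity)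
          fun j hj => (hsh j (Finset.ne_of_mem_erase hj)).le
      rw [Finset.prod_const, Finset.card_erase_of_mem (Finset.mem_univ i), Finset.card_univ,
        Fintype.card_fin] at h2
      exact h2
    refine h1.trans ?_
    unfold Yl
    rw [← Real.exp_nat_mul, Real.rpow_def_of_pos hXp, Real.exp_le_exp]
    push_cast
    linarith
  have hσl : (σ : ℝ) ≤ Real.log X := by
    have h1 := Real.log_le_log (by positivity) hM
    rw [Real.log_pow, Real.log_rpow hXp] at h1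
    have h2 := Real.log_two_gt_d9
    have h3 : (0 : ℝ) ≤ σ := Nat.cast_nonneg σ
    nlinarith
  -- bounds for `g`
  have hg1 : ∀ m, tp_g i e m ≠ 0 → 1 ≤ m ∧ m ≤ 2 ^ σ := fun m hm => by
    obtain ⟨h1, h2, -⟩ := mvp_supp c1 e (univ.erase i) m hm
    exact ⟨h1, h2⟩
  have hg2 : ∀ m, 1 ≤ m → m ≤ 2 ^ σ → ‖tp_g i e m‖ ≤ (1 + Real.log X) ^ 5 *
      (X ^ ((1 : ℝ) / 100)) ^ 5 := by
    intro m hm1 hm2
    have h1 := mvp_bound c1 e (univ.erase i) m
    have h5 : (univ.erase i : Finset (Fin 6)).card = 5 := by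
      rw [Finset.card_erase_of_mem (Finset.mem_univ i), Finset.card_univ, Fintype.card_fin]
    rw [h5, ← hσ] at h1
    refine h1.trans ?_
    have h2 : ((((ArithmeticFunction.zeta : ArithmeticFunction ℕ) ^ 5) m : ℕ) : ℝ) ≤ (m : ℝ) ^ 5 := by
      exact_mod_cast tp_zeta 5 m hm1
    have h3 : (m : ℝ) ≤ X ^ ((1 : ℝ) / 100) := by
      refine le_trans ?_ hM
      exact_mod_cast hm2
    have h4 : (0 : ℝ) ≤ σ := Nat.cast_nonneg σ
    have h6 : (0 : ℝ) ≤ m := Nat.cast_nonneg m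
    refine mul_le_mul ?_ (h2.trans (pow_le_pow_left₀ h6 h3 5)) (by positivity) (by positivity)
    exact pow_le_pow_left₀ (by linarith) (by linarith) 5
  -- the inner sums
  have hin : ∀ m, 1 ≤ m → m ≤ 2 ^ σ →
      |tp_A i (2 ^ B / m) δ (y - Real.log m) - tp_A i (2 ^ B / m) δ1 (y - Real.log m)| ≤
        2 * X ^ (-(1 : ℝ) / 4) := by
    intro m hm1 hm2
    have hm0 : (0 : ℝ) < m := by exact_mod_cast hm1
    have hmX : (m : ℝ) ≤ X ^ ((1 : ℝ) / 100) := by
      refine le_trans ?_ hM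
      exact_mod_cast hm2
    have hml : Real.log m ≤ Real.log X / 100 := by
      have h1 := Real.log_le_log hm0 hmX
      rw [Real.log_rpow hXp] at h1
      linarith
    have hml0 : 0 ≤ Real.log m := Real.log_nonneg (by exact_mod_cast hm1)
    have hmX' : (m : ℝ) ≤ X := by
      refine hmX.trans ?_
      calc X ^ ((1 : ℝ) / 100) ≤ X ^ (1 : ℝ) := Real.rpow_le_rpow_of_exponent_le hX1' (by norm_num)
        _ = X := Real.rpow_one X
    set z := y - Real.log m with hz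
    set K : ℕ := 2 ^ B / m with hK
    have hKl : (2 : ℝ) ^ B / m - 1 ≤ K := by
      have h1 : (2 : ℝ) ^ B / m < K + 1 := by
        have := Nat.lt_floor_add_one ((2 : ℝ) ^ B / m)
        have h2 : ⌊(2 : ℝ) ^ B / m⌋₊ = K := by
          rw [hK]
          have := Nat.floor_div_natCast ((2 : ℝ) ^ B) m
          rw [this]
          have h3 : ⌊(2 : ℝ) ^ B⌋₊ = 2 ^ B := by
            have h4 : ((2 : ℝ) ^ B) = ((2 ^ B : ℕ) : ℝ) := by push_cast; rfl
            rw [h4, Nat.floor_natCast]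
          rw [h3]
        rw [← h2]
        exact this
      linarith
    have hKu : (K : ℝ) ≤ X ^ 3 := by
      have h1 : (K : ℝ) ≤ 2 ^ B := by
        have h2 : K ≤ 2 ^ B := Nat.div_le_self _ _
        exact_mod_cast h2
      have h2 : (1024 : ℝ) * 1024 ≤ X * X := mul_le_mul hl3 hl3 (by norm_num) hXp.le
      have h3 : (2 : ℝ) ^ 20 * X ≤ X * X * X :=
        mul_le_mul_of_nonneg_right (by norm_num at h2 ⊢; linarith) hXp.le
      calc (K : ℝ) ≤ 2 ^ 20 * X := h1.trans hB2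
        _ ≤ X * X * X := h3
        _ = X ^ 3 := by ring
    have hexp : Real.exp (z + 1) ≤ K := by
      have h1 : Real.exp (z + 1) = Real.exp (y + 1) / m := by
        rw [hz, show y - Real.log m + 1 = (y + 1) - Real.log m by ring, Real.exp_sub,
          Real.exp_log hm0]
      have h2 : Real.exp (y + 1) ≤ 8 * X := by
        have h3 : Real.exp (y + 1) ≤ Real.exp (Real.log X + 2) := Real.exp_le_exp.2 (by linarith)
        have h4 : Real.exp (Real.log X + 2) = X * (Real.exp 1 * Real.exp 1) := by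
          rw [Real.exp_add, Real.exp_log hXp, ← Real.exp_add]
          norm_num
        have h5 := Real.exp_one_lt_d9
        have h6 := Real.exp_pos 1
        have h7 : Real.exp 1 * Real.exp 1 ≤ 8 := by nlinarith
        rw [h4] at h3
        nlinarith
      have h8 : 1 ≤ X / m := by rw [le_div_iff₀ hm0]; linarith
      have h9 : Real.exp (y + 1) / m ≤ 8 * (X / m) := by
        rw [← mul_div_assoc]
        exact div_le_div_of_nonneg_right h2 hm0.le
      have h10 : 16 * (X / m) ≤ (2 : ℝ) ^ B / m := by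
        rw [← mul_div_assoc]
        exact div_le_div_of_nonneg_right hB1 hm0.le
      rw [h1]
      linarith
    have hz1 : Real.log X / 2 ≤ z := by rw [hz]; linarith
    have hz2 : z ≤ 2 * Real.log X := by rw [hz]; linarith
    obtain ⟨a1, a2⟩ := hti K δ z hδ hδ' hz1 hz2 hexp hKu
    obtain ⟨b1, b2⟩ := hti K δ1 z hδ1 hδ1' hz1 hz2 hexp hKu
    have key : ∀ (u v w ε : ℝ), |u - w| ≤ ε → |v - w| ≤ ε → |u - v| ≤ 2 * ε := by
      intro u v w ε h1 h2
      rw [abs_le] at h1 h2 ⊢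
      constructor <;> linarith [h1.1, h1.2, h2.1, h2.2]
    unfold tp_A tp_c
    by_cases h3 : (i : ℕ) = 3
    · simp only [if_pos h3]
      exact key _ _ _ _ a2 b2
    · simp only [if_neg h3]
      exact key _ _ _ _ a1 b1
  -- the sum
  rw [tp_split i hi, tp_split i hi, ← Finset.sum_sub_distrib]
  have hterm : ∀ m ∈ Icc 1 (2 ^ B), ‖tp_g i e m * (1 / (m : ℂ) *
        ((tp_A i (2 ^ B / m) δ (y - Real.log m) : ℝ) : ℂ)) - tp_g i e m * (1 / (m : ℂ) *
        ((tp_A i (2 ^ B / m) δ1 (y - Real.log m) : ℝ) : ℂ))‖ ≤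
      if m ∈ Icc 1 (2 ^ σ) then (1 + Real.log X) ^ 5 * (X ^ ((1 : ℝ) / 100)) ^ 5 *
        (2 * X ^ (-(1 : ℝ) / 4)) else 0 := by
    intro m hm
    rw [mem_Icc] at hm
    by_cases hg : tp_g i e m = 0
    · rw [hg, zero_mul, zero_mul, sub_zero, norm_zero]
      split_ifs
      · positivity
      · exact le_rfl
    · obtain ⟨h1, h2⟩ := hg1 m hg
      rw [if_pos (mem_Icc.2 ⟨h1, h2⟩)]
      have h3 : tp_g i e m * (1 / (m : ℂ) *
        ((tp_A i (2 ^ B / m) δ (y - Real.log m) : ℝ) : ℂ)) - tp_g i e m * (1 / (m : ℂ) *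
        ((tp_A i (2 ^ B / m) δ1 (y - Real.log m) : ℝ) : ℂ)) = tp_g i e m * (1 / (m : ℂ) *
        ((tp_A i (2 ^ B / m) δ (y - Real.log m) - tp_A i (2 ^ B / m) δ1 (y - Real.log m) : ℝ) :
          ℂ)) := by
        push_cast
        ring
      rw [h3, norm_mul, norm_mul, Complex.norm_real, Real.norm_eq_abs]
      have h4 : ‖1 / (m : ℂ)‖ ≤ 1 := by
        rw [norm_div, norm_one, Complex.norm_natCast]
        have : (1 : ℝ) ≤ m := by exact_mod_cast h1
        exact div_le_one_of_le₀ this (by positivity)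
      refine mul_le_mul (hg2 m h1 h2) ?_ (by positivity) (by positivity)
      calc ‖1 / (m : ℂ)‖ * _ ≤ 1 * (2 * X ^ (-(1 : ℝ) / 4)) :=
            mul_le_mul h4 (hin m h1 h2) (abs_nonneg _) zero_le_one
        _ = _ := one_mul _
  refine (norm_sum_le _ _).trans ((Finset.sum_le_sum hterm).trans ?_)
  rw [← Finset.sum_filter, Finset.sum_const, nsmul_eq_mul]
  have hcard : (((Icc 1 (2 ^ B)).filter (fun m => m ∈ Icc 1 (2 ^ σ))).card : ℝ) ≤
      X ^ ((1 : ℝ) / 100) := by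
    refine le_trans ?_ hM
    have h1 : ((Icc 1 (2 ^ B)).filter (fun m => m ∈ Icc 1 (2 ^ σ))).card ≤ 2 ^ σ := by
      calc _ ≤ (Icc 1 (2 ^ σ)).card := Finset.card_le_card fun m hm => (mem_filter.1 hm).2
        _ = 2 ^ σ := by rw [Nat.card_Icc, Nat.add_sub_cancel]
    exact_mod_cast h1
  have hXc : (0 : ℝ) ≤ X ^ ((1 : ℝ) / 100) := by positivity
  have hXq : (0 : ℝ) ≤ X ^ (-(1 : ℝ) / 4) := by positivity
  calc (((Icc 1 (2 ^ B)).filter (fun m => m ∈ Icc 1 (2 ^ σ))).card : ℝ) *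
        ((1 + Real.log X) ^ 5 * (X ^ ((1 : ℝ) / 100)) ^ 5 * (2 * X ^ (-(1 : ℝ) / 4)))
      ≤ X ^ ((1 : ℝ) / 100) *
        ((1 + Real.log X) ^ 5 * (X ^ ((1 : ℝ) / 100)) ^ 5 * (2 * X ^ (-(1 : ℝ) / 4))) :=
        mul_le_mul_of_nonneg_right hcard (by positivity)
    _ = (2 * (1 + Real.log X) ^ 5) * ((X ^ ((1 : ℝ) / 100)) ^ 6 * X ^ (-(1 : ℝ) / 4)) := by ring
    _ ≤ X ^ ((13 : ℝ) / 200) * ((X ^ ((1 : ℝ) / 100)) ^ 6 * X ^ (-(1 : ℝ) / 4)) :=
        mul_le_mul_of_nonneg_right hl2 (by positivity)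
    _ = X ^ (-(1 : ℝ) / 8) := by
        rw [← Real.rpow_natCast (X ^ ((1 : ℝ) / 100)) 6, ← Real.rpow_mul hXp.le,
          ← Real.rpow_add hXp, ← Real.rpow_add hXp]
        norm_num

end Pool.Agent.H42.HO
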