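import Pool.Agent.H42.HO.Dec
import Pool.Agent.H42.HO.Box
import Pool.Agent.H42.HO.Tl
import Pool.Agent.H42.HO.Tp

/-!
# H42 HO, Sum: the two averages of `Λ` are close (helper11)
-/

set_option autoImplicit false

namespace Pool.Agent.H42.HO

open Finset Pool.Agent.H43.SI

private theorem sm_add (f g : ℕ → ℂ) (N : ℕ) (δ y : ℝ) :
    G (fun n => f n + g n) N δ y = G f N δ y + G g N δ y := by
  unfold G
  rw [← Finset.sum_add_distrib]
  refine Finset.sum_congr rfl fun n _ => ?_
  ring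

private theorem sm_sum {ι : Type*} (s : Finset ι) (c : ι → ℂ) (f : ι → ℕ → ℂ) (N : ℕ) (δ y : ℝ) :
    G (fun n => ∑ e ∈ s, c e * f e n) N δ y = ∑ e ∈ s, c e * G (f e) N δ y := by
  unfold G
  rw [Finset.sum_congr rfl (fun e _ => Finset.mul_sum _ _ _ : ∀ e ∈ s, c e * ∑ n ∈ Icc 1 N, f e n / n *
    ((gs δ (Real.log n - y) : ℝ) : ℂ) = ∑ n ∈ Icc 1 N, c e * (f e n / n *
    ((gs δ (Real.log n - y) : ℝ) : ℂ))), Finset.sum_comm]
  refine Finset.sum_congr rfl fun n _ => ?_
  rw [Finset.sum_div, Finset.sum_mul]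
  refine Finset.sum_congr rfl fun e _ => ?_
  ring

private theorem sm_wt (e : Fin 6 → ℕ) : ‖wt e‖ ≤ 7 := by
  unfold wt
  split_ifs
  · norm_num
  · norm_num
  · norm_num
  · norm_num

private theorem sm_card (b : ℕ) : (boxes b (3 * b + 10)).card = (b + 1) ^ 3 * (3 * b + 11) ^ 3 := by
  unfold boxes
  rw [Fintype.card_piFinset, Fin.prod_univ_six]
  have e0 : (((0 : Fin 6) : ℕ) < 3) := by decide
  have e1 : (((1 : Fin 6) : ℕ) < 3) := by decide
  have e2 : (((2 : Fin 6) : ℕ) < 3) := by decide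
  have e3 : ¬ (((3 : Fin 6) : ℕ) < 3) := by decide
  have e4 : ¬ (((4 : Fin 6) : ℕ) < 3) := by decide
  have e5 : ¬ (((5 : Fin 6) : ℕ) < 3) := by decide
  rw [if_pos e0, if_pos e1, if_pos e2, if_neg e3, if_neg e4, if_neg e5, card_range, card_range]
  ring

private theorem sm_b {X : ℝ} (hX : 0 < X) (hL : 100 ≤ Real.log X) (b : ℕ) (hb : (2 : ℝ) ^ (3 * b) ≤ 128 * X) :
    ((b : ℝ) + 1) * (3 * b + 11) ≤ (Real.log X) ^ 2 ∧ 3 * (b : ℝ) + 11 ≤ 2 * Real.log X := by
  have h1 : Real.log ((2 : ℝ) ^ (3 * b)) ≤ Real.log (128 * X) := Real.log_le_log (by positivity) hb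
  rw [Real.log_pow, Real.log_mul (by norm_num) hX.ne', show (128 : ℝ) = 2 ^ 7 by norm_num, Real.log_pow] at h1
  push_cast at h1
  have h2 := Real.log_two_gt_d9
  have h3 := Real.log_two_lt_d9
  have hb0 : (0 : ℝ) ≤ b := Nat.cast_nonneg b
  have h4 : 3 * (b : ℝ) * 0.69 ≤ 7 * 0.7 + Real.log X := by
    have : 3 * (b : ℝ) * 0.69 ≤ 3 * b * Real.log 2 := by
      apply mul_le_mul_of_nonneg_left _ (by positivity)
      linarith
    linarith
  set L := Real.log X
  have h5 : (b : ℝ) ≤ 0.49 * L + 2.4 := by linarith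
  constructor
  · have h6 : (b : ℝ) + 1 ≤ 0.55 * L := by linarith
    have h7 : 3 * (b : ℝ) + 11 ≤ 1.8 * L := by linarith
    have h8 : ((b : ℝ) + 1) * (3 * b + 11) ≤ (0.55 * L) * (1.8 * L) :=
      mul_le_mul h6 h7 (by positivity) (by linarith)
    nlinarith [sq_nonneg L]
  · linarith

open Classical in
/-- Proof. `A1` from `box 10`. `N' = 2^(3b+10)`, `2^14 X <= N' <= 2^17 X`. The function `Λ 1_(n <= 2^(3b)) - F1 X b` on `n <= N'` vanishes
unless `|log n - y| >= 1` (`dec`), and is at most `X^8` (`bf_crude`, number of boxes): `tl` for `δ` and `δ1`. So it is enough to treat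
`G (F1 X b) N'`: at most `(b+1)^3 (3b+11)^3 <= (log X)^7` boxes, `‖wt‖ <= 7`, `box` with `A = 10`, and `tp` for the second sum. -/
theorem sum_main : ∃ A1 X0 : ℝ, 1 ≤ A1 ∧ 10 ≤ X0 ∧ ∀ X : ℝ, X0 ≤ X → ∀ b : ℕ, 16 * X ≤ 2 ^ (3 * b) →
    (2 : ℝ) ^ (3 * b) ≤ 128 * X → ∀ δ y : ℝ, X ^ (-(1 : ℝ) / 200) ≤ δ → δ ≤ (Real.log X) ^ (-A1) →
    Real.log X ≤ y → y ≤ Real.log X + 1 →
    ‖G (fun n => ((ArithmeticFunction.vonMangoldt n : ℝ) : ℂ)) (2 ^ (3 * b)) δ y -
      G (fun n => ((ArithmeticFunction.vonMangoldt n : ℝ) : ℂ)) (2 ^ (3 * b)) ((Real.log X) ^ (-A1)) y‖ ≤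
      1 / 16 := by
  obtain ⟨A1, X1, hA1, hX1, hbox⟩ := box 10 (by norm_num)
  obtain ⟨X2, hX2, hdec⟩ := dec
  obtain ⟨X3, hX3, htl⟩ := tl
  obtain ⟨X4, hX4, hcr⟩ := bf_crude
  obtain ⟨X5, hX5, htp⟩ := tp
  have ev1 : ∀ᶠ X : ℝ in Filter.atTop, 100 ≤ Real.log X := Real.tendsto_log_atTop.eventually_ge_atTop _
  have ev2 : ∀ᶠ X : ℝ in Filter.atTop, 100 * (Real.log X) ^ 7 ≤ X := by
    have h1 := (isLittleO_log_rpow_rpow_atTop (7 : ℝ) (show (0 : ℝ) < 1 by norm_num)).def
      (show (0 : ℝ) < 1 / 100 by positivity)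
    filter_upwards [h1, Filter.eventually_ge_atTop (1 : ℝ)] with X hX hX1
    rw [Real.norm_of_nonneg (Real.rpow_nonneg (Real.log_nonneg hX1) _),
      Real.norm_of_nonneg (Real.rpow_nonneg (by linarith) _), Real.rpow_one] at hX
    have h3 : Real.log X ^ (7 : ℝ) = Real.log X ^ 7 := by
      rw [← Real.rpow_natCast]
      norm_num
    rw [h3] at hX
    linarith
  have ev3 : ∀ᶠ X : ℝ in Filter.atTop, 64 * 21 * (Real.log X) ^ 6 * X ^ (-(1 : ℝ) / 8) ≤ 1 := by
    have h1 := (isLittleO_log_rpow_rpow_atTop (6 : ℝ) (show (0 : ℝ) < 1 / 8 by norm_num)).def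
      (show (0 : ℝ) < 1 / (64 * 21) by positivity)
    filter_upwards [h1, Filter.eventually_ge_atTop (1 : ℝ)] with X hX hX1
    rw [Real.norm_of_nonneg (Real.rpow_nonneg (Real.log_nonneg hX1) _),
      Real.norm_of_nonneg (Real.rpow_nonneg (by linarith) _)] at hX
    have h3 : Real.log X ^ (6 : ℝ) = Real.log X ^ 6 := by
      rw [← Real.rpow_natCast]
      norm_num
    rw [h3] at hX
    have h4 : X ^ (-(1 : ℝ) / 8) = (X ^ ((1 : ℝ) / 8))⁻¹ := by
      rw [← Real.rpow_neg (by linarith)]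
      congr 1
      norm_num
    have h5 : 0 < X ^ ((1 : ℝ) / 8) := Real.rpow_pos_of_pos (by linarith) _
    rw [h4, ← div_eq_mul_inv, div_le_one h5]
    linarith
  obtain ⟨X6, hX6⟩ := Filter.eventually_atTop.1 (ev1.and (ev2.and ev3))
  refine ⟨A1, max X1 (max X2 (max X3 (max X4 (max X5 X6)))), hA1, hX1.trans (le_max_left _ _), ?_⟩
  intro X hX b hb1 hb2 δ y hδ0 hδ1 hy1 hy2
  have g1 : X1 ≤ X := (le_max_left _ _).trans hX
  have hX' := (le_max_right _ _).trans hX
  have g2 : X2 ≤ X := (le_max_left _ _).trans hX'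
  have hX'' := (le_max_right _ _).trans hX'
  have g3 : X3 ≤ X := (le_max_left _ _).trans hX''
  have hX3' := (le_max_right _ _).trans hX''
  have g4 : X4 ≤ X := (le_max_left _ _).trans hX3'
  have hX4' := (le_max_right _ _).trans hX3'
  have g5 : X5 ≤ X := (le_max_left _ _).trans hX4'
  have g6 : X6 ≤ X := (le_max_right _ _).trans hX4'
  obtain ⟨f1, f2, f3⟩ := hX6 X g6
  have hX10 : 10 ≤ X := hX1.trans g1
  have hX0 : 0 < X := by linarith
  set L := Real.log X with hL
  have hL0 : 0 < L := by linarith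
  obtain ⟨hK2, hb11⟩ := sm_b hX0 f1 b hb2
  set δ1 := L ^ (-A1) with hδ1d
  have hδ11 : δ1 ≤ 1 / L := by
    rw [hδ1d, one_div, ← Real.rpow_neg_one]
    exact Real.rpow_le_rpow_of_exponent_le (by linarith) (by linarith)
  have hδ10 : X ^ (-(1 : ℝ) / 200) ≤ δ1 := hδ0.trans hδ1
  have hδL : δ ≤ 1 / L := hδ1.trans hδ11
  -- numbers of boxes
  set K : ℝ := (((boxes b (3 * b + 10)).card : ℕ) : ℝ) with hK
  have hKL : K ≤ L ^ 6 := by
    rw [hK, sm_card]
    push_cast
    calc ((b : ℝ) + 1) ^ 3 * (3 * b + 11) ^ 3 = (((b : ℝ) + 1) * (3 * b + 11)) ^ 3 := by ring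
      _ ≤ (L ^ 2) ^ 3 := pow_le_pow_left₀ (by positivity) hK2 3
      _ = L ^ 6 := by ring
  have hK0 : 0 ≤ K := Nat.cast_nonneg _
  set N' := 2 ^ (3 * b + 10) with hN'
  have hN'1 : ((N' : ℕ) : ℝ) ≤ 2 ^ 20 * X := by
    rw [hN']
    push_cast
    rw [pow_add]
    nlinarith
  have hN0 : 2 ^ (3 * b) ≤ N' := Nat.pow_le_pow_right (by norm_num) (by omega)
  have hN'2 : 2 ^ 14 * X ≤ ((N' : ℕ) : ℝ) := by
    rw [hN']
    push_cast
    rw [pow_add]
    nlinarith
  set Lm : ℕ → ℂ := fun n => ((ArithmeticFunction.vonMangoldt n : ℝ) : ℂ) with hLm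
  set Lt : ℕ → ℂ := fun n => if n ≤ 2 ^ (3 * b) then Lm n else 0 with hLt
  set D : ℕ → ℂ := fun n => Lt n - F1 X b n with hD
  have hG0 : ∀ d : ℝ, G Lm (2 ^ (3 * b)) d y = G D N' d y + G (F1 X b) N' d y := by
    intro d
    rw [← sm_add]
    have h1 : (fun n => D n + F1 X b n) = Lt := by
      funext n
      rw [hD]
      ring
    rw [h1]
    unfold G
    have h2 : ∀ n ∈ Icc 1 N', n ∉ Icc 1 (2 ^ (3 * b)) →
        Lt n / n * ((gs d (Real.log n - y) : ℝ) : ℂ) = 0 := by
      intro n hn hn2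
      have h3 : ¬ n ≤ 2 ^ (3 * b) := by
        intro h
        exact hn2 (mem_Icc.2 ⟨(mem_Icc.1 hn).1, h⟩)
      rw [hLt]
      simp only [if_neg h3, zero_div, zero_mul]
    rw [← Finset.sum_subset (Finset.Icc_subset_Icc_right hN0) h2]
    refine Finset.sum_congr rfl fun n hn => ?_
    rw [hLt]
    simp only [if_pos (mem_Icc.1 hn).2]
  -- bound of the box functions
  have hei : ∀ e ∈ boxes b (3 * b + 10), ∀ i, e i ≤ 3 * b + 10 := by
    intro e he i
    have h1 := Fintype.mem_piFinset.1 he i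
    split_ifs at h1
    · rw [mem_range] at h1
      omega
    · rw [mem_range] at h1
      omega
  have hei3 : ∀ e ∈ boxes b (3 * b + 10), ∀ i : Fin 6, (i : ℕ) < 3 → e i ≤ b := by
    intro e he i hi
    have h1 := Fintype.mem_piFinset.1 he i
    rw [if_pos hi, mem_range] at h1
    omega
  have hcast : ∀ k : ℕ, k ≤ 3 * b + 10 → (k : ℝ) ≤ 10 * L := by
    intro k hk
    have h1 : (k : ℝ) ≤ 3 * b + 10 := by exact_mod_cast hk
    linarith
  have hF1 : ∀ n ∈ Icc 1 N', ‖F1 X b n‖ ≤ 49 * L ^ 7 * X ^ 6 := by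
    intro n hn
    have hnX : (n : ℝ) ≤ 2 ^ 20 * X := by
      have h1 : (n : ℝ) ≤ (N' : ℕ) := by exact_mod_cast (mem_Icc.1 hn).2
      exact h1.trans hN'1
    have hX6 : (0 : ℝ) ≤ X ^ 6 := by positivity
    unfold F1
    refine (norm_add_le _ _).trans ?_
    have p1 : ‖∑ e ∈ (boxes b (3 * b + 10)).filter (fun e => Qm X e ∧ ∀ i : Fin 6, 3 ≤ (i : ℕ) → ¬ Sh X i e),
        wt e * bf c1 e n‖ ≤ K * (7 * X ^ 6) := by
      refine (norm_sum_le _ _).trans ?_
      have h1 : ∀ e ∈ (boxes b (3 * b + 10)).filter (fun e => Qm X e ∧ ∀ i : Fin 6, 3 ≤ (i : ℕ) → ¬ Sh X i e),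
          ‖wt e * bf c1 e n‖ ≤ 7 * X ^ 6 := by
        intro e he
        rw [norm_mul]
        refine mul_le_mul (sm_wt e) (hcr X g4 e n (fun i => hcast _ (hei e (Finset.mem_filter.1 he).1 i)) hnX)
          (norm_nonneg _) (by norm_num)
      refine (Finset.sum_le_card_nsmul _ _ _ h1).trans ?_
      rw [nsmul_eq_mul]
      refine mul_le_mul_of_nonneg_right ?_ (by positivity)
      rw [hK]
      exact_mod_cast Finset.card_filter_le _ _
    have p2 : ‖∑ i ∈ ({3, 4, 5} : Finset (Fin 6)),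
        ∑ e ∈ (boxes b (3 * b + 10)).filter (fun e => e i = 0 ∧ Sh X i e),
        wt (Function.update e i 1) * ∑ a ∈ range (3 * b + 11), bf c1 (Function.update e i a) n‖ ≤
        3 * (K * (7 * ((3 * b + 11) * X ^ 6))) := by
      refine (norm_sum_le _ _).trans ?_
      have h0 : ∀ i ∈ ({3, 4, 5} : Finset (Fin 6)),
          ‖∑ e ∈ (boxes b (3 * b + 10)).filter (fun e => e i = 0 ∧ Sh X i e),
          wt (Function.update e i 1) * ∑ a ∈ range (3 * b + 11), bf c1 (Function.update e i a) n‖ ≤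
          K * (7 * ((3 * b + 11) * X ^ 6)) := by
        intro i _
        refine (norm_sum_le _ _).trans ?_
        have h1 : ∀ e ∈ (boxes b (3 * b + 10)).filter (fun e => e i = 0 ∧ Sh X i e),
            ‖wt (Function.update e i 1) * ∑ a ∈ range (3 * b + 11), bf c1 (Function.update e i a) n‖ ≤
            7 * ((3 * b + 11) * X ^ 6) := by
          intro e he
          rw [norm_mul]
          refine mul_le_mul (sm_wt _) ?_ (norm_nonneg _) (by norm_num)
          refine (norm_sum_le _ _).trans ?_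
          have h2 : ∀ a ∈ range (3 * b + 11), ‖bf c1 (Function.update e i a) n‖ ≤ X ^ 6 := by
            intro a ha
            refine hcr X g4 _ n (fun k => hcast _ ?_) hnX
            rw [mem_range] at ha
            by_cases hk : k = i
            · subst hk
              rw [Function.update_self]
              omega
            · rw [Function.update_of_ne hk]
              exact hei e (Finset.mem_filter.1 he).1 k
          refine (Finset.sum_le_card_nsmul _ _ _ h2).trans (le_of_eq ?_)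
          rw [nsmul_eq_mul, card_range]
          push_cast
          ring
        refine (Finset.sum_le_card_nsmul _ _ _ h1).trans ?_
        rw [nsmul_eq_mul]
        refine mul_le_mul_of_nonneg_right ?_ (by positivity)
        rw [hK]
        exact_mod_cast Finset.card_filter_le _ _
      refine (Finset.sum_le_card_nsmul _ _ _ h0).trans (le_of_eq ?_)
      rw [nsmul_eq_mul]
      have : (({3, 4, 5} : Finset (Fin 6)).card : ℝ) = 3 := by
        have h : ({3, 4, 5} : Finset (Fin 6)).card = 3 := by decide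
        rw [h]
        norm_num
      rw [this]
    refine (add_le_add p1 p2).trans ?_
    have q1 : K * (7 * X ^ 6) ≤ L ^ 6 * (7 * X ^ 6) := mul_le_mul_of_nonneg_right hKL (by positivity)
    have q2 : 3 * (K * (7 * ((3 * b + 11) * X ^ 6))) ≤ 3 * (L ^ 6 * (7 * ((2 * L) * X ^ 6))) := by
      refine mul_le_mul_of_nonneg_left ?_ (by norm_num)
      refine mul_le_mul hKL ?_ (by positivity) (by positivity)
      refine mul_le_mul_of_nonneg_left ?_ (by norm_num)
      exact mul_le_mul_of_nonneg_right hb11 (by positivity)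
    have q3 : L ^ 6 * (7 * X ^ 6) ≤ 7 * L ^ 7 * X ^ 6 := by
      have : L ^ 6 ≤ L ^ 7 := pow_le_pow_right₀ (by linarith) (by norm_num)
      nlinarith [mul_le_mul_of_nonneg_right this hX6]
    have q4 : 3 * (L ^ 6 * (7 * ((2 * L) * X ^ 6))) = 42 * L ^ 7 * X ^ 6 := by ring
    linarith
  have hD8 : ∀ n ∈ Icc 1 N', ‖D n‖ ≤ X ^ 8 := by
    intro n hn
    have hn1 : (1 : ℝ) ≤ n := by exact_mod_cast (mem_Icc.1 hn).1
    have hnX : (n : ℝ) ≤ 2 ^ 20 * X := by
      have h1 : (n : ℝ) ≤ (N' : ℕ) := by exact_mod_cast (mem_Icc.1 hn).2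
      exact h1.trans hN'1
    have h1 : ‖Lt n‖ ≤ 2 ^ 20 * X := by
      rw [hLt]
      by_cases h : n ≤ 2 ^ (3 * b)
      · simp only [if_pos h]
        rw [hLm]
        show ‖((ArithmeticFunction.vonMangoldt n : ℝ) : ℂ)‖ ≤ 2 ^ 20 * X
        rw [Complex.norm_real, Real.norm_of_nonneg ArithmeticFunction.vonMangoldt_nonneg]
        refine ArithmeticFunction.vonMangoldt_le_log.trans ?_
        have := Real.log_le_sub_one_of_pos (show (0 : ℝ) < n by linarith)
        linarith
      · simp only [if_neg h, norm_zero]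
        positivity
    have h2 := hF1 n hn
    have h3 : ‖D n‖ ≤ 2 ^ 20 * X + 49 * L ^ 7 * X ^ 6 := (norm_sub_le _ _).trans (add_le_add h1 h2)
    refine h3.trans ?_
    have hX6 : (0 : ℝ) < X ^ 6 := by positivity
    have h4 : 49 * L ^ 7 * X ^ 6 ≤ X * X ^ 6 := mul_le_mul_of_nonneg_right (by linarith [pow_pos hL0 7]) hX6.le
    have hXbig : (2 : ℝ) ^ 20 ≤ X := by
      have h5 : (100 : ℝ) ^ 7 ≤ L ^ 7 := pow_le_pow_left₀ (by norm_num) f1 7
      have h6 : (2 : ℝ) ^ 20 ≤ 100 * (100 : ℝ) ^ 7 := by norm_num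
      linarith
    have h7 : 2 ^ 20 * X ≤ X * X := mul_le_mul_of_nonneg_right hXbig hX0.le
    have h8 : X * X ≤ X ^ 7 := by
      have : X ^ 2 ≤ X ^ 7 := pow_le_pow_right₀ (by linarith) (by norm_num)
      nlinarith
    have h9 : X * X ^ 6 = X ^ 7 := by ring
    have h10 : 2 * X ^ 7 ≤ X ^ 8 := by
      have : X ^ 8 = X * X ^ 7 := by ring
      rw [this]
      have h11 : 0 < X ^ 7 := by positivity
      nlinarith
    linarith
  have hDs : ∀ n ∈ Icc 1 N', D n ≠ 0 → 1 ≤ |Real.log n - y| := by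
    intro n hn hne
    have hn1 : (1 : ℝ) ≤ n := by exact_mod_cast (mem_Icc.1 hn).1
    have hn0 : (0 : ℝ) < n := by linarith
    by_cases h1 : X ≤ 4 * n
    · by_cases h2 : (n : ℝ) ≤ 16 * X
      · exfalso
        apply hne
        rw [hD]
        have h3 : n ≤ 2 ^ (3 * b) := by
          have : (n : ℝ) ≤ 2 ^ (3 * b) := h2.trans hb1
          exact_mod_cast this
        have h4 := hdec X g2 b n hb1 hb2 h1 h2
        simp only [hLt, if_pos h3, hLm, h4, sub_self]
      · push Not at h2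
        have h3 : Real.log (16 * X) ≤ Real.log n := Real.log_le_log (by positivity) h2.le
        rw [Real.log_mul (by norm_num) hX0.ne', show (16 : ℝ) = 2 ^ 4 by norm_num, Real.log_pow] at h3
        push_cast at h3
        have h4 := Real.log_two_gt_d9
        rw [le_abs]
        left
        linarith
    · push Not at h1
      have h3 : Real.log (4 * n) ≤ Real.log X := Real.log_le_log (by positivity) h1.le
      rw [Real.log_mul (by norm_num) hn0.ne', show (4 : ℝ) = 2 ^ 2 by norm_num, Real.log_pow] at h3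
      push_cast at h3
      have h4 := Real.log_two_gt_d9
      rw [le_abs]
      right
      linarith
  have t1 : ‖G D N' δ y‖ ≤ 1 / X := htl X g3 D N' δ y hN'1 hD8 hδ0 hδL hDs
  have t2 : ‖G D N' δ1 y‖ ≤ 1 / X := htl X g3 D N' δ1 y hN'1 hD8 hδ10 hδ11 hDs
  -- the main part
  have hGF : ∀ d : ℝ, G (F1 X b) N' d y =
      ∑ e ∈ (boxes b (3 * b + 10)).filter (fun e => Qm X e ∧ ∀ i : Fin 6, 3 ≤ (i : ℕ) → ¬ Sh X i e),
        wt e * G (fun n => bf c1 e n) N' d y +
      ∑ i ∈ ({3, 4, 5} : Finset (Fin 6)),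
        ∑ e ∈ (boxes b (3 * b + 10)).filter (fun e => e i = 0 ∧ Sh X i e),
        wt (Function.update e i 1) *
          G (fun n => ∑ a ∈ range (3 * b + 11), bf c1 (Function.update e i a) n) N' d y := by
    intro d
    have h1 : F1 X b = fun n =>
        (∑ e ∈ (boxes b (3 * b + 10)).filter (fun e => Qm X e ∧ ∀ i : Fin 6, 3 ≤ (i : ℕ) → ¬ Sh X i e),
          wt e * bf c1 e n) +
        ∑ i ∈ ({3, 4, 5} : Finset (Fin 6)), 1 *
          ∑ e ∈ (boxes b (3 * b + 10)).filter (fun e => e i = 0 ∧ Sh X i e),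
          wt (Function.update e i 1) * ∑ a ∈ range (3 * b + 11), bf c1 (Function.update e i a) n := by
      funext n
      unfold F1
      congr 1
      refine Finset.sum_congr rfl fun i _ => ?_
      rw [one_mul]
    rw [h1, sm_add, sm_sum, sm_sum ({3, 4, 5} : Finset (Fin 6))]
    congr 1
    refine Finset.sum_congr rfl fun i _ => ?_
    rw [one_mul, sm_sum]
  have hmain : ‖G (F1 X b) N' δ y - G (F1 X b) N' δ1 y‖ ≤ 1 / 64 + 1 / 64 := by
    rw [hGF, hGF, add_sub_add_comm, ← Finset.sum_sub_distrib, ← Finset.sum_sub_distrib]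
    refine (norm_add_le _ _).trans (add_le_add ?_ ?_)
    · refine (norm_sum_le _ _).trans ?_
      have h1 : ∀ e ∈ (boxes b (3 * b + 10)).filter (fun e => Qm X e ∧ ∀ i : Fin 6, 3 ≤ (i : ℕ) → ¬ Sh X i e),
          ‖wt e * G (fun n => bf c1 e n) N' δ y - wt e * G (fun n => bf c1 e n) N' δ1 y‖ ≤
          7 * (1 / L ^ 10) := by
        intro e he
        obtain ⟨he1, he2, he3⟩ := Finset.mem_filter.1 he
        rw [← mul_sub, norm_mul]
        refine mul_le_mul (sm_wt e) ?_ (norm_nonneg _) (by norm_num)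
        have h2 : (1 : ℝ) / L ^ 10 = L ^ (-(10 : ℝ)) := by
          rw [Real.rpow_neg hL0.le, one_div]
          congr 1
          rw [← Real.rpow_natCast]
          norm_num
        rw [h2]
        refine hbox X g1 e he2.1 he2.2 (fun i hi => ?_) he3 N' δ y ?_ hδ0 hδ1
        · have h3 : (2 : ℝ) ^ (e i) ≤ 2 ^ b := pow_le_pow_right₀ (by norm_num) (hei3 e he1 i hi)
          refine h3.trans ?_
          have h4 : ((2 : ℝ) ^ b) ^ 3 ≤ (8 * X ^ ((1 : ℝ) / 3)) ^ 3 := by
            rw [← pow_mul, mul_comm b 3, mul_pow, ← Real.rpow_natCast (X ^ ((1 : ℝ) / 3)) 3,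
              ← Real.rpow_mul hX0.le]
            norm_num
            linarith
          exact le_of_pow_le_pow_left₀ (by norm_num) (by positivity) h4
        · have h3 : ((2 : ℝ)) ^ (∑ i, e i) ≤ ((N' : ℕ) : ℝ) := by
            refine he2.2.trans ?_
            nlinarith
          exact_mod_cast h3
      refine (Finset.sum_le_card_nsmul _ _ _ h1).trans ?_
      rw [nsmul_eq_mul]
      have h2 : ((((boxes b (3 * b + 10)).filter
          (fun e => Qm X e ∧ ∀ i : Fin 6, 3 ≤ (i : ℕ) → ¬ Sh X i e)).card : ℕ) : ℝ) ≤ L ^ 6 := by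
        refine le_trans ?_ hKL
        rw [hK]
        exact_mod_cast Finset.card_filter_le _ _
      refine (mul_le_mul_of_nonneg_right h2 (by positivity)).trans ?_
      have h3 : L ^ 6 * (7 * (1 / L ^ 10)) = 7 / L ^ 4 := by
        field_simp
      rw [h3, div_le_div_iff₀ (by positivity) (by norm_num)]
      have h4 : (100 : ℝ) ^ 4 ≤ L ^ 4 := pow_le_pow_left₀ (by norm_num) f1 4
      norm_num at h4 ⊢
      linarith
    · refine (norm_sum_le _ _).trans ?_
      have h0 : ∀ i ∈ ({3, 4, 5} : Finset (Fin 6)),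
          ‖(∑ e ∈ (boxes b (3 * b + 10)).filter (fun e => e i = 0 ∧ Sh X i e),
            wt (Function.update e i 1) *
              G (fun n => ∑ a ∈ range (3 * b + 11), bf c1 (Function.update e i a) n) N' δ y) -
            ∑ e ∈ (boxes b (3 * b + 10)).filter (fun e => e i = 0 ∧ Sh X i e),
            wt (Function.update e i 1) *
              G (fun n => ∑ a ∈ range (3 * b + 11), bf c1 (Function.update e i a) n) N' δ1 y‖ ≤
          L ^ 6 * (7 * X ^ (-(1 : ℝ) / 8)) := by
        intro i hi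
        have hi3 : 3 ≤ (i : ℕ) := by
          rw [Finset.mem_insert, Finset.mem_insert, Finset.mem_singleton] at hi
          rcases hi with rfl | rfl | rfl
          · decide
          · decide
          · decide
        rw [← Finset.sum_sub_distrib]
        refine (norm_sum_le _ _).trans ?_
        have h1 : ∀ e ∈ (boxes b (3 * b + 10)).filter (fun e => e i = 0 ∧ Sh X i e),
            ‖wt (Function.update e i 1) *
              G (fun n => ∑ a ∈ range (3 * b + 11), bf c1 (Function.update e i a) n) N' δ y -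
            wt (Function.update e i 1) *
              G (fun n => ∑ a ∈ range (3 * b + 11), bf c1 (Function.update e i a) n) N' δ1 y‖ ≤
            7 * X ^ (-(1 : ℝ) / 8) := by
          intro e he
          obtain ⟨he1, -, he3⟩ := Finset.mem_filter.1 he
          rw [← mul_sub, norm_mul]
          refine mul_le_mul (sm_wt _) ?_ (norm_nonneg _) (by norm_num)
          refine htp X g5 (3 * b + 10) i e δ δ1 y ?_ ?_ hi3 he3 hδ0 hδL hδ10 hδ11 hy1 hy2
          · refine hb1.trans ?_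
            exact pow_le_pow_right₀ (by norm_num) (by omega)
          · have := hN'1
            rw [hN'] at this
            push_cast at this
            exact this
        refine (Finset.sum_le_card_nsmul _ _ _ h1).trans ?_
        rw [nsmul_eq_mul]
        refine mul_le_mul_of_nonneg_right ?_ (by positivity)
        refine le_trans ?_ hKL
        rw [hK]
        exact_mod_cast Finset.card_filter_le _ _
      refine (Finset.sum_le_card_nsmul _ _ _ h0).trans ?_
      rw [nsmul_eq_mul]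
      have : (({3, 4, 5} : Finset (Fin 6)).card : ℝ) = 3 := by
        have h : ({3, 4, 5} : Finset (Fin 6)).card = 3 := by decide
        rw [h]
        norm_num
      rw [this]
      linarith
  rw [hG0, hG0]
  have hfin : G D N' δ y + G (F1 X b) N' δ y - (G D N' δ1 y + G (F1 X b) N' δ1 y) =
      (G D N' δ y - G D N' δ1 y) + (G (F1 X b) N' δ y - G (F1 X b) N' δ1 y) := by ring
  rw [hfin]
  have h1 : ‖G D N' δ y - G D N' δ1 y‖ ≤ 1 / X + 1 / X := (norm_sub_le _ _).trans (add_le_add t1 t2)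
  have h2 : 1 / X ≤ 1 / 64 := by
    apply one_div_le_one_div_of_le (by norm_num)
    have h5 : (100 : ℝ) ^ 7 ≤ L ^ 7 := pow_le_pow_left₀ (by norm_num) f1 7
    have h6 : (64 : ℝ) ≤ 100 * (100 : ℝ) ^ 7 := by norm_num
    linarith
  refine (norm_add_le _ _).trans ?_
  linarith

end Pool.Agent.H42.HO
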