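import Pool.Agent.H42.HO.Defs

/-!
# H42 HO, Ti: Gaussian averages of `1` and `log`
-/

set_option autoImplicit false

namespace Pool.Agent.H42.HO

open Finset

private theorem sstep (f f' : ℝ → ℝ) (D a : ℝ) (hD : 0 ≤ D) (ha : 1 ≤ a)
    (h1 : ∀ u : ℝ, a ≤ u → u ≤ a + 1 → HasDerivAt f (f' u) u)
    (h2 : ∀ u : ℝ, a ≤ u → u ≤ a + 1 → |f' u| ≤ D / u) :
    |f (a + 1) - ∫ u in a..(a + 1), f u| ≤ D / a := by
  have hc : ContinuousOn f (Set.Icc a (a + 1)) := fun u hu => (h1 u hu.1 hu.2).continuousAt.continuousWithinAt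
  have hi : IntervalIntegrable f MeasureTheory.volume a (a + 1) := by
    refine ContinuousOn.intervalIntegrable ?_
    rw [Set.uIcc_of_le (by linarith)]
    exact hc
  have e1 : f (a + 1) - ∫ u in a..(a + 1), f u = ∫ u in a..(a + 1), (f (a + 1) - f u) := by
    rw [intervalIntegral.integral_sub (by simp) hi, intervalIntegral.integral_const]
    simp
  rw [e1]
  have e2 := intervalIntegral.norm_integral_le_of_norm_le_const (a := a) (b := a + 1) (C := D / a)
    (f := fun u => f (a + 1) - f u) (fun u hu => by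
      rw [Set.uIoc_of_le (by linarith)] at hu
      have e3 := Convex.norm_image_sub_le_of_norm_hasDerivWithin_le (f := f) (f' := f')
        (s := Set.Icc a (a + 1)) (x := u) (y := a + 1) (C := D / a)
        (fun x hx => (h1 x hx.1 hx.2).hasDerivWithinAt)
        (fun x hx => by
          rw [Real.norm_eq_abs]
          refine (h2 x hx.1 hx.2).trans ?_
          exact div_le_div_of_nonneg_left hD (by linarith) hx.1)
        (convex_Icc _ _) ⟨hu.1.le, hu.2⟩ ⟨by linarith, le_refl _⟩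
      refine e3.trans ?_
      have e4 : ‖a + 1 - u‖ ≤ 1 := by
        rw [Real.norm_eq_abs, abs_le]
        constructor
        · linarith [hu.2]
        · linarith [hu.1]
      calc D / a * ‖a + 1 - u‖ ≤ D / a * 1 := by
            refine mul_le_mul_of_nonneg_left e4 (by positivity)
        _ = D / a := mul_one _)
  rw [Real.norm_eq_abs] at e2
  refine e2.trans ?_
  have : |a + 1 - a| = 1 := by
    rw [add_sub_cancel_left, abs_one]
  rw [this, mul_one]

private theorem sumint (f f' : ℝ → ℝ) (D : ℝ) (hD : 0 ≤ D) (n : ℕ)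
    (h1 : ∀ u : ℝ, 1 ≤ u → u ≤ (n : ℝ) + 1 → HasDerivAt f (f' u) u)
    (h2 : ∀ u : ℝ, 1 ≤ u → u ≤ (n : ℝ) + 1 → |f' u| ≤ D / u) :
    |∑ k ∈ Icc 1 (n + 1), f (k : ℝ) - ∫ u in (1 : ℝ)..((n : ℝ) + 1), f u| ≤
      |f 1| + D * ((harmonic n : ℚ) : ℝ) := by
  induction n with
  | zero => simp
  | succ n ih =>
    have hn : (0 : ℝ) ≤ n := Nat.cast_nonneg n
    push_cast at h1 h2 ⊢
    have ih' := ih (fun u hu hu2 => h1 u hu (by linarith)) (fun u hu hu2 => h2 u hu (by linarith))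
    have st := sstep f f' D ((n : ℝ) + 1) hD (by linarith)
      (fun u hu hu2 => h1 u (by linarith) hu2) (fun u hu hu2 => h2 u (by linarith) hu2)
    have hc : ContinuousOn f (Set.Icc 1 ((n : ℝ) + 1 + 1)) := fun u hu =>
      (h1 u hu.1 hu.2).continuousAt.continuousWithinAt
    have i1 : IntervalIntegrable f MeasureTheory.volume 1 ((n : ℝ) + 1) := by
      refine ContinuousOn.intervalIntegrable ?_
      rw [Set.uIcc_of_le (by linarith)]
      exact hc.mono (Set.Icc_subset_Icc le_rfl (by linarith))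
    have i2 : IntervalIntegrable f MeasureTheory.volume ((n : ℝ) + 1) ((n : ℝ) + 1 + 1) := by
      refine ContinuousOn.intervalIntegrable ?_
      rw [Set.uIcc_of_le (by linarith)]
      exact hc.mono (Set.Icc_subset_Icc (by linarith) le_rfl)
    have e1 := intervalIntegral.integral_add_adjacent_intervals i1 i2
    rw [← e1, Finset.sum_Icc_succ_top (by omega), harmonic_succ]
    push_cast
    have e2 : ∑ k ∈ Icc 1 (n + 1), f (k : ℝ) + f ((n : ℝ) + 1 + 1) -
        ((∫ u in (1 : ℝ)..((n : ℝ) + 1), f u) + ∫ u in ((n : ℝ) + 1)..((n : ℝ) + 1 + 1), f u) =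
        (∑ k ∈ Icc 1 (n + 1), f (k : ℝ) - ∫ u in (1 : ℝ)..((n : ℝ) + 1), f u) +
        (f ((n : ℝ) + 1 + 1) - ∫ u in ((n : ℝ) + 1)..((n : ℝ) + 1 + 1), f u) := by ring
    rw [e2]
    refine (abs_add_le _ _).trans ?_
    rw [div_eq_mul_inv] at st
    linarith

private theorem sq2pi : (2 : ℝ) ≤ Real.sqrt (2 * Real.pi) := by
  refine Real.le_sqrt_of_sq_le ?_
  have := Real.pi_gt_three
  linarith

private theorem gs_nonneg (δ v : ℝ) (hδ : 0 < δ) : 0 ≤ gs δ v := by
  unfold gs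
  have := sq2pi
  positivity

private theorem gs_deriv (δ v : ℝ) (hδ : 0 < δ) :
    HasDerivAt (gs δ) (-(v / δ ^ 2) * gs δ v) v := by
  unfold gs
  have h1 : HasDerivAt (fun v : ℝ => -(v ^ 2 / (2 * δ ^ 2))) (-(v / δ ^ 2)) v := by
    have h2 := ((hasDerivAt_pow 2 v).div_const (2 * δ ^ 2)).neg
    refine h2.congr_deriv ?_
    field_simp
    norm_num
  have h3 := (h1.exp).div_const (δ * Real.sqrt (2 * Real.pi))
  refine h3.congr_deriv ?_
  ring

private theorem gs_exp (δ v : ℝ) (hδ : 0 < δ) (hδ1 : δ ≤ 1) :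
    gs δ v * (1 + |v|) * Real.exp (-v) ≤ 4 / δ := by
  have h0 := sq2pi
  have h1 : Real.exp (-(v ^ 2 / (2 * δ ^ 2))) ≤ Real.exp (-(v ^ 2 / 2)) := by
    refine Real.exp_le_exp.2 (neg_le_neg ?_)
    refine div_le_div_of_nonneg_left (sq_nonneg v) (by positivity) ?_
    nlinarith
  have h2 : gs δ v ≤ Real.exp (-(v ^ 2 / 2)) / (δ * 2) := by
    unfold gs
    refine div_le_div₀ (Real.exp_pos _).le h1 (by positivity) ?_
    exact mul_le_mul_of_nonneg_left h0 hδ.le
  have h3 : 1 + |v| ≤ Real.exp |v| := by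
    have := Real.add_one_le_exp |v|
    linarith
  have h4 : Real.exp (-v) ≤ Real.exp |v| := Real.exp_le_exp.2 (neg_le_abs v)
  have h5 : Real.exp 2 ≤ 8 := by
    have h6 := Real.exp_one_lt_d9
    have h7 : Real.exp 2 = Real.exp 1 * Real.exp 1 := by
      rw [← Real.exp_add]
      norm_num
    rw [h7]
    have h8 := Real.exp_pos 1
    nlinarith
  calc gs δ v * (1 + |v|) * Real.exp (-v)
      ≤ Real.exp (-(v ^ 2 / 2)) / (δ * 2) * Real.exp |v| * Real.exp |v| := by
        refine mul_le_mul (mul_le_mul h2 h3 (by positivity) (by positivity)) h4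
          (Real.exp_pos _).le (by positivity)
    _ = Real.exp (-(v ^ 2 / 2) + |v| + |v|) / (δ * 2) := by
        rw [Real.exp_add, Real.exp_add]
        ring
    _ ≤ Real.exp 2 / (δ * 2) := by
        refine div_le_div_of_nonneg_right (Real.exp_le_exp.2 ?_) (by positivity)
        have h9 : v ^ 2 = |v| ^ 2 := (sq_abs v).symm
        nlinarith [sq_nonneg (|v| - 2)]
    _ ≤ 8 / (δ * 2) := div_le_div_of_nonneg_right h5 (by positivity)
    _ = 4 / δ := by
        field_simp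
        norm_num

private theorem uexp (u z : ℝ) (hu : 0 < u) :
    u⁻¹ = Real.exp (-(Real.log u - z)) * Real.exp (-z) := by
  rw [← Real.exp_add]
  have : -(Real.log u - z) + -z = -Real.log u := by ring
  rw [this, Real.exp_neg, Real.exp_log hu]

private theorem gsu (δ z u : ℝ) (hδ : 0 < δ) (hδ1 : δ ≤ 1) (hu : 1 ≤ u) :
    gs δ (Real.log u - z) * (1 + |Real.log u - z|) * u⁻¹ ≤ 4 / δ * Real.exp (-z) := by
  have h1 := gs_exp δ (Real.log u - z) hδ hδ1
  rw [uexp u z (by linarith), ← mul_assoc]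
  exact mul_le_mul_of_nonneg_right h1 (Real.exp_pos _).le

private theorem f1_deriv (δ z u : ℝ) (hδ : 0 < δ) (hu : 1 ≤ u) :
    HasDerivAt (fun u : ℝ => 1 / u * gs δ (Real.log u - z))
      (-((1 + (Real.log u - z) / δ ^ 2) * gs δ (Real.log u - z) * u⁻¹ * u⁻¹)) u := by
  have hu0 : u ≠ 0 := by linarith
  have h1 : HasDerivAt (fun u : ℝ => Real.log u - z) u⁻¹ u := (Real.hasDerivAt_log hu0).sub_const z
  have h2 := (gs_deriv δ (Real.log u - z) hδ).comp u h1
  have h3 : HasDerivAt (fun u : ℝ => 1 / u) (-(u ^ 2)⁻¹) u := by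
    have := hasDerivAt_inv hu0
    simpa only [one_div] using this
  have h4 := h3.mul h2
  refine h4.congr_deriv ?_
  simp only [Function.comp]
  field_simp
  ring

private theorem f1_bound (δ z u : ℝ) (hδ : 0 < δ) (hδ1 : δ ≤ 1) (hu : 1 ≤ u) :
    |-((1 + (Real.log u - z) / δ ^ 2) * gs δ (Real.log u - z) * u⁻¹ * u⁻¹)| ≤
      (4 / δ ^ 3 * Real.exp (-z)) / u := by
  have h0 := gs_nonneg δ (Real.log u - z) hδ
  have h1 := gsu δ z u hδ hδ1 hu
  have hd2 : 0 < δ ^ 2 := by positivity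
  have h2 : |1 + (Real.log u - z) / δ ^ 2| ≤ (1 + |Real.log u - z|) / δ ^ 2 := by
    refine (abs_add_le _ _).trans ?_
    rw [abs_one, abs_div, abs_of_pos hd2, add_div]
    have : 1 ≤ 1 / δ ^ 2 := by
      rw [le_div_iff₀ hd2]
      nlinarith
    linarith
  have hui : 0 < u⁻¹ := by positivity
  rw [abs_neg, abs_mul, abs_mul, abs_mul, abs_of_nonneg h0, abs_of_pos hui]
  calc |1 + (Real.log u - z) / δ ^ 2| * gs δ (Real.log u - z) * u⁻¹ * u⁻¹
      ≤ (1 + |Real.log u - z|) / δ ^ 2 * gs δ (Real.log u - z) * u⁻¹ * u⁻¹ := by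
        gcongr
    _ = (gs δ (Real.log u - z) * (1 + |Real.log u - z|) * u⁻¹) * (u⁻¹ / δ ^ 2) := by
        ring
    _ ≤ 4 / δ * Real.exp (-z) * (u⁻¹ / δ ^ 2) := by
        refine mul_le_mul_of_nonneg_right h1 (by positivity)
    _ = (4 / δ ^ 3 * Real.exp (-z)) / u := by
        field_simp

private theorem gsu0 (δ z u : ℝ) (hδ : 0 < δ) (hδ1 : δ ≤ 1) (hu : 1 ≤ u) :
    gs δ (Real.log u - z) * u⁻¹ ≤ 4 / δ ^ 3 * Real.exp (-z) := by
  have h0 := gs_nonneg δ (Real.log u - z) hδ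
  have h1 := gsu δ z u hδ hδ1 hu
  have hui : 0 < u⁻¹ := by positivity
  have h2 : gs δ (Real.log u - z) * u⁻¹ ≤
      gs δ (Real.log u - z) * (1 + |Real.log u - z|) * u⁻¹ := by
    refine mul_le_mul_of_nonneg_right ?_ hui.le
    have := abs_nonneg (Real.log u - z)
    nlinarith
  have h3 : 4 / δ ≤ 4 / δ ^ 3 := by
    refine div_le_div_of_nonneg_left (by norm_num) (by positivity) ?_
    calc δ ^ 3 = δ * δ ^ 2 := by ring
      _ ≤ δ * 1 := by
          refine mul_le_mul_of_nonneg_left ?_ hδ.le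
          nlinarith
      _ = δ := mul_one _
  exact h2.trans (h1.trans (mul_le_mul_of_nonneg_right h3 (Real.exp_pos _).le))

private theorem gs_int (δ : ℝ) (hδ : 0 < δ) : MeasureTheory.Integrable (gs δ) ∧ ∫ v, gs δ v = 1 := by
  have hb : 0 < 1 / (2 * δ ^ 2) := by positivity
  have e1 : gs δ = fun v => Real.exp (-(1 / (2 * δ ^ 2)) * v ^ 2) / (δ * Real.sqrt (2 * Real.pi)) := by
    funext v
    unfold gs
    congr 2
    ring
  have h2 := sq2pi
  rw [e1]
  refine ⟨(integrable_exp_neg_mul_sq hb).div_const _, ?_⟩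
  rw [MeasureTheory.integral_div, integral_gaussian]
  have e2 : Real.pi / (1 / (2 * δ ^ 2)) = δ ^ 2 * (2 * Real.pi) := by
    field_simp
  rw [e2, Real.sqrt_mul (by positivity), Real.sqrt_sq hδ.le]
  exact div_self (by positivity)

private theorem gs_tail (δ a b : ℝ) (hδ : 0 < δ) (ha : a ≤ -1) (hb : 1 ≤ b) :
    |(∫ v in a..b, gs δ v) - 1| ≤ 2 * Real.exp (-(1 / (4 * δ ^ 2))) := by
  obtain ⟨h1, h2⟩ := gs_int δ hδ
  have hs := sq2pi
  have hb4 : 0 < 1 / (4 * δ ^ 2) := by positivity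
  have h3 := MeasureTheory.setIntegral_compl (s := Set.Ioc a b) measurableSet_Ioc h1
  rw [h2] at h3
  have hh : MeasureTheory.Integrable (fun v : ℝ => Real.exp (-(1 / (4 * δ ^ 2))) /
      (δ * Real.sqrt (2 * Real.pi)) * Real.exp (-(1 / (4 * δ ^ 2)) * v ^ 2)) :=
    (integrable_exp_neg_mul_sq hb4).const_mul _
  have hle : ∀ v ∈ (Set.Ioc a b)ᶜ, gs δ v ≤ Real.exp (-(1 / (4 * δ ^ 2))) /
      (δ * Real.sqrt (2 * Real.pi)) * Real.exp (-(1 / (4 * δ ^ 2)) * v ^ 2) := by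
    intro v hv
    have hv1 : 1 ≤ v ^ 2 := by
      by_cases hva : v ≤ a
      · nlinarith
      · have : b < v := by
          by_contra hvb
          exact hv ⟨not_le.1 hva, not_lt.1 hvb⟩
        nlinarith
    unfold gs
    rw [div_mul_eq_mul_div, ← Real.exp_add]
    refine div_le_div_of_nonneg_right (Real.exp_le_exp.2 ?_) (by positivity)
    have e3 : -(v ^ 2 / (2 * δ ^ 2)) = -(1 / (4 * δ ^ 2)) * (2 * v ^ 2) := by
      field_simp
      norm_num
    have e4 : -(1 / (4 * δ ^ 2)) + -(1 / (4 * δ ^ 2)) * v ^ 2 = -(1 / (4 * δ ^ 2)) * (1 + v ^ 2) := by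
      ring
    rw [e3, e4]
    have := mul_le_mul_of_nonneg_left (show 1 + v ^ 2 ≤ 2 * v ^ 2 by linarith) hb4.le
    linarith
  have h4 : ∫ v in (Set.Ioc a b)ᶜ, gs δ v ≤ ∫ v : ℝ, Real.exp (-(1 / (4 * δ ^ 2))) /
      (δ * Real.sqrt (2 * Real.pi)) * Real.exp (-(1 / (4 * δ ^ 2)) * v ^ 2) := by
    refine (MeasureTheory.setIntegral_mono_on h1.integrableOn hh.integrableOn
      measurableSet_Ioc.compl hle).trans ?_
    refine MeasureTheory.setIntegral_le_integral hh (Filter.Eventually.of_forall fun v => ?_)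
    show (0 : ℝ) ≤ _
    positivity
  have h5 : 0 ≤ ∫ v in (Set.Ioc a b)ᶜ, gs δ v :=
    MeasureTheory.setIntegral_nonneg measurableSet_Ioc.compl fun v _ => gs_nonneg δ v hδ
  have h6 : ∫ v : ℝ, Real.exp (-(1 / (4 * δ ^ 2))) /
      (δ * Real.sqrt (2 * Real.pi)) * Real.exp (-(1 / (4 * δ ^ 2)) * v ^ 2) ≤
      2 * Real.exp (-(1 / (4 * δ ^ 2))) := by
    rw [MeasureTheory.integral_const_mul, integral_gaussian]
    have e2 : Real.pi / (1 / (4 * δ ^ 2)) = δ ^ 2 * (2 * (2 * Real.pi)) := by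
      field_simp
      norm_num
    have e3 : Real.sqrt 2 ≤ 2 := by
      rw [Real.sqrt_le_left (by norm_num)]
      norm_num
    have e5 : Real.sqrt (δ ^ 2 * (2 * (2 * Real.pi))) =
        δ * (Real.sqrt 2 * Real.sqrt (2 * Real.pi)) := by
      rw [Real.sqrt_mul (by positivity), Real.sqrt_sq hδ.le, Real.sqrt_mul (by norm_num) (2 * Real.pi)]
    rw [e2, e5]
    have e4 : Real.exp (-(1 / (4 * δ ^ 2))) / (δ * Real.sqrt (2 * Real.pi)) *
        (δ * (Real.sqrt 2 * Real.sqrt (2 * Real.pi))) =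
        Real.sqrt 2 * Real.exp (-(1 / (4 * δ ^ 2))) := by
      field_simp
    rw [e4]
    exact mul_le_mul_of_nonneg_right e3 (Real.exp_pos _).le
  rw [intervalIntegral.integral_of_le (by linarith), abs_le]
  constructor
  · linarith
  · have := Real.exp_pos (-(1 / (4 * δ ^ 2)))
    linarith

private theorem gs_first (δ a b : ℝ) (hδ : 0 < δ) (hδ1 : δ ≤ 1) (ha : a ≤ -1) (hb : 1 ≤ b) :
    |∫ v in a..b, v * gs δ v| ≤ Real.exp (-(1 / (4 * δ ^ 2))) := by
  have hs := sq2pi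
  have h1 : ∀ v ∈ Set.uIcc a b, HasDerivAt (fun v => -(δ ^ 2 * gs δ v)) (v * gs δ v) v := by
    intro v _
    have h2 := ((gs_deriv δ v hδ).const_mul (δ ^ 2)).neg
    refine h2.congr_deriv ?_
    field_simp
  have hcont : Continuous (gs δ) := by
    unfold gs
    fun_prop
  have h3 := intervalIntegral.integral_eq_sub_of_hasDerivAt h1
    ((continuous_id.mul hcont).intervalIntegrable _ _)
  rw [h3]
  have hk : ∀ v : ℝ, 1 ≤ v ^ 2 → δ ^ 2 * gs δ v ≤ Real.exp (-(1 / (4 * δ ^ 2))) / 2 := by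
    intro v hv
    unfold gs
    have e1 : Real.exp (-(v ^ 2 / (2 * δ ^ 2))) ≤ Real.exp (-(1 / (4 * δ ^ 2))) := by
      refine Real.exp_le_exp.2 (neg_le_neg ?_)
      rw [div_le_div_iff₀ (by positivity) (by positivity)]
      have : 0 < δ ^ 2 := by positivity
      nlinarith
    have e2 : δ ^ 2 * (Real.exp (-(v ^ 2 / (2 * δ ^ 2))) / (δ * Real.sqrt (2 * Real.pi))) =
        Real.exp (-(v ^ 2 / (2 * δ ^ 2))) * (δ / Real.sqrt (2 * Real.pi)) := by
      field_simp
    rw [e2]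
    have e3 : δ / Real.sqrt (2 * Real.pi) ≤ 1 / 2 := by
      rw [div_le_div_iff₀ (by positivity) (by norm_num)]
      linarith
    calc Real.exp (-(v ^ 2 / (2 * δ ^ 2))) * (δ / Real.sqrt (2 * Real.pi))
        ≤ Real.exp (-(1 / (4 * δ ^ 2))) * (1 / 2) :=
          mul_le_mul e1 e3 (by positivity) (Real.exp_pos _).le
      _ = Real.exp (-(1 / (4 * δ ^ 2))) / 2 := by ring
  have k1 := hk a (by nlinarith)
  have k2 := hk b (by nlinarith)
  have k3 : 0 ≤ δ ^ 2 * gs δ a := mul_nonneg (by positivity) (gs_nonneg δ a hδ)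
  have k4 : 0 ≤ δ ^ 2 * gs δ b := mul_nonneg (by positivity) (gs_nonneg δ b hδ)
  rw [abs_le]
  constructor
  · linarith
  · linarith

private theorem f2_deriv (δ z u : ℝ) (hδ : 0 < δ) (hu : 1 ≤ u) :
    HasDerivAt (fun u : ℝ => Real.log u / u * gs δ (Real.log u - z))
      (u⁻¹ * (1 / u * gs δ (Real.log u - z)) + Real.log u *
        (-((1 + (Real.log u - z) / δ ^ 2) * gs δ (Real.log u - z) * u⁻¹ * u⁻¹))) u := by
  have hu0 : u ≠ 0 := by linarith
  have h1 := (Real.hasDerivAt_log hu0).mul (f1_deriv δ z u hδ hu)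
  have e : (fun u : ℝ => Real.log u / u * gs δ (Real.log u - z)) =
      fun u => Real.log u * (1 / u * gs δ (Real.log u - z)) := by
    funext u
    ring
  rw [e]
  exact h1

private theorem f2_bound (δ z u M : ℝ) (hδ : 0 < δ) (hδ1 : δ ≤ 1) (hu : 1 ≤ u)
    (hM : Real.log u ≤ M) :
    |u⁻¹ * (1 / u * gs δ (Real.log u - z)) + Real.log u *
        (-((1 + (Real.log u - z) / δ ^ 2) * gs δ (Real.log u - z) * u⁻¹ * u⁻¹))| ≤
      ((1 + M) * (4 / δ ^ 3 * Real.exp (-z))) / u := by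
  have h0 := gs_nonneg δ (Real.log u - z) hδ
  have h1 := f1_bound δ z u hδ hδ1 hu
  have h2 := gsu0 δ z u hδ hδ1 hu
  have hl : 0 ≤ Real.log u := Real.log_nonneg hu
  have hui : 0 < u⁻¹ := by positivity
  have hD : 0 ≤ 4 / δ ^ 3 * Real.exp (-z) := by positivity
  refine (abs_add_le _ _).trans ?_
  have h3 : |u⁻¹ * (1 / u * gs δ (Real.log u - z))| ≤ (4 / δ ^ 3 * Real.exp (-z)) * u⁻¹ := by
    have e1 : u⁻¹ * (1 / u * gs δ (Real.log u - z)) = gs δ (Real.log u - z) * u⁻¹ * u⁻¹ := by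
      ring
    rw [e1, abs_of_nonneg (by positivity)]
    exact mul_le_mul_of_nonneg_right h2 hui.le
  have h4 : |Real.log u * (-((1 + (Real.log u - z) / δ ^ 2) * gs δ (Real.log u - z) * u⁻¹ * u⁻¹))| ≤
      M * ((4 / δ ^ 3 * Real.exp (-z)) * u⁻¹) := by
    rw [abs_mul, abs_of_nonneg hl]
    rw [div_eq_mul_inv (4 / δ ^ 3 * Real.exp (-z)) u] at h1
    exact mul_le_mul hM h1 (abs_nonneg _) (hl.trans hM)
  have e2 : ((1 + M) * (4 / δ ^ 3 * Real.exp (-z))) / u =
      (4 / δ ^ 3 * Real.exp (-z)) * u⁻¹ + M * ((4 / δ ^ 3 * Real.exp (-z)) * u⁻¹) := by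
    ring
  rw [e2]
  exact add_le_add h3 h4

private theorem gs_cont (δ : ℝ) : Continuous (gs δ) := by
  unfold gs
  fun_prop

private theorem i1 (δ z y : ℝ) (hy : 1 ≤ y) :
    ∫ u in (1 : ℝ)..y, 1 / u * gs δ (Real.log u - z) = ∫ v in (-z)..(Real.log y - z), gs δ v := by
  have h := intervalIntegral.integral_comp_mul_deriv (a := 1) (b := y)
    (f := fun u => Real.log u - z) (f' := fun u => u⁻¹) (g := gs δ)
    (fun x hx => by
      rw [Set.uIcc_of_le hy] at hx
      exact (Real.hasDerivAt_log (by linarith [hx.1])).sub_const z)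
    (by
      intro x hx
      rw [Set.uIcc_of_le hy] at hx
      exact (continuousAt_inv₀ (by linarith [hx.1])).continuousWithinAt)
    (gs_cont δ)
  have e : (fun u : ℝ => 1 / u * gs δ (Real.log u - z)) =
      fun x => (gs δ ∘ fun u => Real.log u - z) x * x⁻¹ := by
    funext u
    simp only [Function.comp]
    ring
  rw [e, h, Real.log_one, zero_sub]

private theorem i2 (δ z y : ℝ) (hy : 1 ≤ y) :
    ∫ u in (1 : ℝ)..y, Real.log u / u * gs δ (Real.log u - z) =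
      (∫ v in (-z)..(Real.log y - z), v * gs δ v) +
        z * ∫ v in (-z)..(Real.log y - z), gs δ v := by
  have h := intervalIntegral.integral_comp_mul_deriv (a := 1) (b := y)
    (f := fun u => Real.log u - z) (f' := fun u => u⁻¹) (g := fun w => w * gs δ w + z * gs δ w)
    (fun x hx => by
      rw [Set.uIcc_of_le hy] at hx
      exact (Real.hasDerivAt_log (by linarith [hx.1])).sub_const z)
    (by
      intro x hx
      rw [Set.uIcc_of_le hy] at hx
      exact (continuousAt_inv₀ (by linarith [hx.1])).continuousWithinAt)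
    ((continuous_id.mul (gs_cont δ)).add (continuous_const.mul (gs_cont δ)))
  have e : (fun u : ℝ => Real.log u / u * gs δ (Real.log u - z)) =
      fun x => ((fun w => w * gs δ w + z * gs δ w) ∘ fun u => Real.log u - z) x * x⁻¹ := by
    funext u
    simp only [Function.comp]
    ring
  have c1 : IntervalIntegrable (fun v => v * gs δ v) MeasureTheory.volume (-z) (Real.log y - z) :=
    (continuous_id.mul (gs_cont δ)).intervalIntegrable _ _
  have c2 : IntervalIntegrable (fun v => z * gs δ v) MeasureTheory.volume (-z) (Real.log y - z) :=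
    (continuous_const.mul (gs_cont δ)).intervalIntegrable _ _
  have h2 := intervalIntegral.integral_add c1 c2
  rw [e, h, Real.log_one, zero_sub, h2, intervalIntegral.integral_const_mul]

private theorem core (δ z L : ℝ) (n : ℕ) (hδ : 0 < δ) (hδ1 : δ ≤ 1) (hL : 1 ≤ L)
    (hz : 1 ≤ z) (hz2 : z ≤ 2 * L) (hK : Real.exp (z + 1) ≤ (n : ℝ) + 1)
    (hK2 : Real.log ((n : ℝ) + 1) ≤ 3 * L) :
    |∑ k ∈ Icc 1 (n + 1), 1 / (k : ℝ) * gs δ (Real.log k - z) - 1| ≤
      (1 + 3 * L) ^ 2 * (4 / δ ^ 3 * Real.exp (-z)) +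
        (1 + 4 * L) * Real.exp (-(1 / (4 * δ ^ 2))) ∧
    |∑ k ∈ Icc 1 (n + 1), Real.log k / (k : ℝ) * gs δ (Real.log k - z) - z| ≤
      (1 + 3 * L) ^ 2 * (4 / δ ^ 3 * Real.exp (-z)) +
        (1 + 4 * L) * Real.exp (-(1 / (4 * δ ^ 2))) := by
  have hn0 : (0 : ℝ) ≤ n := Nat.cast_nonneg n
  have hD : 0 ≤ 4 / δ ^ 3 * Real.exp (-z) := by positivity
  have hE := Real.exp_pos (-(1 / (4 * δ ^ 2)))
  have hlog : z + 1 ≤ Real.log ((n : ℝ) + 1) := by
    rw [← Real.log_exp (z + 1)]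
    exact Real.log_le_log (Real.exp_pos _) hK
  have hH : ((harmonic n : ℚ) : ℝ) ≤ 1 + 3 * L := by
    rcases Nat.eq_zero_or_pos n with h0 | h0
    · rw [h0]
      simp
      linarith
    · have h1 := harmonic_le_one_add_log n
      have h2 : Real.log n ≤ Real.log ((n : ℝ) + 1) :=
        Real.log_le_log (by exact_mod_cast h0) (by linarith)
      linarith
  have hlu : ∀ u : ℝ, 1 ≤ u → u ≤ (n : ℝ) + 1 → Real.log u ≤ 3 * L := fun u h1 h2 =>
    (Real.log_le_log (by linarith) h2).trans hK2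
  have s1 := sumint (fun u : ℝ => 1 / u * gs δ (Real.log u - z))
    (fun u => -((1 + (Real.log u - z) / δ ^ 2) * gs δ (Real.log u - z) * u⁻¹ * u⁻¹))
    (4 / δ ^ 3 * Real.exp (-z)) hD n
    (fun u h1 _ => f1_deriv δ z u hδ h1) (fun u h1 _ => f1_bound δ z u hδ hδ1 h1)
  have s2 := sumint (fun u : ℝ => Real.log u / u * gs δ (Real.log u - z))
    (fun u => u⁻¹ * (1 / u * gs δ (Real.log u - z)) + Real.log u *
        (-((1 + (Real.log u - z) / δ ^ 2) * gs δ (Real.log u - z) * u⁻¹ * u⁻¹)))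
    ((1 + 3 * L) * (4 / δ ^ 3 * Real.exp (-z))) (by positivity) n
    (fun u h1 _ => f2_deriv δ z u hδ h1)
    (fun u h1 h2 => f2_bound δ z u (3 * L) hδ hδ1 h1 (hlu u h1 h2))
  rw [i1 δ z _ (by linarith)] at s1
  rw [i2 δ z _ (by linarith)] at s2
  have t1 := gs_tail δ (-z) (Real.log ((n : ℝ) + 1) - z) hδ (by linarith) (by linarith)
  have t2 := gs_first δ (-z) (Real.log ((n : ℝ) + 1) - z) hδ hδ1 (by linarith) (by linarith)
  have b1 : |(fun u : ℝ => 1 / u * gs δ (Real.log u - z)) 1| ≤ 4 / δ ^ 3 * Real.exp (-z) := by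
    have h1 := gsu0 δ z 1 hδ hδ1 le_rfl
    have h2 := gs_nonneg δ (Real.log 1 - z) hδ
    show |1 / 1 * gs δ (Real.log 1 - z)| ≤ _
    rw [div_one, one_mul, abs_of_nonneg h2]
    rw [inv_one, mul_one] at h1
    exact h1
  have b2 : |(fun u : ℝ => Real.log u / u * gs δ (Real.log u - z)) 1| = 0 := by
    show |Real.log 1 / 1 * gs δ (Real.log 1 - z)| = 0
    rw [Real.log_one, zero_div, zero_mul, abs_zero]
  rw [b2] at s2
  generalize (∫ v in (-z)..(Real.log ((n : ℝ) + 1) - z), gs δ v) = I0 at s1 s2 t1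
  generalize (∫ v in (-z)..(Real.log ((n : ℝ) + 1) - z), v * gs δ v) = I1 at s2 t2
  generalize (4 / δ ^ 3 * Real.exp (-z)) = D at hD s1 s2 b1 ⊢
  generalize Real.exp (-(1 / (4 * δ ^ 2))) = E at hE t1 t2 ⊢
  generalize ((harmonic n : ℚ) : ℝ) = H at hH s1 s2
  have m1 : D * H ≤ D * (1 + 3 * L) := mul_le_mul_of_nonneg_left hH hD
  have m2 : (1 + 3 * L) * D * H ≤ (1 + 3 * L) * D * (1 + 3 * L) :=
    mul_le_mul_of_nonneg_left hH (by positivity)
  have m3 : D * (1 + (1 + 3 * L)) ≤ (1 + 3 * L) ^ 2 * D := by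
    have : 1 + (1 + 3 * L) ≤ (1 + 3 * L) ^ 2 := by nlinarith
    nlinarith
  have m4 : 2 * E ≤ (1 + 4 * L) * E := by nlinarith
  constructor
  · refine (abs_sub_le _ I0 _).trans ?_
    have s1' : |∑ k ∈ Icc 1 (n + 1), 1 / (k : ℝ) * gs δ (Real.log k - z) - I0| ≤ D + D * H :=
      s1.trans (by linarith)
    linarith
  · refine (abs_sub_le _ (I1 + z * I0) _).trans ?_
    have s2' : |∑ k ∈ Icc 1 (n + 1), Real.log k / (k : ℝ) * gs δ (Real.log k - z) -
        (I1 + z * I0)| ≤ 0 + (1 + 3 * L) * D * H := s2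
    have e1 : I1 + z * I0 - z = I1 + z * (I0 - 1) := by ring
    rw [e1]
    have s3 : |I1 + z * (I0 - 1)| ≤ E + z * (2 * E) := by
      refine (abs_add_le _ _).trans (add_le_add t2 ?_)
      rw [abs_mul, abs_of_nonneg (by linarith : (0 : ℝ) ≤ z)]
      exact mul_le_mul_of_nonneg_left t1 (by linarith)
    have s4 : z * (2 * E) ≤ 2 * L * (2 * E) := mul_le_mul_of_nonneg_right hz2 (by linarith)
    nlinarith

private theorem numer (L : ℝ) (hL : 2000 ≤ L) :
    5 * (1 + 3 * L) ^ 2 * Real.exp (-(97 * L / 200)) ≤ Real.exp (-(L / 4)) := by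
  have h1 := Real.pow_div_factorial_le_exp (L / 5) (by linarith) 4
  have h2 : 5 * (1 + 3 * L) ^ 2 ≤ Real.exp (L / 5) := by
    refine le_trans ?_ h1
    have e : (L / 5) ^ 4 / ((Nat.factorial 4 : ℕ) : ℝ) = L ^ 2 * (L ^ 2) / 15000 := by
      norm_num [Nat.factorial]
      ring
    rw [e]
    have h3 : (1 + 3 * L) ^ 2 ≤ 16 * L ^ 2 := by nlinarith
    have h4 : (1200000 : ℝ) ≤ L ^ 2 := by nlinarith
    have h5 : L ^ 2 * 1200000 ≤ L ^ 2 * L ^ 2 := mul_le_mul_of_nonneg_left h4 (by positivity)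
    linarith
  have h3 : Real.exp (L / 5) * Real.exp (-(97 * L / 200)) ≤ Real.exp (-(L / 4)) := by
    rw [← Real.exp_add]
    refine Real.exp_le_exp.2 ?_
    linarith
  exact (mul_le_mul_of_nonneg_right h2 (Real.exp_pos _).le).trans h3

private theorem final (δ z L : ℝ) (hL : 2000 ≤ L) (hδ : Real.exp (-(L / 200)) ≤ δ)
    (hδ1 : δ ≤ 1 / L) (hz : L / 2 ≤ z) :
    (1 + 3 * L) ^ 2 * (4 / δ ^ 3 * Real.exp (-z)) +
        (1 + 4 * L) * Real.exp (-(1 / (4 * δ ^ 2))) ≤ Real.exp (-(L / 4)) := by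
  have hδ0 : 0 < δ := (Real.exp_pos _).trans_le hδ
  have h1 : 1 / δ ^ 3 ≤ Real.exp (3 * L / 200) := by
    rw [div_le_iff₀ (by positivity)]
    have h2 : Real.exp (-(L / 200)) ^ 3 ≤ δ ^ 3 := pow_le_pow_left₀ (Real.exp_pos _).le hδ 3
    have h3 : Real.exp (-(L / 200)) ^ 3 = Real.exp (-(3 * L / 200)) := by
      rw [← Real.exp_nat_mul]
      congr 1
      push_cast
      ring
    rw [h3] at h2
    have h4 := mul_le_mul_of_nonneg_left h2 (Real.exp_pos (3 * L / 200)).le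
    rw [← Real.exp_add, add_neg_cancel, Real.exp_zero] at h4
    exact h4
  have h2 : Real.exp (-z) ≤ Real.exp (-(L / 2)) := Real.exp_le_exp.2 (by linarith)
  have h3 : 4 / δ ^ 3 * Real.exp (-z) ≤ 4 * Real.exp (-(97 * L / 200)) := by
    have e1 : 4 / δ ^ 3 * Real.exp (-z) = 4 * (1 / δ ^ 3 * Real.exp (-z)) := by ring
    have e2 : Real.exp (-(97 * L / 200)) = Real.exp (3 * L / 200) * Real.exp (-(L / 2)) := by
      rw [← Real.exp_add]
      congr 1
      ring
    rw [e1, e2]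
    refine mul_le_mul_of_nonneg_left ?_ (by norm_num)
    exact mul_le_mul h1 h2 (Real.exp_pos _).le (Real.exp_pos _).le
  have h4 : Real.exp (-(1 / (4 * δ ^ 2))) ≤ Real.exp (-(97 * L / 200)) := by
    refine Real.exp_le_exp.2 (neg_le_neg ?_)
    have hLp : 0 < L := by linarith
    have h5 : δ * L ≤ 1 := by
      rw [le_div_iff₀ hLp] at hδ1
      exact hδ1
    have h6 : δ ^ 2 * L ^ 2 ≤ 1 := by
      have : 0 ≤ δ * L := by positivity
      calc δ ^ 2 * L ^ 2 = (δ * L) * (δ * L) := by ring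
        _ ≤ 1 * 1 := mul_le_mul h5 h5 this (by norm_num)
        _ = 1 := by norm_num
    rw [le_div_iff₀ (by positivity)]
    have h7 : 97 * L / 200 * 4 ≤ L ^ 2 := by nlinarith
    calc 97 * L / 200 * (4 * δ ^ 2) = δ ^ 2 * (97 * L / 200 * 4) := by ring
      _ ≤ δ ^ 2 * L ^ 2 := mul_le_mul_of_nonneg_left h7 (by positivity)
      _ ≤ 1 := h6
  have hE := Real.exp_pos (-(97 * L / 200))
  have h5 := numer L hL
  refine le_trans ?_ h5
  have h6 : (1 + 3 * L) ^ 2 * (4 / δ ^ 3 * Real.exp (-z)) ≤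
      (1 + 3 * L) ^ 2 * (4 * Real.exp (-(97 * L / 200))) :=
    mul_le_mul_of_nonneg_left h3 (by positivity)
  have h7 : (1 + 4 * L) * Real.exp (-(1 / (4 * δ ^ 2))) ≤
      (1 + 3 * L) ^ 2 * Real.exp (-(97 * L / 200)) :=
    mul_le_mul (by nlinarith) h4 (Real.exp_pos _).le (by positivity)
  linarith

/-- Proof. `F(u) = gs δ (log u - z)/u`: `∫_0^∞ F = 1`; `|Σ_{k<=K} F(k) - ∫_1^K F| <= F(1) + F(K) + ∫_1^K |F'|` and
`∫ |F'| <= ∫ e^(-v) (|v-z|/δ^2 + 1) gs δ (v-z) dv <= C e^(-z)/δ`, `e^(-z) <= X^(-1/2)`. The missing pieces `u < 1`, `u > K` of the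
integral are `<= exp(-1/(4 δ^2))`. In the same way for `log u F(u)`, whose integral is `∫ v gs δ (v-z) dv = z`. -/
theorem ti : ∃ X0 : ℝ, 10 ≤ X0 ∧ ∀ X : ℝ, X0 ≤ X → ∀ (K : ℕ) (δ z : ℝ),
    X ^ (-(1 : ℝ) / 200) ≤ δ → δ ≤ 1 / Real.log X → Real.log X / 2 ≤ z → z ≤ 2 * Real.log X →
    Real.exp (z + 1) ≤ K → (K : ℝ) ≤ X ^ 3 →
    |∑ k ∈ Icc 1 K, 1 / (k : ℝ) * gs δ (Real.log k - z) - 1| ≤ X ^ (-(1 : ℝ) / 4) ∧
    |∑ k ∈ Icc 1 K, Real.log k / (k : ℝ) * gs δ (Real.log k - z) - z| ≤ X ^ (-(1 : ℝ) / 4) := by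
  refine ⟨Real.exp 2000, ?_, ?_⟩
  · have := Real.add_one_le_exp (2000 : ℝ)
    linarith
  intro X hX K δ z hδ hδ2 hz hz2 hK hK2
  have hX0 : 0 < X := (Real.exp_pos _).trans_le hX
  have hL : 2000 ≤ Real.log X := by
    rw [← Real.log_exp (2000 : ℝ)]
    exact Real.log_le_log (Real.exp_pos _) hX
  have r1 : X ^ (-(1 : ℝ) / 200) = Real.exp (-(Real.log X / 200)) := by
    rw [Real.rpow_def_of_pos hX0]
    congr 1
    ring
  have r2 : X ^ (-(1 : ℝ) / 4) = Real.exp (-(Real.log X / 4)) := by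
    rw [Real.rpow_def_of_pos hX0]
    congr 1
    ring
  rw [r1] at hδ
  rw [r2]
  have hδ0 : 0 < δ := (Real.exp_pos _).trans_le hδ
  have hδ1 : δ ≤ 1 := by
    refine hδ2.trans ?_
    rw [div_le_one (by linarith)]
    linarith
  have hK0 : 0 < K := by
    rcases Nat.eq_zero_or_pos K with h | h
    · rw [h] at hK
      have := Real.exp_pos (z + 1)
      push_cast at hK
      linarith
    · exact h
  obtain ⟨n, rfl⟩ : ∃ n, K = n + 1 := ⟨K - 1, by omega⟩
  push_cast at hK hK2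
  have hl : Real.log ((n : ℝ) + 1) ≤ 3 * Real.log X := by
    have h1 := Real.log_le_log (by positivity) hK2
    rw [Real.log_pow] at h1
    push_cast at h1
    exact h1
  have hc := core δ z (Real.log X) n hδ0 hδ1 (by linarith) (by linarith) hz2 hK hl
  have hf := final δ z (Real.log X) hL hδ hδ2 hz
  exact ⟨hc.1.trans hf, hc.2.trans hf⟩

end Pool.Agent.H42.HO

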