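import Pool.Agent.H42.HO.Defs

/-!
# H42 HO, Win: not used

The window estimate is part of `Pool/Agent/H11/WX/Fin.lean` (`fin_input`).
-/
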